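import Pool.Agent.Y230.PT.Global
import Pool.Agent.Y230.HS.Strong
import Pool.Agent.W427.SMC.Igusa
import Pool.Agent.W427.SMC.Poin4

set_option autoImplicit false
set_option linter.unusedSectionVars false
set_option linter.unusedVariables false

/-! # The zeta functions of `∑ y_j f_j(x_1, x_2)` -/

namespace Pool.Agent.Y230.PT

open MeasureTheory Set Pool.Agent.W427.SMC MvPolynomial
open scoped ENNReal
open Pool.Agent.Y230.RE

/-- Igusa's zeta function `∫_{ℤ_p ^ V} |f(x)| ^ s dx` of a polynomial with rational coefficients in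
the variables `V`; here `dx` is the Haar measure on the compact additive group `ℤ_p ^ V`, of total
mass `1`. -/
noncomputable def zetaQ (p : ℕ) [Fact p.Prime] {V : Type} [Fintype V] (f : MvPolynomial V ℚ)
    (s : ℂ) : ℂ :=
  letI : MeasurableSpace (V → ℤ_[p]) := borel _
  haveI : BorelSpace (V → ℤ_[p]) := ⟨rfl⟩
  ∫ x : V → ℤ_[p], ((‖eval₂ (algebraMap ℚ ℚ_[p]) (fun i => ((x i : ℤ_[p]) : ℚ_[p])) f‖ : ℝ) : ℂ) ^ s
    ∂(Measure.addHaarMeasure (⊤ : TopologicalSpace.PositiveCompacts (V → ℤ_[p])))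

attribute [local instance] msZ bsZ

theorem eval2_cont (p : ℕ) [Fact p.Prime] {V : Type} [Fintype V] (f : MvPolynomial V ℚ) :
    Continuous (fun x : V → ℤ_[p] =>
      eval₂ (algebraMap ℚ ℚ_[p]) (fun i => ((x i : ℤ_[p]) : ℚ_[p])) f) := by
  have h : (fun x : V → ℤ_[p] => eval₂ (algebraMap ℚ ℚ_[p]) (fun i => ((x i : ℤ_[p]) : ℚ_[p])) f) =
      (fun y : V → ℚ_[p] => eval y (map (algebraMap ℚ ℚ_[p]) f)) ∘
        (fun x : V → ℤ_[p] => fun i => inc p (x i)) := by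
    funext x
    simp only [Function.comp_apply, eval_map]
    rfl
  rw [h]
  exact (MvPolynomial.continuous_eval _).comp (continuous_pi fun i =>
    (inc_emb p).continuous.comp (continuous_apply i))

theorem zetaQ_eq (p : ℕ) [Fact p.Prime] {V : Type} [Fintype V] (f : MvPolynomial V ℚ)
    (s : ℝ) : zetaQ p f (s : ℂ) =
      ((∫⁻ x, N p s (eval₂ (algebraMap ℚ ℚ_[p]) (fun i => inc p (x i)) f)
        ∂(Measure.pi fun _ : V => mu p)).toReal : ℂ) := by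
  unfold zetaQ
  have hms : (borel (V → ℤ_[p])) = MeasurableSpace.pi := (Pi.borelSpace).measurable_eq.symm
  have key : ∀ (ms : MeasurableSpace (V → ℤ_[p])) (_ : ms = MeasurableSpace.pi)
      (hb : @BorelSpace _ _ ms),
      (@integral _ _ _ _ ms (@Measure.addHaarMeasure _ _ _ _ ms hb
        (⊤ : TopologicalSpace.PositiveCompacts (V → ℤ_[p])))
        (fun x => ((‖eval₂ (algebraMap ℚ ℚ_[p]) (fun i => ((x i : ℤ_[p]) : ℚ_[p])) f‖ : ℝ) : ℂ) ^
          (s : ℂ))) =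
      ((∫⁻ x, N p s (eval₂ (algebraMap ℚ ℚ_[p]) (fun i => inc p (x i)) f)
        ∂(Measure.pi fun _ : V => mu p)).toReal : ℂ) := by
    intro ms h hb
    subst h
    have h1 : (Measure.pi fun _ : V => mu p) =
        Measure.addHaarMeasure (⊤ : TopologicalSpace.PositiveCompacts (V → ℤ_[p])) := by
      have h2 := Measure.addHaarMeasure_unique (Measure.pi fun _ : V => mu p)
        (⊤ : TopologicalSpace.PositiveCompacts (V → ℤ_[p]))
      rw [h2]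
      have : (Measure.pi fun _ : V => mu p)
          ((⊤ : TopologicalSpace.PositiveCompacts (V → ℤ_[p])) : Set (V → ℤ_[p])) = 1 :=
        measure_univ
      rw [this, one_smul]
    rw [← h1]
    have h3 : ∀ x : V → ℤ_[p],
        ((‖eval₂ (algebraMap ℚ ℚ_[p]) (fun i => ((x i : ℤ_[p]) : ℚ_[p])) f‖ : ℝ) : ℂ) ^ (s : ℂ) =
        ((‖eval₂ (algebraMap ℚ ℚ_[p]) (fun i => ((x i : ℤ_[p]) : ℚ_[p])) f‖ ^ s : ℝ) : ℂ) :=
      fun x => (Complex.ofReal_cpow (norm_nonneg _) s).symm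
    simp only [h3]
    rw [integral_complex_ofReal]
    congr 1
    rw [integral_eq_lintegral_of_nonneg_ae]
    · rfl
    · exact Filter.Eventually.of_forall fun x => Real.rpow_nonneg (norm_nonneg _) _
    · exact ((continuous_norm.comp (eval2_cont p f)).measurable.pow_const s).aestronglyMeasurable
  exact key (borel _) hms (@BorelSpace.mk _ _ (borel _) rfl)

section Core

variable {p : ℕ} [Fact p.Prime] {ι : Type} [Fintype ι] [DecidableEq ι]

theorem ev_rat (f : MvPolynomial (Fin 2) ℚ) (x : Fin 2 → ℤ_[p]) :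
    ev (inc p (x 0), inc p (x 1)) (map (algebraMap ℚ ℚ_[p]) f) =
      eval₂ (algebraMap ℚ ℚ_[p]) (fun i => inc p (x i)) f := by
  unfold ev
  rw [eval_map]
  congr 1
  funext i
  fin_cases i <;> rfl

/-- **The zeta function of `∑ y_j f_j(x_1, x_2)`, for every prime.** -/
theorem core_Q (f : ι → MvPolynomial (Fin 2) ℚ) (hne : ∃ j, f j ≠ 0) (b : Polynomial ℂ)
    (hb0 : b ≠ 0) (hb : Pool.Agent.H628R4.TP.IsBFunction (map (algebraMap ℚ ℂ)
      (∑ j, X (Sum.inl j) * rename Sum.inr (f j) : MvPolynomial (ι ⊕ Fin 2) ℚ)) b) :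
    ∃ D P : Polynomial ℂ, D ≠ 0 ∧ (∀ s : ℝ, 0 ≤ s →
      D.eval ((tr' p s : ℝ) : ℂ) * ((∫⁻ x : ι ⊕ Fin 2 → ℤ_[p], N p s (eval₂ (algebraMap ℚ ℚ_[p])
        (fun i => inc p (x i)) (∑ j, X (Sum.inl j) * rename Sum.inr (f j) :
          MvPolynomial (ι ⊕ Fin 2) ℚ))
        ∂(Measure.pi fun _ : ι ⊕ Fin 2 => mu p)).toReal : ℂ) = P.eval ((tr' p s : ℝ) : ℂ)) ∧
      ∀ T0, T0 ≠ 0 → D.rootMultiplicity T0 ≤ b.rootMultiplicity ((rr p T0 : ℝ) : ℂ) := by
  obtain ⟨φ⟩ := exists_emb p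
  have hφ : φ.comp (algebraMap ℚ ℚ_[p]) = algebraMap ℚ ℂ := RingHom.ext_rat _ _
  -- the complex polynomials
  have hmapF : map (algebraMap ℚ ℂ)
      (∑ j, X (Sum.inl j) * rename Sum.inr (f j) : MvPolynomial (ι ⊕ Fin 2) ℚ) =
      Pool.Agent.W574.HS.univ fun j => map (algebraMap ℚ ℂ) (f j) := by
    rw [Pool.Agent.W574.HS.univ, map_sum]
    refine Finset.sum_congr rfl fun j _ => ?_
    rw [map_mul, map_X, map_rename]
  rw [hmapF] at hb
  have hneC : ∃ j, map (algebraMap ℚ ℂ) (f j) ≠ 0 := by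
    obtain ⟨j, hj⟩ := hne
    refine ⟨j, fun h0 => hj ?_⟩
    exact map_injective _ (algebraMap ℚ ℂ).injective (by rw [h0, map_zero])
  obtain ⟨b', rfl, hb'⟩ := Pool.Agent.Y230.HS.functionalEq_of_univ_strong _ b hneC hb
  have hb0' : b' ≠ 0 := right_ne_zero_of_mul hb0
  have hneK : ∃ j, map (algebraMap ℚ ℚ_[p]) (f j) ≠ 0 := by
    obtain ⟨j, hj⟩ := hne
    refine ⟨j, fun h0 => hj ?_⟩
    exact map_injective _ (algebraMap ℚ ℚ_[p]).injective (by rw [h0, map_zero])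
  have hmp : (fun j => map (algebraMap ℚ ℂ) (f j)) =
      fun j => mp φ (map (algebraMap ℚ ℚ_[p]) (f j)) := by
    funext j
    unfold mp
    rw [map_map, hφ]
  rw [hmp] at hb'
  obtain ⟨D, P, hD0, h1, h2⟩ := form_main φ (fun j => map (algebraMap ℚ ℚ_[p]) (f j)) hneK b' hb0'
    hb'
  refine ⟨D, P, hD0, fun s hs => ?_, h2⟩
  rw [← h1 s hs]
  congr 4
  funext x
  congr 1
  rw [eval₂_sum]
  refine Finset.sum_congr rfl fun j _ => ?_
  rw [eval₂_mul, eval₂_X, eval₂_rename]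
  congr 1
  exact (ev_rat (f j) (fun i => x (Sum.inr i))).symm

/-- the meromorphic continuation -/
theorem mero_Q (f : ι → MvPolynomial (Fin 2) ℚ) (hne : ∃ j, f j ≠ 0) (b : Polynomial ℂ)
    (hb0 : b ≠ 0) (hb : Pool.Agent.H628R4.TP.IsBFunction (map (algebraMap ℚ ℂ)
      (∑ j, X (Sum.inl j) * rename Sum.inr (f j) : MvPolynomial (ι ⊕ Fin 2) ℚ)) b)
    (Z : ℂ → ℂ) (hZ : MeromorphicOn Z Set.univ)
    (hZp : ∀ s : ℂ, 0 < s.re → Z s = zetaQ p
      (∑ j, X (Sum.inl j) * rename Sum.inr (f j) : MvPolynomial (ι ⊕ Fin 2) ℚ) s) (s₀ : ℂ) :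
    ((-(b.rootMultiplicity (s₀.re : ℂ) : ℤ) : ℤ) : WithTop ℤ) ≤ meromorphicOrderAt Z s₀ := by
  obtain ⟨D, P, hD0, h1, h2⟩ := core_Q (p := p) f hne b hb0 hb
  have h3 := mero_bound p D P hD0 Z hZ (fun s hs => by
    rw [pw_real, hZp s (by simpa using hs), zetaQ_eq, h1 s hs.le]) s₀
  refine le_trans ?_ h3
  have h4 := h2 (pw p s₀) (pw_ne_zero p s₀)
  have h5 : rr p (pw p s₀) = s₀.re := pw_norm p s₀
  rw [h5] at h4
  exact_mod_cast neg_le_neg (Int.ofNat_le.2 h4)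

/-- the integers as rational numbers -/
theorem form_Z (f : ι → MvPolynomial (Fin 2) ℤ) :
    map (Int.castRingHom ℚ) (∑ j, X (Sum.inl j) * rename Sum.inr (f j) :
      MvPolynomial (ι ⊕ Fin 2) ℤ) =
      ∑ j, X (Sum.inl j) * rename Sum.inr (map (Int.castRingHom ℚ) (f j)) := by
  rw [map_sum]
  refine Finset.sum_congr rfl fun j _ => ?_
  rw [map_mul, map_X, map_rename]

theorem tau_N (s : ℝ) {V : Type} [Fintype V] (F : MvPolynomial V ℤ) (x : V → ℤ_[p]) :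
    tau p s (aeval x F) = N p s (eval₂ (algebraMap ℚ ℚ_[p]) (fun i => inc p (x i))
      (map (Int.castRingHom ℚ) F)) := by
  rw [← N_inc]
  congr 1
  rw [eval₂_map]
  have h : (PadicInt.Coe.ringHom (p := p)).comp (aeval x : MvPolynomial V ℤ →ₐ[ℤ] ℤ_[p]).toRingHom =
      eval₂Hom ((algebraMap ℚ ℚ_[p]).comp (Int.castRingHom ℚ)) (fun i => inc p (x i)) := by
    refine MvPolynomial.ringHom_ext (fun c => ?_) fun i => ?_
    · simp
    · simp [inc]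
  exact congrArg (fun ψ : MvPolynomial V ℤ →+* ℚ_[p] => ψ F) h

theorem core_Z (f : ι → MvPolynomial (Fin 2) ℤ) (hne : ∃ j, f j ≠ 0) (b : Polynomial ℂ)
    (hb0 : b ≠ 0) (hb : Pool.Agent.H628R4.TP.IsBFunction (map (Int.castRingHom ℂ)
      (∑ j, X (Sum.inl j) * rename Sum.inr (f j) : MvPolynomial (ι ⊕ Fin 2) ℤ)) b) :
    ∃ D P : Polynomial ℂ, D ≠ 0 ∧ (∀ s : ℝ, 0 ≤ s →
      D.eval ((tr' p s : ℝ) : ℂ) * ((∫⁻ x : ι ⊕ Fin 2 → ℤ_[p], tau p s (aeval x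
        (∑ j, X (Sum.inl j) * rename Sum.inr (f j) : MvPolynomial (ι ⊕ Fin 2) ℤ))
        ∂(Measure.pi fun _ : ι ⊕ Fin 2 => mu p)).toReal : ℂ) = P.eval ((tr' p s : ℝ) : ℂ)) ∧
      ∀ T0, T0 ≠ 0 → D.rootMultiplicity T0 ≤ b.rootMultiplicity ((rr p T0 : ℝ) : ℂ) := by
  have h1 : ∀ F : MvPolynomial (ι ⊕ Fin 2) ℤ, map (Int.castRingHom ℂ) F =
      map (algebraMap ℚ ℂ) (map (Int.castRingHom ℚ) F) := by
    intro F
    rw [map_map]
    congr 1
  rw [h1, form_Z] at hb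
  have hneQ : ∃ j, map (Int.castRingHom ℚ) (f j) ≠ 0 := by
    obtain ⟨j, hj⟩ := hne
    refine ⟨j, fun h0 => hj ?_⟩
    exact map_injective _ (RingHom.injective_int _) (by rw [h0, map_zero])
  obtain ⟨D, P, hD0, h2, h3⟩ := core_Q (p := p) _ hneQ b hb0 hb
  refine ⟨D, P, hD0, fun s hs => ?_, h3⟩
  rw [← h2 s hs, ← form_Z]
  simp only [tau_N]

theorem mero_Z (f : ι → MvPolynomial (Fin 2) ℤ) (hne : ∃ j, f j ≠ 0) (b : Polynomial ℂ)
    (hb0 : b ≠ 0) (hb : Pool.Agent.H628R4.TP.IsBFunction (map (Int.castRingHom ℂ)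
      (∑ j, X (Sum.inl j) * rename Sum.inr (f j) : MvPolynomial (ι ⊕ Fin 2) ℤ)) b)
    (Z : ℂ → ℂ) (hZ : MeromorphicOn Z Set.univ)
    (hZp : ∀ s : ℂ, 0 < s.re → Z s = igusaZeta p
      (∑ j, X (Sum.inl j) * rename Sum.inr (f j) : MvPolynomial (ι ⊕ Fin 2) ℤ) s) (s₀ : ℂ) :
    ((-(b.rootMultiplicity (s₀.re : ℂ) : ℤ) : ℤ) : WithTop ℤ) ≤ meromorphicOrderAt Z s₀ := by
  obtain ⟨D, P, hD0, h1, h2⟩ := core_Z (p := p) f hne b hb0 hb
  have h3 := mero_bound p D P hD0 Z hZ (fun s hs => by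
    rw [pw_real, hZp s (by simpa using hs), igusaZeta_eq, h1 s hs.le]) s₀
  refine le_trans ?_ h3
  have h4 := h2 (pw p s₀) (pw_ne_zero p s₀)
  have h5 : rr p (pw p s₀) = s₀.re := pw_norm p s₀
  rw [h5] at h4
  exact_mod_cast neg_le_neg (Int.ofNat_le.2 h4)

theorem poin_Z (f : ι → MvPolynomial (Fin 2) ℤ) (hne : ∃ j, f j ≠ 0) (b : Polynomial ℂ)
    (hb0 : b ≠ 0) (hb : Pool.Agent.H628R4.TP.IsBFunction (map (Int.castRingHom ℂ)
      (∑ j, X (Sum.inl j) * rename Sum.inr (f j) : MvPolynomial (ι ⊕ Fin 2) ℤ)) b) :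
    ∃ Φ : RatFunc ℂ, ((Φ.denom : Polynomial ℂ) : PowerSeries ℂ) * poincare p
        (∑ j, X (Sum.inl j) * rename Sum.inr (f j) : MvPolynomial (ι ⊕ Fin 2) ℤ) =
      ((Φ.num : Polynomial ℂ) : PowerSeries ℂ) ∧
      ∀ T₀ : ℂ, Φ.denom.rootMultiplicity T₀ ≤
        b.rootMultiplicity ((-Real.log ‖T₀‖ / Real.log p : ℝ) : ℂ) := by
  obtain ⟨D, P, hD0, h1, h2⟩ := core_Z (p := p) f hne b hb0 hb
  obtain ⟨Φ, h3, h4, h5⟩ := poincare_of p _ D P hD0 h1
  refine ⟨Φ, h3, fun T => ?_⟩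
  rcases eq_or_ne T 0 with rfl | hT
  · rw [h4]
    exact Nat.zero_le _
  · exact (h5 T).trans (h2 T hT)

end Core

end Pool.Agent.Y230.PT
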