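import Pool.Agent.Y230.PT.Local2

set_option autoImplicit false
set_option linter.unusedSectionVars false
set_option linter.unusedVariables false

/-! # From the points to the unit ball -/

namespace Pool.Agent.Y230.PT

open MeasureTheory Set Pool.Agent.W427.SMC
open scoped ENNReal
open Pool.Agent.Y230.RE Polynomial

variable {p : ℕ} [Fact p.Prime]

attribute [local instance] msK bsK

variable {ι : Type} [Fintype ι] {T0 : ℂ} {M : ℕ}

theorem lreg_shU {H : ℝ → ℚ_[p] × ℚ_[p] → ℝ≥0∞} (hH : Ok H) (α : ℚ_[p]) (hα : α ≠ 0)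
    (f : ℚ_[p] → ℚ_[p]) (hf : Continuous f) {x : ℚ_[p] × ℚ_[p]}
    (h : LReg T0 M (Zc (fun s x => N p 1 α * H s (f x.2 + α * x.1, x.2))) x) :
    LReg T0 M (Zc H) (f x.2 + α * x.1, x.2) :=
  LReg.homeo (shU α hα f hf) (fun C hC s hs => Zc_shearU H hH α hα f hf hC hs) h

theorem Hn_nd (f : ι → A ℚ_[p]) (P : ℚ_[p] × ℚ_[p]) (s : ℝ) (x : ℚ_[p] × ℚ_[p]) :
    Hn f 0 1 0 1 s (P.1 + x.1, P.2 + x.2) = Hn (nd f ![P.1, P.2]) 0 1 0 1 s x := by
  unfold Hn
  rw [w01, w01, w01, w01]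
  congr 2
  funext j
  unfold nd
  rw [ev_aeval]
  simp only [Matrix.cons_val_zero, Matrix.cons_val_one]
  rw [map_add, map_add, ev_X0, ev_X1, ev_C, ev_C, add_comm x.1, add_comm x.2]

theorem lreg_pt (f : ι → A ℚ_[p]) (P : ℚ_[p] × ℚ_[p])
    (h : LReg T0 M (Zc (Hn (nd f ![P.1, P.2]) 0 1 0 1)) (0, 0)) :
    LReg T0 M (Zc (Hn f 0 1 0 1)) P := by
  have h1 : LReg T0 M (Zc (fun s x => N p 1 1 * (fun s (x : ℚ_[p] × ℚ_[p]) =>
      Hn f 0 1 0 1 s (x.1, P.2 + x.2)) s ((fun _ => P.1) x.2 + 1 * x.1, x.2))) (0, 0) := by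
    refine h.congr isOpen_univ trivial fun C _ _ s _ => ?_
    unfold Zc
    congr 3
    funext x
    have h2 := Hn_nd f P s x
    simp only [N_one, one_mul]
    exact h2.symm
  have hok : Ok (fun s (x : ℚ_[p] × ℚ_[p]) => Hn f 0 1 0 1 s (x.1, P.2 + x.2)) :=
    (ok_Hn f 0 1 0 1).comp (fun x => (x.1, P.2 + x.2)) (by fun_prop)
  have h2 := lreg_shU hok 1 one_ne_zero (fun _ => P.1) continuous_const h1
  have h3 : ((fun _ : ℚ_[p] => P.1) (0 : ℚ_[p]) + 1 * 0, (0 : ℚ_[p])) = (P.1, 0) := by simp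
  simp only [mul_zero, add_zero] at h2
  have h4 := lreg_shV (ok_Hn f 0 1 0 1) (fun _ => P.2) continuous_const (x := (P.1, 0)) h2
  simpa using h4

/-- the unit ball -/
def ub : Set (ℚ_[p] × ℚ_[p]) := bx 0 (0, 0) 0

theorem CO_ub : CO (ub (p := p)) := CO_bx 0 (0, 0) 0

/-- the zeta function of the ideal -/
noncomputable def ZI (f : ι → A ℚ_[p]) (s : ℝ) : ℂ := Zc (Hn f 0 1 0 1) ub s

theorem reg_ZI [DecidableEq ι] (φ : ℚ_[p] →+* ℂ) (f : ι → A ℚ_[p]) (hne : ∃ j, f j ≠ 0)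
    (b : ℂ[X]) (hb0 : b ≠ 0) (hb : Pool.Agent.W574.SM.IsFunctionalEq (fun j => mp φ (f j)) b)
    (hT0 : T0 ≠ 0) : Reg p T0 (b.rootMultiplicity ((rr p T0 : ℝ) : ℂ)) (ZI f) :=
  LReg.glue (addF_Zc (ok_Hn f 0 1 0 1)) CO_ub fun x _ => lreg_pt f x
    (local_M φ f b hb0 hb hT0 ![x.1, x.2] hne)

theorem reg_ZI0 [DecidableEq ι] (f : ι → A ℚ_[p]) (hne : ∃ j, f j ≠ 0) (hT0 : T0 ≠ 0)
    (hT1 : ‖T0‖ ≤ 1) : Reg p T0 0 (ZI f) :=
  LReg.glue (addF_Zc (ok_Hn f 0 1 0 1)) CO_ub fun x _ => lreg_pt f x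
    (local_0 f hT0 hT1 ![x.1, x.2] hne)

theorem poly_eq_of_tr (P Q : ℂ[X])
    (h : ∀ s : ℝ, 0 ≤ s → P.eval ((tr' p s : ℝ) : ℂ) = Q.eval ((tr' p s : ℝ) : ℂ)) : P = Q := by
  refine Polynomial.eq_of_infinite_eval_eq P Q ?_
  have hinj : Set.InjOn (fun s : ℝ => ((tr' p s : ℝ) : ℂ)) (Set.Ici 0) := by
    intro s hs t ht hst
    have h1 : tr' p s = tr' p t := Complex.ofReal_injective hst
    unfold tr' at h1
    have hp : (1 : ℝ) < p := by exact_mod_cast (Fact.out : p.Prime).one_lt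
    have hp0 : (0 : ℝ) < p := by linarith
    have h2 := congrArg Real.log h1
    rw [Real.log_rpow hp0, Real.log_rpow hp0] at h2
    have h3 := mul_right_cancel₀ (Real.log_pos hp).ne' h2
    linarith
  refine Set.Infinite.mono ?_ ((Set.Ici_infinite (0 : ℝ)).image hinj)
  rintro _ ⟨s, hs, rfl⟩
  exact h s hs

theorem tr'_le_one' {s : ℝ} (hs : 0 ≤ s) : tr' p s ≤ 1 := by
  unfold tr'
  exact Real.rpow_le_one_of_one_le_of_nonpos (by
    exact_mod_cast (Fact.out : p.Prime).one_lt.le) (by linarith)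

theorem exists_rat (F : ℝ → ℂ) (mult : ℂ → ℕ) (h : ∀ T0, T0 ≠ 0 → Reg p T0 (mult T0) F)
    (h0 : ∀ T0, T0 ≠ 0 → ‖T0‖ ≤ 1 → Reg p T0 0 F) :
    ∃ D P : ℂ[X], D ≠ 0 ∧ (∀ s : ℝ, 0 ≤ s →
      D.eval ((tr' p s : ℝ) : ℂ) * F s = P.eval ((tr' p s : ℝ) : ℂ)) ∧
      ∀ T0, T0 ≠ 0 → D.rootMultiplicity T0 ≤ mult T0 := by
  classical
  obtain ⟨D1, P1, hD1, h1⟩ := h0 1 one_ne_zero (by simp)
  simp only [pow_zero, one_mul] at h1
  have hD10 : D1 ≠ 0 := by
    rintro rfl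
    simp at hD1
  set g := EuclideanDomain.gcd D1 P1 with hg
  have hg0 : g ≠ 0 := fun h => hD10 (EuclideanDomain.gcd_eq_zero_iff.1 h).1
  have hgD : g ∣ D1 := EuclideanDomain.gcd_dvd_left D1 P1
  have hgP : g ∣ P1 := EuclideanDomain.gcd_dvd_right D1 P1
  obtain ⟨a, b, hab⟩ : ∃ a b : ℂ[X], g = D1 * a + P1 * b :=
    ⟨_, _, EuclideanDomain.gcd_eq_gcd_ab D1 P1⟩
  clear_value g
  obtain ⟨D, hD⟩ := hgD
  obtain ⟨P, hP⟩ := hgP
  have hcop : IsCoprime D P := by
    refine ⟨a, b, ?_⟩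
    apply mul_left_cancel₀ hg0
    linear_combination -hab - a * hD - b * hP
  have hD0 : D ≠ 0 := by
    rintro rfl
    rw [mul_zero] at hD
    exact hD10 hD
  -- comparison of the fractions
  have hcmp : ∀ D' P' : ℂ[X], (∀ s : ℝ, 0 ≤ s → D'.eval ((tr' p s : ℝ) : ℂ) * F s =
      P'.eval ((tr' p s : ℝ) : ℂ)) → D' * P = P' * D := by
    intro D' P' h2
    apply mul_left_cancel₀ hg0
    have h3 : D' * P1 = P' * D1 := by
      refine poly_eq_of_tr (p := p) _ _ fun s hs => ?_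
      rw [eval_mul, eval_mul, ← h2 s hs, ← h1 s hs]
      ring
    linear_combination h3 - D' * hP + P' * hD
  refine ⟨D, P, hD0, ?_, ?_⟩
  · intro s hs
    obtain ⟨D', P', hD', h2⟩ := h0 ((tr' p s : ℝ) : ℂ) (tr_ne s) (by
      rw [Complex.norm_real, Real.norm_of_nonneg (tr'_pos p s).le]
      exact tr'_le_one' hs)
    simp only [pow_zero, one_mul] at h2
    have h3 := hcmp D' P' h2
    have h4 := congrArg (fun Q : ℂ[X] => Q.eval ((tr' p s : ℝ) : ℂ)) h3
    simp only [eval_mul] at h4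
    rw [← h2 s hs] at h4
    apply mul_left_cancel₀ hD'
    rw [h4]
    ring
  · intro T0 hT0
    obtain ⟨D', P', hD', h2⟩ := h T0 hT0
    have h3 := hcmp _ P' h2
    have h4 : D ∣ (X - C T0) ^ mult T0 * D' := by
      refine hcop.dvd_of_dvd_mul_right ?_
      rw [h3]
      exact dvd_mul_left _ _
    have hD'0 : D' ≠ 0 := by
      rintro rfl
      simp at hD'
    have hne : (X - C T0) ^ mult T0 * D' ≠ 0 :=
      mul_ne_zero (pow_ne_zero _ (X_sub_C_ne_zero T0)) hD'0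
    have h5 := rootMultiplicity_le_rootMultiplicity_of_dvd hne h4 T0
    rw [rootMultiplicity_mul hne, rootMultiplicity_X_sub_C_pow,
      rootMultiplicity_eq_zero (show ¬ IsRoot D' T0 from hD'), add_zero] at h5
    exact h5

/-- **The zeta function of an ideal of the plane.** -/
theorem ideal_main [DecidableEq ι] (φ : ℚ_[p] →+* ℂ) (f : ι → A ℚ_[p]) (hne : ∃ j, f j ≠ 0)
    (b : ℂ[X]) (hb0 : b ≠ 0) (hb : Pool.Agent.W574.SM.IsFunctionalEq (fun j => mp φ (f j)) b) :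
    ∃ D P : ℂ[X], D ≠ 0 ∧ (∀ s : ℝ, 0 ≤ s →
      D.eval ((tr' p s : ℝ) : ℂ) * ZI f s = P.eval ((tr' p s : ℝ) : ℂ)) ∧
      ∀ T0, T0 ≠ 0 → D.rootMultiplicity T0 ≤ b.rootMultiplicity ((rr p T0 : ℝ) : ℂ) :=
  exists_rat (ZI f) (fun T0 => b.rootMultiplicity ((rr p T0 : ℝ) : ℂ))
    (fun T0 hT0 => reg_ZI φ f hne b hb0 hb hT0) (fun T0 hT0 hT1 => reg_ZI0 f hne hT0 hT1)

attribute [local instance] msZ bsZ

/-- the integral of a linear form -/
theorem lintegral_form [DecidableEq ι] {s : ℝ} (hs : 0 ≤ s) (z : ι → ℚ_[p]) (hι : Nonempty ι) :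
    ∫⁻ y : ι → ℤ_[p], N p s (∑ j, inc p (y j) * z j) ∂(Measure.pi fun _ : ι => mu p) =
      mx z s * phi p s := by
  by_cases hz : ∃ j, z j ≠ 0
  swap
  · push Not at hz
    have h1 : mx z s = N p s 0 := by
      unfold mx
      simp only [hz]
      exact ciSup_const
    simp only [hz, mul_zero, Finset.sum_const_zero]
    rw [lintegral_const, measure_univ, mul_one, h1]
    rcases hs.eq_or_lt with rfl | h
    · have h2 : N p 0 0 = 1 := by simp [N]
      have h3 : phi p 0 = 1 := by simp [phi, tau]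
      rw [h2, h3, one_mul]
    · have h2 : N p s 0 = 0 := by
        simp [N, Real.zero_rpow h.ne']
      rw [h2, zero_mul]
  obtain ⟨j0, hj0, hmax⟩ := exists_max z hz
  rw [mx_eq_of_max z j0 hmax hs]
  -- the coefficients
  have hu : ∀ j, ∃ u : ℤ_[p], z j = z j0 * inc p u := by
    intro j
    have h1 : ‖z j / z j0‖ ≤ 1 := by
      rw [norm_div]
      exact div_le_one_of_le₀ (hmax j) (norm_nonneg _)
    refine ⟨⟨z j / z j0, h1⟩, ?_⟩
    change z j = z j0 * (z j / z j0)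
    rw [mul_div_cancel₀ _ hj0]
  choose u hu using hu
  have hinc : ∀ a b : ℤ_[p], inc p (a * b) = inc p a * inc p b := fun a b => by
    simp [inc]
  have hinca : ∀ a b : ℤ_[p], inc p (a + b) = inc p a + inc p b := fun a b => by
    simp [inc]
  have hincs : ∀ y : ι → ℤ_[p], inc p (∑ j, y j * u j) = ∑ j, inc p (y j) * inc p (u j) := by
    intro y
    simp [inc]
  have hu0 : u j0 = 1 := by
    have h1 := hu j0
    have h2 : inc p (u j0) = 1 := by
      have : z j0 * inc p (u j0) = z j0 * 1 := by rw [← h1, mul_one]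
      exact mul_left_cancel₀ hj0 this
    have h3 : ((u j0 : ℤ_[p]) : ℚ_[p]) = ((1 : ℤ_[p]) : ℚ_[p]) := by
      rw [PadicInt.coe_one]; exact h2
    exact Subtype.ext h3
  have h1 : ∀ y : ι → ℤ_[p], N p s (∑ j, inc p (y j) * z j) =
      N p s (z j0) * tau p s (∑ j, y j * u j) := by
    intro y
    rw [← N_inc, hincs, ← N_mul, Finset.mul_sum]
    congr 1
    refine Finset.sum_congr rfl fun j _ => ?_
    rw [hu j]
    ring
  simp only [h1]
  rw [lintegral_const_mul' _ _ (N_ne_top _ _)]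
  congr 1
  have hcont : Continuous (fun y : ι → ℤ_[p] => ∑ j, y j * u j) := by fun_prop
  have h0 := lintegral_avg p (fun y : ι → ℤ_[p] => tau p s (∑ j, y j * u j))
    ((tau_meas p s).comp hcont.measurable) j0
  rw [h0]
  have h2 : ∀ y : ι → ℤ_[p], ∫⁻ t, tau p s (∑ j, Function.update y j0 t j * u j) ∂(mu p) =
      phi p s := by
    intro y
    have h3 : ∀ t, ∑ j, Function.update y j0 t j * u j =
        t + ∑ j ∈ Finset.univ.erase j0, y j * u j := by
      intro t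
      rw [← Finset.add_sum_erase Finset.univ _ (Finset.mem_univ j0), Function.update_self, hu0,
        mul_one]
      congr 1
      refine Finset.sum_congr rfl fun j hj => ?_
      rw [Function.update_of_ne (Finset.ne_of_mem_erase hj)]
    simp only [h3]
    exact lintegral_add_right_eq_self (μ := mu p) (tau p s) _
  simp only [h2]
  rw [lintegral_const, measure_univ, mul_one]

/-- the integral over the unit ball, with integral coordinates -/
theorem ZI_eq (f : ι → A ℚ_[p]) (s : ℝ) (hs : 0 ≤ s) :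
    ZI f s = ((∫⁻ x : Fin 2 → ℤ_[p], mx (fun j => ev (inc p (x 0), inc p (x 1)) (f j)) s
      ∂(Measure.pi fun _ : Fin 2 => mu p)).toReal : ℂ) := by
  unfold ZI Zc
  congr 2
  have hH : ∀ x, Hn f 0 1 0 1 s x = mx (fun j => ev x (f j)) s := by
    intro x
    unfold Hn
    rw [w01, w01, mul_one, mul_one]
  have hmeas : Measurable (fun x => mx (fun j => ev x (f j)) s) := by
    have h1 := (ok_Hn f 0 1 0 1 s hs).1
    have h2 : Hn f 0 1 0 1 s = fun x => mx (fun j => ev x (f j)) s := funext hH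
    rwa [h2] at h1
  have hmp := measurePreserving_finTwoArrow (mu p)
  have hinc : Measurable (inc p) := (inc_emb p).continuous.measurable
  have h1 : ∫⁻ x : Fin 2 → ℤ_[p], mx (fun j => ev (inc p (x 0), inc p (x 1)) (f j)) s
      ∂(Measure.pi fun _ : Fin 2 => mu p) =
      ∫⁻ z : ℤ_[p] × ℤ_[p], mx (fun j => ev (inc p z.1, inc p z.2) (f j)) s
        ∂((mu p).prod (mu p)) := by
    rw [← hmp.lintegral_comp (f := fun z : ℤ_[p] × ℤ_[p] =>
      mx (fun j => ev (inc p z.1, inc p z.2) (f j)) s)]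
    · rfl
    · exact hmeas.comp ((hinc.comp measurable_fst).prodMk (hinc.comp measurable_snd))
  have h2 := lintegral_prod (μ := mu p) (ν := mu p) (fun z : ℤ_[p] × ℤ_[p] =>
    mx (fun j => ev (inc p z.1, inc p z.2) (f j)) s) (hmeas.comp ((hinc.comp measurable_fst).prodMk
    (hinc.comp measurable_snd))).aemeasurable
  rw [h1, h2]
  simp only [hH]
  have hbl : ∀ (G : ℚ_[p] → ℝ≥0∞), ∫⁻ x in bl (0 : ℚ_[p]) 0, G x ∂(nu p) =
      ∫⁻ z, G (inc p z) ∂(mu p) := by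
    intro G
    rw [← lintegral_unit]
    unfold bl
    rw [pow_zero]
  rw [ub, bx, nu2, ← Measure.prod_restrict, lintegral_prod _ hmeas.aemeasurable, add_zero, hbl]
  refine lintegral_congr fun a => ?_
  exact hbl (fun v => mx (fun j => ev (inc p a, v) (f j)) s)

/-- Fubini -/
theorem lintegral_sumPi (G : (ι → ℤ_[p]) × (Fin 2 → ℤ_[p]) → ℝ≥0∞) (hG : Measurable G) :
    ∫⁻ x : ι ⊕ Fin 2 → ℤ_[p], G (fun i => x (Sum.inl i), fun i => x (Sum.inr i))
      ∂(Measure.pi fun _ : ι ⊕ Fin 2 => mu p) =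
    ∫⁻ x : Fin 2 → ℤ_[p], ∫⁻ y : ι → ℤ_[p], G (y, x) ∂(Measure.pi fun _ : ι => mu p)
      ∂(Measure.pi fun _ : Fin 2 => mu p) := by
  have hmp := (measurePreserving_sumPiEquivProdPi (X := fun _ : ι ⊕ Fin 2 => ℤ_[p])
    (fun _ : ι ⊕ Fin 2 => mu p))
  have h3 := hmp.lintegral_comp hG
  rw [← lintegral_prod_symm G hG.aemeasurable, ← h3]
  rfl

/-- **The zeta function of `∑ y_j f_j`.** -/
theorem form_main [DecidableEq ι] (φ : ℚ_[p] →+* ℂ) (f : ι → A ℚ_[p]) (hne : ∃ j, f j ≠ 0)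
    (b : ℂ[X]) (hb0 : b ≠ 0) (hb : Pool.Agent.W574.SM.IsFunctionalEq (fun j => mp φ (f j)) b) :
    ∃ D P : ℂ[X], D ≠ 0 ∧ (∀ s : ℝ, 0 ≤ s →
      D.eval ((tr' p s : ℝ) : ℂ) * ((∫⁻ x : ι ⊕ Fin 2 → ℤ_[p], N p s (∑ j, inc p (x (Sum.inl j)) *
        ev (inc p (x (Sum.inr 0)), inc p (x (Sum.inr 1))) (f j))
        ∂(Measure.pi fun _ : ι ⊕ Fin 2 => mu p)).toReal : ℂ) = P.eval ((tr' p s : ℝ) : ℂ)) ∧
      ∀ T0, T0 ≠ 0 → D.rootMultiplicity T0 ≤
        ((X + 1) * b).rootMultiplicity ((rr p T0 : ℝ) : ℂ) := by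
  obtain ⟨D, P, hD0, h1, h2⟩ := ideal_main φ f hne b hb0 hb
  have hι : Nonempty ι := ⟨hne.choose⟩
  have hpC : (p : ℂ) ≠ 0 := by exact_mod_cast (Fact.out : p.Prime).ne_zero
  refine ⟨(C (p : ℂ) - X) * D, C ((p : ℂ) - 1) * P, ?_, ?_, ?_⟩
  · refine mul_ne_zero ?_ hD0
    have : (C (p : ℂ) - X : ℂ[X]) = -(X - C (p : ℂ)) := by ring
    rw [this]
    exact neg_ne_zero.2 (X_sub_C_ne_zero _)
  · intro s hs
    have hinc : Measurable (inc p) := (inc_emb p).continuous.measurable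
    have hG : Measurable (fun q : (ι → ℤ_[p]) × (Fin 2 → ℤ_[p]) => N p s (∑ j, inc p (q.1 j) *
        ev (inc p (q.2 0), inc p (q.2 1)) (f j))) := by
      refine (N_meas s).comp (Finset.measurable_fun_sum _ fun j _ => ?_)
      refine (hinc.comp ((measurable_pi_apply j).comp measurable_fst)).mul ?_
      refine (ev_cont (f j)).measurable.comp ?_
      exact (hinc.comp ((measurable_pi_apply 0).comp measurable_snd)).prodMk
        (hinc.comp ((measurable_pi_apply 1).comp measurable_snd))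
    have e1 : ∫⁻ x : ι ⊕ Fin 2 → ℤ_[p], N p s (∑ j, inc p (x (Sum.inl j)) *
        ev (inc p (x (Sum.inr 0)), inc p (x (Sum.inr 1))) (f j))
        ∂(Measure.pi fun _ : ι ⊕ Fin 2 => mu p) =
        (∫⁻ x : Fin 2 → ℤ_[p], mx (fun j => ev (inc p (x 0), inc p (x 1)) (f j)) s
          ∂(Measure.pi fun _ : Fin 2 => mu p)) * phi p s := by
      rw [lintegral_sumPi (fun q : (ι → ℤ_[p]) × (Fin 2 → ℤ_[p]) => N p s (∑ j, inc p (q.1 j) *
        ev (inc p (q.2 0), inc p (q.2 1)) (f j))) hG]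
      rw [← lintegral_mul_const']
      · refine lintegral_congr fun x => ?_
        have h7 := lintegral_form hs (fun j => ev (inc p (x 0), inc p (x 1)) (f j)) hι
        exact h7
      · exact ((phi_le p s hs).trans_lt ENNReal.one_lt_top).ne
    rw [e1, ENNReal.toReal_mul, Complex.ofReal_mul, ← ZI_eq f s hs]
    have h3 := phi_eq p s hs
    have h4 := congrArg (fun x : ℝ => (x : ℂ)) h3
    push_cast at h4
    have h5 := h1 s hs
    simp only [eval_mul, eval_sub, eval_C, eval_X]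
    have h6 : (((p : ℝ) ^ (-s) : ℝ) : ℂ) = ((tr' p s : ℝ) : ℂ) := rfl
    rw [h6] at h4
    linear_combination ((phi p s).toReal : ℂ) * ((p : ℂ) - ((tr' p s : ℝ) : ℂ)) * h5 +
      P.eval ((tr' p s : ℝ) : ℂ) * h4
  · intro T0 hT0
    have hX1 : (X + 1 : ℂ[X]) ≠ 0 := by
      intro h
      have := congrArg (fun Q : ℂ[X] => Q.eval 0) h
      simp at this
    have hpX : (C (p : ℂ) - X : ℂ[X]) ≠ 0 := by
      have : (C (p : ℂ) - X : ℂ[X]) = -(X - C (p : ℂ)) := by ring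
      rw [this]
      exact neg_ne_zero.2 (X_sub_C_ne_zero _)
    rw [rootMultiplicity_mul (mul_ne_zero hpX hD0), rootMultiplicity_mul (mul_ne_zero hX1 hb0)]
    refine Nat.add_le_add ?_ (h2 T0 hT0)
    by_cases h : T0 = (p : ℂ)
    · have e1 : (C (p : ℂ) - X : ℂ[X]).rootMultiplicity T0 ≤ 1 := by
        have h3 : (C (p : ℂ) - X : ℂ[X]) ∣ (X - C (p : ℂ)) ^ 1 := by
          refine ⟨-1, ?_⟩
          ring
        have h4 := rootMultiplicity_le_rootMultiplicity_of_dvd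
          (pow_ne_zero 1 (X_sub_C_ne_zero (p : ℂ))) h3 (p : ℂ)
        rw [rootMultiplicity_X_sub_C_pow] at h4
        rw [h]
        exact h4
      have e2 : ((rr p T0 : ℝ) : ℂ) = -1 := by
        rw [h, rr, Complex.norm_natCast]
        have hlp : Real.log p ≠ 0 := (Real.log_pos (by
          exact_mod_cast (Fact.out : p.Prime).one_lt)).ne'
        rw [neg_div, div_self hlp]
        push_cast
        rfl
      rw [e2]
      refine e1.trans ?_
      have h3 : (X + 1 : ℂ[X]).IsRoot (-1) := by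
        rw [IsRoot]
        simp
      exact (rootMultiplicity_pos hX1).2 h3
    · have e1 : (C (p : ℂ) - X : ℂ[X]).rootMultiplicity T0 = 0 := by
        apply rootMultiplicity_eq_zero
        rw [IsRoot, eval_sub, eval_C, eval_X]
        exact fun h3 => h (sub_eq_zero.1 h3).symm
      rw [e1]
      exact Nat.zero_le _

end Pool.Agent.Y230.PT
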