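import Pool.Agent.Y230.PT.TwoDim

set_option autoImplicit false
set_option linter.unusedSectionVars false

/-! # The change of variables at a blow-up -/

namespace Pool.Agent.Y230.PT

open MeasureTheory Set Pool.Agent.W427.SMC
open scoped ENNReal

variable {p : ℕ} [Fact p.Prime]

attribute [local instance] msK bsK

theorem nu_zero : nu p ({0} : Set ℚ_[p]) = 0 := by
  have h1 : ∀ k : ℕ, nu p ({0} : Set ℚ_[p]) ≤ ((p : ℝ≥0∞)⁻¹) ^ k := by
    intro k
    rw [← nu_bl (0 : ℚ_[p]) k]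
    refine measure_mono ?_
    rw [Set.singleton_subset_iff, mem_bl, sub_zero, norm_zero]
    exact pow_nonneg qr_pos.le _
  have h2 : Filter.Tendsto (fun k : ℕ => ((p : ℝ≥0∞)⁻¹) ^ k) Filter.atTop (nhds 0) := by
    refine ENNReal.tendsto_pow_atTop_nhds_zero_of_lt_one ?_
    rw [ENNReal.inv_lt_one]
    exact_mod_cast (Fact.out : p.Prime).one_lt
  exact le_antisymm (ge_of_tendsto' h2 h1) zero_le

theorem ae_ne_zero : ∀ᵐ x ∂(nu p), x ≠ (0 : ℚ_[p]) := by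
  rw [ae_iff]
  have : {a : ℚ_[p] | ¬ a ≠ 0} = {0} := by ext x; simp
  rw [this]
  exact nu_zero

/-- the first chart -/
noncomputable def c1 (x : ℚ_[p] × ℚ_[p]) : ℚ_[p] × ℚ_[p] := (x.1, x.1 * x.2)

/-- the second chart -/
noncomputable def c2 (x : ℚ_[p] × ℚ_[p]) : ℚ_[p] × ℚ_[p] := (x.1 * x.2, x.2)

theorem c1_cont : Continuous (c1 (p := p)) := by unfold c1; fun_prop
theorem c2_cont : Continuous (c2 (p := p)) := by unfold c2; fun_prop

theorem N_norm_le_iff (L : ℕ) (x v : ℚ_[p]) (hx : x ≠ 0) :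
    ‖x * v‖ * qr p ^ L ≤ ‖x‖ ↔ ‖v‖ * qr p ^ L ≤ 1 := by
  have h1 : 0 < ‖x‖ := norm_pos_iff.2 hx
  rw [norm_mul, mul_assoc, mul_le_iff_le_one_right h1]

/-- **The blow-up formula.** -/
theorem lint_blow (L : ℕ) (Φ : ℚ_[p] × ℚ_[p] → ℝ≥0∞) (hΦ : Measurable Φ) :
    ∫⁻ x, Φ x ∂(nu2 p) =
      ∫⁻ x, ({x : ℚ_[p] × ℚ_[p] | ‖x.2‖ * qr p ^ L ≤ 1}).indicator
        (fun x => N p 1 x.1 * Φ (c1 x)) x ∂(nu2 p) +
      ∫⁻ x, ({x : ℚ_[p] × ℚ_[p] | ‖x.1‖ < qr p ^ L}).indicator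
        (fun x => N p 1 x.2 * Φ (c2 x)) x ∂(nu2 p) := by
  have hcl : IsClosed {x : ℚ_[p] × ℚ_[p] | ‖x.2‖ * qr p ^ L ≤ ‖x.1‖} :=
    isClosed_le (by fun_prop) (by fun_prop)
  have hA : MeasurableSet {x : ℚ_[p] × ℚ_[p] | ‖x.2‖ * qr p ^ L ≤ ‖x.1‖} := hcl.measurableSet
  have hB1 : MeasurableSet {x : ℚ_[p] × ℚ_[p] | ‖x.2‖ * qr p ^ L ≤ 1} :=
    (isClosed_le (by fun_prop) (by fun_prop)).measurableSet
  have hB2 : MeasurableSet {x : ℚ_[p] × ℚ_[p] | ‖x.1‖ < qr p ^ L} :=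
    (isOpen_lt (by fun_prop) (by fun_prop)).measurableSet
  set A := {x : ℚ_[p] × ℚ_[p] | ‖x.2‖ * qr p ^ L ≤ ‖x.1‖} with hAdef
  have hm1 : Measurable (fun x : ℚ_[p] × ℚ_[p] => N p 1 x.1 * Φ (c1 x)) :=
    ((N_meas 1).comp measurable_fst).mul (hΦ.comp c1_cont.measurable)
  have hm2 : Measurable (fun x : ℚ_[p] × ℚ_[p] => N p 1 x.2 * Φ (c2 x)) :=
    ((N_meas 1).comp measurable_snd).mul (hΦ.comp c2_cont.measurable)
  rw [← lintegral_add_compl Φ hA, ← lintegral_indicator hA, ← lintegral_indicator hA.compl]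
  congr 1
  · rw [nu2, lintegral_prod _ (hΦ.indicator hA).aemeasurable,
      lintegral_prod _ (hm1.indicator hB1).aemeasurable]
    refine lintegral_congr_ae ?_
    filter_upwards [ae_ne_zero (p := p)] with x hx
    rw [← lintegral_scale p x hx, ← lintegral_const_mul' _ _ (N_ne_top _ _)]
    refine lintegral_congr fun v => ?_
    by_cases h : ‖v‖ * qr p ^ L ≤ 1
    · rw [Set.indicator_of_mem (show (x, x * v) ∈ A from (N_norm_le_iff L x v hx).2 h),
        Set.indicator_of_mem (show (x, v) ∈ {x : ℚ_[p] × ℚ_[p] | ‖x.2‖ * qr p ^ L ≤ 1} from h)]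
      rfl
    · rw [Set.indicator_of_notMem
        (show (x, x * v) ∉ A from fun h2 => h ((N_norm_le_iff L x v hx).1 h2)),
        Set.indicator_of_notMem
        (show (x, v) ∉ {x : ℚ_[p] × ℚ_[p] | ‖x.2‖ * qr p ^ L ≤ 1} from h), mul_zero]
  · rw [nu2, lintegral_prod_symm _ (hΦ.indicator hA.compl).aemeasurable,
      lintegral_prod_symm _ (hm2.indicator hB2).aemeasurable]
    refine lintegral_congr_ae ?_
    filter_upwards [ae_ne_zero (p := p)] with y hy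
    rw [← lintegral_scale p y hy, ← lintegral_const_mul' _ _ (N_ne_top _ _)]
    refine lintegral_congr fun u => ?_
    have hy1 : 0 < ‖y‖ := norm_pos_iff.2 hy
    have hiff : (y * u, y) ∈ Aᶜ ↔ ‖u‖ < qr p ^ L := by
      rw [Set.mem_compl_iff, hAdef, Set.mem_ofPred_eq, not_le, norm_mul, mul_lt_mul_iff_right₀ hy1]
    by_cases h : ‖u‖ < qr p ^ L
    · rw [Set.indicator_of_mem (hiff.2 h),
        Set.indicator_of_mem (show (u, y) ∈ {x : ℚ_[p] × ℚ_[p] | ‖x.1‖ < qr p ^ L} from h)]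
      change N p 1 y * Φ (y * u, y) = N p 1 y * Φ (u * y, y)
      rw [mul_comm y u]
    · rw [Set.indicator_of_notMem (fun h2 => h (hiff.1 h2)),
        Set.indicator_of_notMem (show (u, y) ∉ {x : ℚ_[p] × ℚ_[p] | ‖x.1‖ < qr p ^ L} from h),
        mul_zero]

/-- the part of a set in the first chart -/
def S1 (L : ℕ) (C : Set (ℚ_[p] × ℚ_[p])) : Set (ℚ_[p] × ℚ_[p]) :=
  {x | ‖x.2‖ * qr p ^ L ≤ 1} ∩ c1 ⁻¹' C

/-- the part of a set in the second chart -/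
def S2 (L : ℕ) (C : Set (ℚ_[p] × ℚ_[p])) : Set (ℚ_[p] × ℚ_[p]) :=
  {x | ‖x.1‖ < qr p ^ L} ∩ c2 ⁻¹' C

/-- the integrand in the first chart -/
noncomputable def H1 (H : ℝ → ℚ_[p] × ℚ_[p] → ℝ≥0∞) (s : ℝ) (x : ℚ_[p] × ℚ_[p]) : ℝ≥0∞ :=
  N p 1 x.1 * H s (c1 x)

/-- the integrand in the second chart -/
noncomputable def H2 (H : ℝ → ℚ_[p] × ℚ_[p] → ℝ≥0∞) (s : ℝ) (x : ℚ_[p] × ℚ_[p]) : ℝ≥0∞ :=
  N p 1 x.2 * H s (c2 x)

theorem CO_S1 (L : ℕ) {C : Set (ℚ_[p] × ℚ_[p])} (hC : CO C) : CO (S1 L C) := by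
  have hq : 0 < qr p ^ L := pow_pos qr_pos L
  have hset : {x : ℚ_[p] × ℚ_[p] | ‖x.2‖ * qr p ^ L ≤ 1} =
      (fun x => x.2) ⁻¹' Metric.closedBall (0 : ℚ_[p]) ((qr p ^ L)⁻¹) := by
    ext x
    rw [Set.mem_ofPred_eq, Set.mem_preimage, Metric.mem_closedBall, dist_zero_right,
      ← le_div_iff₀ hq, one_div]
  refine ⟨?_, ?_⟩
  · refine Metric.isCompact_of_isClosed_isBounded ?_ ?_
    · exact (isClosed_le (by fun_prop) (by fun_prop)).inter (hC.cpt.isClosed.preimage c1_cont)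
    · obtain ⟨R, hR⟩ := hC.cpt.isBounded.exists_norm_le
      refine (Metric.isBounded_closedBall (x := (0 : ℚ_[p] × ℚ_[p]))
        (r := max R ((qr p ^ L)⁻¹))).subset ?_
      rintro x ⟨h1, h2⟩
      rw [Metric.mem_closedBall, dist_zero_right, Prod.norm_def]
      refine max_le_max ?_ ?_
      · have := hR _ h2
        rw [Prod.norm_def] at this
        exact (le_max_left _ _).trans this
      · rw [Set.mem_ofPred_eq, ← le_div_iff₀ hq, one_div] at h1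
        exact h1
  · refine IsOpen.inter ?_ (hC.opn.preimage c1_cont)
    rw [hset]
    exact (IsUltrametricDist.isOpen_closedBall _ (inv_pos.2 hq).ne').preimage continuous_snd

theorem CO_S2 (L : ℕ) {C : Set (ℚ_[p] × ℚ_[p])} (hC : CO C) : CO (S2 L C) := by
  have hq : 0 < qr p ^ L := pow_pos qr_pos L
  have hset : {x : ℚ_[p] × ℚ_[p] | ‖x.1‖ < qr p ^ L} =
      (fun x => x.1) ⁻¹' Metric.ball (0 : ℚ_[p]) (qr p ^ L) := by
    ext x
    rw [Set.mem_ofPred_eq, Set.mem_preimage, Metric.mem_ball, dist_zero_right]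
  refine ⟨?_, ?_⟩
  · refine Metric.isCompact_of_isClosed_isBounded ?_ ?_
    · refine IsClosed.inter ?_ (hC.cpt.isClosed.preimage c2_cont)
      rw [hset]
      exact (IsUltrametricDist.isClosed_ball _ _).preimage continuous_fst
    · obtain ⟨R, hR⟩ := hC.cpt.isBounded.exists_norm_le
      refine (Metric.isBounded_closedBall (x := (0 : ℚ_[p] × ℚ_[p]))
        (r := max (qr p ^ L) R)).subset ?_
      rintro x ⟨h1, h2⟩
      rw [Metric.mem_closedBall, dist_zero_right, Prod.norm_def]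
      refine max_le_max (le_of_lt h1) ?_
      have := hR _ h2
      rw [Prod.norm_def] at this
      exact (le_max_right _ _).trans this
  · exact (isOpen_lt (by fun_prop) (by fun_prop)).inter (hC.opn.preimage c2_cont)

theorem Ok.comp {H : ℝ → ℚ_[p] × ℚ_[p] → ℝ≥0∞} (hH : Ok H)
    (f : ℚ_[p] × ℚ_[p] → ℚ_[p] × ℚ_[p]) (hf : Continuous f) : Ok (fun s x => H s (f x)) := by
  intro s hs
  refine ⟨(hH s hs).1.comp hf.measurable, fun C hC => ?_⟩
  obtain ⟨B, hB, hle⟩ := (hH s hs).2 (f '' C) (hC.image hf)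
  exact ⟨B, hB, fun x hx => hle _ (Set.mem_image_of_mem f hx)⟩

theorem Ok.H1 {H : ℝ → ℚ_[p] × ℚ_[p] → ℝ≥0∞} (hH : Ok H) : Ok (H1 H) :=
  (ok_N1 (fun x => x.1) continuous_fst).mul (hH.comp c1 c1_cont)

theorem Ok.H2 {H : ℝ → ℚ_[p] × ℚ_[p] → ℝ≥0∞} (hH : Ok H) : Ok (H2 H) :=
  (ok_N1 (fun x => x.2) continuous_snd).mul (hH.comp c2 c2_cont)

theorem Zc_blow (L : ℕ) {H : ℝ → ℚ_[p] × ℚ_[p] → ℝ≥0∞} (hH : Ok H) {C : Set (ℚ_[p] × ℚ_[p])}
    (hC : CO C) {s : ℝ} (hs : 0 ≤ s) :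
    Zc H C s = Zc (H1 H) (S1 L C) s + Zc (H2 H) (S2 L C) s := by
  have hB1 : MeasurableSet {x : ℚ_[p] × ℚ_[p] | ‖x.2‖ * qr p ^ L ≤ 1} :=
    (isClosed_le (by fun_prop) (by fun_prop)).measurableSet
  have hB2 : MeasurableSet {x : ℚ_[p] × ℚ_[p] | ‖x.1‖ < qr p ^ L} :=
    (isOpen_lt (by fun_prop) (by fun_prop)).measurableSet
  have h1 := lint_blow L (C.indicator (H s)) ((hH s hs).1.indicator hC.meas)
  rw [lintegral_indicator hC.meas] at h1
  have e1 : ∀ x, ({x : ℚ_[p] × ℚ_[p] | ‖x.2‖ * qr p ^ L ≤ 1}).indicator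
      (fun x => N p 1 x.1 * C.indicator (H s) (c1 x)) x = (S1 L C).indicator (H1 H s) x := by
    intro x
    by_cases h2 : x ∈ {x : ℚ_[p] × ℚ_[p] | ‖x.2‖ * qr p ^ L ≤ 1}
    · rw [Set.indicator_of_mem h2]
      by_cases h3 : c1 x ∈ C
      · rw [Set.indicator_of_mem h3, Set.indicator_of_mem (show x ∈ S1 L C from ⟨h2, h3⟩)]
        rfl
      · rw [Set.indicator_of_notMem h3, mul_zero,
          Set.indicator_of_notMem (show x ∉ S1 L C from fun h => h3 h.2)]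
    · rw [Set.indicator_of_notMem h2,
        Set.indicator_of_notMem (show x ∉ S1 L C from fun h => h2 h.1)]
  have e2 : ∀ x, ({x : ℚ_[p] × ℚ_[p] | ‖x.1‖ < qr p ^ L}).indicator
      (fun x => N p 1 x.2 * C.indicator (H s) (c2 x)) x = (S2 L C).indicator (H2 H s) x := by
    intro x
    by_cases h2 : x ∈ {x : ℚ_[p] × ℚ_[p] | ‖x.1‖ < qr p ^ L}
    · rw [Set.indicator_of_mem h2]
      by_cases h3 : c2 x ∈ C
      · rw [Set.indicator_of_mem h3, Set.indicator_of_mem (show x ∈ S2 L C from ⟨h2, h3⟩)]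
        rfl
      · rw [Set.indicator_of_notMem h3, mul_zero,
          Set.indicator_of_notMem (show x ∉ S2 L C from fun h => h3 h.2)]
    · rw [Set.indicator_of_notMem h2,
        Set.indicator_of_notMem (show x ∉ S2 L C from fun h => h2 h.1)]
  simp only [e1, e2] at h1
  rw [lintegral_indicator (CO_S1 L hC).meas, lintegral_indicator (CO_S2 L hC).meas] at h1
  unfold Zc
  rw [h1, ENNReal.toReal_add (hH.H1.fin (CO_S1 L hC) hs) (hH.H2.fin (CO_S2 L hC) hs)]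
  push_cast
  rfl

/-- the shear `(x, y) ↦ (x, y + c x)` preserves the integrals -/
theorem Zc_shearV (H : ℝ → ℚ_[p] × ℚ_[p] → ℝ≥0∞) (hH : Ok H) (f : ℚ_[p] → ℚ_[p])
    (hf : Continuous f) {C : Set (ℚ_[p] × ℚ_[p])} (hC : CO C) {s : ℝ} (hs : 0 ≤ s) :
    Zc H C s = Zc (fun s x => H s (x.1, f x.1 + x.2)) ((fun x => (x.1, f x.1 + x.2)) ⁻¹' C) s := by
  have hcont : Continuous (fun x : ℚ_[p] × ℚ_[p] => ((x.1, f x.1 + x.2) : ℚ_[p] × ℚ_[p])) := by
    fun_prop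
  have hm : MeasurableSet ((fun x : ℚ_[p] × ℚ_[p] => ((x.1, f x.1 + x.2) : ℚ_[p] × ℚ_[p])) ⁻¹' C) :=
    hC.meas.preimage hcont.measurable
  unfold Zc
  congr 2
  have h0 := (hH s hs).1.indicator hC.meas
  rw [← lintegral_indicator hC.meas, ← lintegral_indicator hm, nu2,
    lintegral_prod _ h0.aemeasurable]
  rw [lintegral_prod]
  · refine lintegral_congr fun x => ?_
    rw [← lintegral_shift p (f x)]
    refine lintegral_congr fun y => ?_
    rfl
  · exact (h0.comp hcont.measurable).aemeasurable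

/-- the affine maps in the first variable -/
theorem Zc_shearU (H : ℝ → ℚ_[p] × ℚ_[p] → ℝ≥0∞) (hH : Ok H) (α : ℚ_[p]) (hα : α ≠ 0)
    (f : ℚ_[p] → ℚ_[p]) (hf : Continuous f) {C : Set (ℚ_[p] × ℚ_[p])} (hC : CO C) {s : ℝ}
    (hs : 0 ≤ s) :
    Zc H C s = Zc (fun s x => N p 1 α * H s (f x.2 + α * x.1, x.2))
      ((fun x => (f x.2 + α * x.1, x.2)) ⁻¹' C) s := by
  have hcont : Continuous (fun x : ℚ_[p] × ℚ_[p] => ((f x.2 + α * x.1, x.2) : ℚ_[p] × ℚ_[p])) := by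
    fun_prop
  have hm : MeasurableSet ((fun x : ℚ_[p] × ℚ_[p] =>
      ((f x.2 + α * x.1, x.2) : ℚ_[p] × ℚ_[p])) ⁻¹' C) := hC.meas.preimage hcont.measurable
  unfold Zc
  congr 2
  have h0 := (hH s hs).1.indicator hC.meas
  rw [← lintegral_indicator hC.meas, ← lintegral_indicator hm, nu2,
    lintegral_prod_symm _ h0.aemeasurable]
  rw [lintegral_prod_symm]
  · refine lintegral_congr fun y => ?_
    rw [← lintegral_shift p (f y), ← lintegral_scale p α hα, ← lintegral_const_mul' _ _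
      (N_ne_top _ _)]
    refine lintegral_congr fun x => ?_
    by_cases h : (f y + α * x, y) ∈ C
    · rw [Set.indicator_of_mem h, Set.indicator_of_mem (by exact h)]
    · rw [Set.indicator_of_notMem h, Set.indicator_of_notMem (by exact h), mul_zero]
  · refine Measurable.aemeasurable ?_
    exact (measurable_const.mul ((hH s hs).1.comp hcont.measurable)).indicator hm

end Pool.Agent.Y230.PT
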