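import Pool.Agent.W574.SM.PlaneMain
import Pool.Agent.Y230.RE.Exist

set_option autoImplicit false
set_option linter.unusedSectionVars false
set_option linter.unusedVariables false

/-! # The complex side: nodes and critical exceptional curves -/

namespace Pool.Agent.Y230.PT

open Polynomial Pool.Agent.W574.SM

/-- the curves which meet a critical exceptional curve -/
theorem bracketT (P : ℂ[X]) (hP : P ≠ 0) (m a0 n0 a1 n1 : ℕ) (hPm : P.natDegree ≤ m) (hm : 1 ≤ m)
    (hn0 : 1 ≤ n0) (hn1 : 1 ≤ n1) (S : Finset ℂ) (h0S : 0 ∈ S) (hS : ∀ c ∉ S, P.eval c ≠ 0)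
    (h0 : 0 < a1 + P.rootMultiplicity 0 →
      (n1 - 1) * (a0 + a1 + m) < (n0 + n1) * (a1 + P.rootMultiplicity 0))
    (h0' : a1 = 0 → n1 = 1)
    (hI : 0 < a0 + (m - P.natDegree) →
      (n0 - 1) * (a0 + a1 + m) < (n0 + n1) * (a0 + (m - P.natDegree)))
    (hI' : a0 = 0 → n0 = 1) (β : ℂ) (hβ : β ≠ 0) (A : ℂ[X]) (hA : A ≠ 0) (s : ℂ)
    (hs : s = -((n0 + n1 : ℕ) : ℂ) / ((a0 + a1 + m : ℕ) : ℂ))
    (hsol : (X ^ a1 * P) * derivative A + C s * derivative (X ^ a1 * P) * A
      = C β * X ^ (n1 - 1) * (X ^ a1 * P)) :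
    (n1 : ℂ) + s * ((a1 + P.rootMultiplicity 0 : ℕ) : ℂ) ≠ 0 ∧
    (n0 : ℂ) + s * ((a0 + (m - P.natDegree) : ℕ) : ℂ) ≠ 0 ∧
    (∀ c, c ≠ 0 → 1 + s * (P.rootMultiplicity c : ℂ) ≠ 0) ∧
      ∃ T : Finset ℂ, (∀ c, c ∈ T ↔ c ≠ 0 ∧ P.rootMultiplicity c ≠ 0) ∧ T.card ≤ 2 ∧
        (T.card = 1 → (a0 + (m - P.natDegree) = 0 ∧ n0 = 1) ∨
          (a1 + P.rootMultiplicity 0 = 0 ∧ n1 = 1)) ∧
        (T.card = 2 → (a0 + (m - P.natDegree) = 0 ∧ n0 = 1) ∧
          (a1 + P.rootMultiplicity 0 = 0 ∧ n1 = 1)) ∧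
        P.rootMultiplicity 0 + ∑ c ∈ T, P.rootMultiplicity c = P.natDegree ∧
        ((n0 : ℂ) + s * ((a0 + (m - P.natDegree) : ℕ) : ℂ)) +
          ((n1 : ℂ) + s * ((a1 + P.rootMultiplicity 0 : ℕ) : ℂ)) +
          ∑ c ∈ T, s * (P.rootMultiplicity c : ℂ) = 0 := by
  classical
  set Q : ℂ[X] := X ^ a1 * P with hQ
  have hQ0 : Q ≠ 0 := mul_ne_zero (pow_ne_zero _ X_ne_zero) hP
  set a := a0 + a1 + m with ha
  set n := n0 + n1 with hn
  set q0 := a1 + P.rootMultiplicity 0 with hq0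
  set qI := a0 + (m - P.natDegree) with hqI
  have hapos : 0 < a := by omega
  have hac : (a : ℂ) ≠ 0 := Nat.cast_ne_zero.2 hapos.ne'
  have hQdeg : Q.natDegree = a1 + P.natDegree := by
    rw [hQ, natDegree_mul (pow_ne_zero _ X_ne_zero) hP, natDegree_X_pow]
  have hloc : ∀ c, (A.rootMultiplicity c = ec (n1 - 1) c + 1 ∧
      A.rootMultiplicity c * a ≠ n * Q.rootMultiplicity c) ∨
      (A.rootMultiplicity c ≤ ec (n1 - 1) c ∧
      A.rootMultiplicity c * a = n * Q.rootMultiplicity c) := by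
    intro c
    have h1 := sol_local A 1 Q hA one_ne_zero hQ0 s β hβ (n1 - 1) (by
      simp only [derivative_one, mul_one, mul_zero, sub_zero, one_pow]
      exact hsol) c
    have h2 : (1 : ℂ[X]).rootMultiplicity c = 0 := by
      apply rootMultiplicity_eq_zero
      simp
    rw [h2] at h1
    have h3 : ((A.rootMultiplicity c : ℂ) - (0 : ℕ) + s * Q.rootMultiplicity c = 0) ↔
        A.rootMultiplicity c * a = n * Q.rootMultiplicity c := by
      rw [hs, ← Nat.cast_inj (R := ℂ)]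
      push_cast
      rw [sub_zero]
      field_simp
      constructor
      · intro h; linear_combination h
      · intro h; linear_combination h
    rcases h1 with h1 | h1
    · left
      exact ⟨by omega, fun h => h1.2 (h3.2 h)⟩
    · right
      exact ⟨by omega, h3.1 h1.2⟩
  have hinf : (A.natDegree = n1 ∧ A.natDegree * a ≠ n * Q.natDegree) ∨
      (n1 < A.natDegree ∧ A.natDegree * a = n * Q.natDegree) := by
    have h1 := sol_infty A Q hA hQ0 s β hβ (n1 - 1) hsol
    have h3 : ((A.natDegree : ℂ) + s * Q.natDegree = 0) ↔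
        A.natDegree * a = n * Q.natDegree := by
      rw [hs, ← Nat.cast_inj (R := ℂ)]
      push_cast
      field_simp
      constructor
      · intro h; linear_combination h
      · intro h; linear_combination h
    rcases h1 with h1 | h1
    · left
      exact ⟨by omega, fun h => h1.2 (h3.2 h)⟩
    · right
      exact ⟨by omega, h3.1 h1.2⟩
  -- at zero
  have hQ00 : Q.rootMultiplicity 0 = q0 := rm_zero P hP a1
  have hQc : ∀ c, c ≠ 0 → Q.rootMultiplicity c = P.rootMultiplicity c := fun c hc =>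
    rm_ne P hP a1 c hc
  have F0 : (A.rootMultiplicity 0 = n1 ∧ n1 * a ≠ n * q0) ∨
      (q0 = 0 ∧ n1 = 1 ∧ A.rootMultiplicity 0 = 0) := by
    have h1 := hloc 0
    rw [hQ00, ec, if_pos rfl] at h1
    rcases h1 with h1 | h1
    · left
      have h2 : A.rootMultiplicity 0 = n1 := by omega
      rw [h2] at h1
      exact ⟨h2, h1.2⟩
    · right
      by_cases hq : 0 < q0
      · exfalso
        have h2 := h0 hq
        have h3 : A.rootMultiplicity 0 * a ≤ (n1 - 1) * a := Nat.mul_le_mul_right a h1.1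
        omega
      · have h2 : n1 = 1 := h0' (by omega)
        exact ⟨by omega, h2, by omega⟩
  have Fc : ∀ c, c ≠ 0 → P.rootMultiplicity c ≠ 0 → A.rootMultiplicity c = 1 := by
    intro c hc hc2
    have h1 := hloc c
    rw [hQc c hc, ec, if_neg hc] at h1
    rcases h1 with h1 | h1
    · exact h1.1
    · exfalso
      have h2 : A.rootMultiplicity c = 0 := by omega
      rw [h2, zero_mul] at h1
      rcases Nat.mul_eq_zero.1 h1.2.symm with h3 | h3
      · omega
      · exact hc2 h3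
  have Fc2 : ∀ c, c ≠ 0 → a ≠ n * P.rootMultiplicity c := by
    intro c hc
    have h1 := hloc c
    rw [hQc c hc, ec, if_neg hc] at h1
    rcases h1 with h1 | h1
    · intro h
      apply h1.2
      rw [h1.1, zero_add, one_mul]
      exact h
    · have h2 : A.rootMultiplicity c = 0 := by omega
      rw [h2, zero_mul] at h1
      rw [← h1.2]
      omega
  have hqq : Q.natDegree + qI = a := by omega
  have FI : (A.natDegree = n1 ∧ n1 * a ≠ n * Q.natDegree) ∨
      (A.natDegree = n1 + 1 ∧ n0 = 1 ∧ qI = 0) := by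
    rcases hinf with h1 | h1
    · left
      have h2 := h1.2
      rw [h1.1] at h2
      exact ⟨h1.1, h2⟩
    · right
      by_cases hq : 0 < qI
      · exfalso
        have h2 := hI hq
        have h3 : n * Q.natDegree + n * qI = n * a := by rw [← Nat.mul_add, hqq]
        have h4 : (n1 + 1) * a ≤ A.natDegree * a := Nat.mul_le_mul_right a h1.1
        have h5 : n * a = (n1 + 1) * a + (n0 - 1) * a := by
          rw [← Nat.add_mul]
          congr 1
          omega
        omega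
      · have h2 : n0 = 1 := hI' (by omega)
        have h3 : Q.natDegree = a := by omega
        rw [h3] at h1
        have h4 := Nat.eq_of_mul_eq_mul_right hapos h1.2
        exact ⟨by omega, h2, by omega⟩
  -- the special points
  set T := (S.erase 0).filter (fun c => P.rootMultiplicity c ≠ 0) with hT
  have hT0 : ∀ c ∈ T, c ≠ 0 ∧ P.rootMultiplicity c ≠ 0 := by
    intro c hc
    rw [hT, Finset.mem_filter, Finset.mem_erase] at hc
    exact ⟨hc.1.1, hc.2⟩
  have hK : A.rootMultiplicity 0 + T.card ≤ A.natDegree := by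
    have h1 := sum_mult_le A hA (insert 0 T)
    rw [Finset.sum_insert (fun h => (hT0 0 h).1 rfl), Finset.sum_congr rfl fun c hc =>
      Fc c (hT0 c hc).1 (hT0 c hc).2] at h1
    simpa using h1
  have hdeg : P.rootMultiplicity 0 + ∑ c ∈ T, P.rootMultiplicity c = P.natDegree := by
    rw [← sum_mult P hP S hS, ← Finset.add_sum_erase S _ h0S, hT, Finset.sum_filter_ne_zero]
  have hsum : qI + q0 + ∑ c ∈ T, P.rootMultiplicity c = a := by omega
  set αI : ℂ := (n0 : ℂ) + s * (qI : ℂ) with hαI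
  set α0 : ℂ := (n1 : ℂ) + s * (q0 : ℂ) with hα0
  have hrel : αI + α0 + ∑ c ∈ T, s * (P.rootMultiplicity c : ℂ) = 0 := by
    have h1 : s * a = -(n : ℂ) := by rw [hs]; field_simp
    have h2 : (a : ℂ) = qI + q0 + ∑ c ∈ T, (P.rootMultiplicity c : ℂ) := by
      rw [← hsum]; push_cast; rfl
    rw [← Finset.mul_sum, hαI, hα0]
    rw [h2, hn] at h1
    push_cast at h1
    linear_combination h1
  have hαI0 : αI ≠ 0 := by
    rw [hαI, hs]
    rcases FI with h1 | h1
    · intro h2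
      apply h1.2
      have h3 : (n0 : ℂ) * a = n * qI := by
        field_simp at h2
        linear_combination h2
      have h4 : n0 * a = n * qI := by exact_mod_cast h3
      have h5 : n * Q.natDegree + n * qI = n0 * a + n1 * a := by
        rw [← Nat.mul_add, hqq, hn, Nat.add_mul]
      omega
    · rw [h1.2.1, h1.2.2]
      simp
  have hα00 : α0 ≠ 0 := by
    rw [hα0, hs]
    rcases F0 with h1 | h1
    · intro h2
      apply h1.2
      have h3 : (n1 : ℂ) * a = n * q0 := by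
        field_simp at h2
        linear_combination h2
      exact_mod_cast h3
    · rw [h1.1, h1.2.1]
      simp
  have hαc : ∀ c, c ≠ 0 → 1 + s * (P.rootMultiplicity c : ℂ) ≠ 0 := by
    intro c hc h2
    apply Fc2 c hc
    have h3 : (a : ℂ) = n * P.rootMultiplicity c := by
      rw [hs] at h2
      field_simp at h2
      linear_combination h2
    exact_mod_cast h3
  have hK3 : T.card ≤ 2 := by omega
  have hmem0 : ∀ c, c ∈ T ↔ c ≠ 0 ∧ P.rootMultiplicity c ≠ 0 := by
    intro c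
    constructor
    · exact hT0 c
    · rintro ⟨h1, h2⟩
      rw [hT, Finset.mem_filter, Finset.mem_erase]
      refine ⟨⟨h1, ?_⟩, h2⟩
      by_contra h3
      exact h2 (rootMultiplicity_eq_zero (hS c h3))
  refine ⟨hα00, hαI0, hαc, T, hmem0, hK3, ?_, ?_, hdeg, hrel⟩
  · intro h1
    rcases FI with h4 | h4
    · rcases F0 with h5 | h5
      · omega
      · right
        exact ⟨h5.1, h5.2.1⟩
    · left
      exact ⟨h4.2.2, h4.2.1⟩
  · intro h1
    rcases FI with h4 | h4
    · omega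
    · rcases F0 with h5 | h5
      · omega
      · exact ⟨⟨h4.2.2, h4.2.1⟩, h5.1, h5.2.1⟩

variable {ι : Type} [Fintype ι] [DecidableEq ι]

/-- **The structure of a critical exceptional curve.** -/
theorem crit_struct (f : ι → MP) (b : ℂ[X]) (hb : IsFunctionalEq f b) (g : ι → MP)
    (a0 n0 a1 n1 : ℕ) (hn0 : 1 ≤ n0) (hn1 : 1 ≤ n1) (hgeom : Geom f g a0 n0 a1 n1)
    (m : ℕ) (hm : 1 ≤ m) (gc : ℂ → ι → MP) (gI : ι → MP)
    (hgc : ∀ c j, MvPolynomial.aeval (chart c) (g j) = MvPolynomial.X 0 ^ m * gc c j)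
    (hgI : ∀ j, MvPolynomial.aeval chartI (g j) = MvPolynomial.X 1 ^ m * gI j)
    (j0 : ι) (hPj0 : res0 (gc 0 j0) ≠ 0)
    (hJ1 : (n0 - 1) * m ≤ a0 ∧ (n1 - 1) * m ≤ a1)
    (hJ2 : 0 < a0 → (n0 - 1) * a1 < a0 * n1) (hJ2' : 0 < a1 → (n1 - 1) * a0 < a1 * n0)
    (hz0 : a0 = 0 → n0 = 1) (hz1 : a1 = 0 → n1 = 1) (s0 : ℂ) (hs0 : b.eval s0 ≠ 0)
    (hA : ((n0 + n1 : ℕ) : ℂ) + ((a0 + a1 + m : ℕ) : ℂ) * s0 = 0) :
    (∀ j, ∃ lam : ℂ, res0 (gc 0 j) = C lam * res0 (gc 0 j0)) ∧
    (res0 (gc 0 j0)).natDegree ≤ m ∧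
    (n1 : ℂ) + s0 * ((a1 + (res0 (gc 0 j0)).rootMultiplicity 0 : ℕ) : ℂ) ≠ 0 ∧
    (n0 : ℂ) + s0 * ((a0 + (m - (res0 (gc 0 j0)).natDegree) : ℕ) : ℂ) ≠ 0 ∧
    (∀ c, c ≠ 0 → 1 + s0 * ((res0 (gc 0 j0)).rootMultiplicity c : ℂ) ≠ 0) ∧
      ∃ T : Finset ℂ, (∀ c, c ∈ T ↔ c ≠ 0 ∧ (res0 (gc 0 j0)).rootMultiplicity c ≠ 0) ∧
        T.card ≤ 2 ∧
        (T.card = 1 → (a0 + (m - (res0 (gc 0 j0)).natDegree) = 0 ∧ n0 = 1) ∨
          (a1 + (res0 (gc 0 j0)).rootMultiplicity 0 = 0 ∧ n1 = 1)) ∧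
        (T.card = 2 → (a0 + (m - (res0 (gc 0 j0)).natDegree) = 0 ∧ n0 = 1) ∧
          (a1 + (res0 (gc 0 j0)).rootMultiplicity 0 = 0 ∧ n1 = 1)) ∧
        (res0 (gc 0 j0)).rootMultiplicity 0 + ∑ c ∈ T, (res0 (gc 0 j0)).rootMultiplicity c =
          (res0 (gc 0 j0)).natDegree ∧
        ((n0 : ℂ) + s0 * ((a0 + (m - (res0 (gc 0 j0)).natDegree) : ℕ) : ℂ)) +
          ((n1 : ℂ) + s0 * ((a1 + (res0 (gc 0 j0)).rootMultiplicity 0 : ℕ) : ℂ)) +
          ∑ c ∈ T, s0 * ((res0 (gc 0 j0)).rootMultiplicity c : ℂ) = 0 := by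
  classical
  obtain ⟨ξ, W, W', hW, hW', hf, hJ⟩ := hgeom
  obtain ⟨hf0, hJ0⟩ := geom_chart_aux f g (gc 0) a0 n0 a1 n1 hn0 hn1 ξ W W' hf hJ m 0 (hgc 0)
  rw [map_zero, add_zero] at hJ0
  simp only [map_zero, add_zero] at hf0
  set ξ0 : Fin 2 → MP := fun i => MvPolynomial.aeval (chart 0) (ξ i) with hξ0
  set a := a0 + a1 + m with ha
  set n := n0 + n1 with hn
  have hapos : 0 < a := by omega
  have hac : (a : ℂ) ≠ 0 := Nat.cast_ne_zero.2 hapos.ne'
  have hs : s0 = -(n : ℂ) / a := by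
    rw [eq_div_iff hac]
    linear_combination hA
  set P : ι → ℂ[X] := fun j => res0 (gc 0 j) with hP
  have hPc : ∀ c j, res0 (gc c j) = (P j).comp (X + C c) := fun c j =>
    res0_chart (g j) (gc 0 j) (gc c j) m c (hgc 0 j) (hgc c j)
  change P j0 ≠ 0 at hPj0
  set S : Finset ℂ := insert 0 (P j0).roots.toFinset with hSdef
  have hPS : ∀ c ∉ S, (P j0).eval c ≠ 0 := by
    intro c hc h
    apply hc
    rw [hSdef, Finset.mem_insert, Multiset.mem_toFinset]
    exact Or.inr ((mem_roots hPj0).2 h)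
  set w := MvPolynomial.constantCoeff W with hw
  set w' := MvPolynomial.constantCoeff W' with hw'
  set G : ι → MP := fun j => MvPolynomial.X 1 ^ a1 * MvPolynomial.aeval (chart 0) W * gc 0 j
    with hG
  set Jp : MP := MvPolynomial.X 1 ^ (n1 - 1) * MvPolynomial.aeval (chart 0) W' with hJp
  have hresG : ∀ j, res0 (G j) = C w * (X ^ a1 * P j) := by
    intro j
    rw [hG]
    simp only
    rw [map_mul, map_mul, map_pow, res0_X1, res0_chart_const]
    ring
  have hresJ : res0 Jp = C w' * X ^ (n1 - 1) := by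
    rw [hJp, map_mul, map_pow, res0_X1, res0_chart_const]
    ring
  -- the leading forms are proportional
  have hprop : ∀ i, ∃ lam : ℂ, P i = C lam * P j0 := by
    intro i
    by_cases hWr : derivative (P i) * P j0 - P i * derivative (P j0) = 0
    · exact prop_of_wronskian (P i) (P j0) hPj0 hWr
    · exfalso
      have hne : X * (P j0 * (derivative (P i) * P j0 - P i * derivative (P j0))) ≠ 0 :=
        mul_ne_zero X_ne_zero (mul_ne_zero hPj0 hWr)
      obtain ⟨c, hc⟩ : ∃ c : ℂ,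
          (X * (P j0 * (derivative (P i) * P j0 - P i * derivative (P j0)))).eval c ≠ 0 := by
        by_contra hall
        push Not at hall
        exact hne (Polynomial.funext (fun x => by rw [hall x, eval_zero]))
      rw [eval_mul, eval_mul, eval_X] at hc
      have hc0 : c ≠ 0 := left_ne_zero_of_mul hc
      have hcP : (P j0).eval c ≠ 0 := left_ne_zero_of_mul (right_ne_zero_of_mul hc)
      have hcW : (derivative (P i) * P j0 - P i * derivative (P j0)).eval c ≠ 0 :=
        right_ne_zero_of_mul (right_ne_zero_of_mul hc)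
      apply hs0
      rw [hs]
      refine plane_rees f b hb ξ0 a n hapos (by omega) G hf0 Jp hJ0 c ?_ j0 i ?_ ?_
      · rw [← eval_res0, hresJ, eval_mul, eval_C, eval_pow, eval_X]
        exact mul_ne_zero hW' (pow_ne_zero _ hc0)
      · rw [← eval_res0, hresG, eval_mul, eval_C, eval_mul, eval_pow, eval_X]
        exact mul_ne_zero hW (mul_ne_zero (pow_ne_zero _ hc0) hcP)
      · rw [← eval_res0, map_sub, map_mul res0 (MvPolynomial.pderiv 1 (G i)) (G j0),
          map_mul res0 (G i) (MvPolynomial.pderiv 1 (G j0)), res0_pderiv, res0_pderiv, hresG,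
          hresG]
        have h1 : derivative (C w * (X ^ a1 * P i)) * (C w * (X ^ a1 * P j0))
            - C w * (X ^ a1 * P i) * derivative (C w * (X ^ a1 * P j0))
            = C w ^ 2 * (X ^ a1) ^ 2 *
              (derivative (P i) * P j0 - P i * derivative (P j0)) := by
          simp only [derivative_mul, derivative_C]
          ring
        rw [h1, eval_mul, eval_mul, eval_pow, eval_pow, eval_C, eval_pow, eval_X]
        exact mul_ne_zero (mul_ne_zero (pow_ne_zero _ hW) (pow_ne_zero _ (pow_ne_zero _ hc0))) hcW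
  choose lam hlam using hprop
  -- there is a rational solution
  have hsol : ∃ R : RatFunc ℂ, dR R + algebraMap ℂ (RatFunc ℂ) (-(n : ℂ) / a) *
      (dR (resM RatFunc.X (G j0)) * (resM RatFunc.X (G j0))⁻¹) * R = resM RatFunc.X Jp := by
    by_contra hno
    push Not at hno
    apply hs0
    rw [hs]
    refine tw_root dR RatFunc.X ?_ f b hb ξ0 a n hapos (by omega) G hf0 Jp hJ0 ?_ j0 ?_ hno
    · rw [← RatFunc.algebraMap_X, dR_algebraMap, derivative_X, map_one]
    · rw [resM_eq, hresJ]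
      exact am_ne (mul_ne_zero (C_ne_zero.2 hW') (pow_ne_zero _ X_ne_zero))
    · rw [resM_eq, hresG]
      exact am_ne (mul_ne_zero (C_ne_zero.2 hW) (mul_ne_zero (pow_ne_zero _ X_ne_zero) hPj0))
  obtain ⟨R, hR⟩ := hsol
  set Q : ℂ[X] := X ^ a1 * P j0 with hQ
  have hQ0 : Q ≠ 0 := mul_ne_zero (pow_ne_zero _ X_ne_zero) hPj0
  have hR' : dR R + algebraMap ℂ (RatFunc ℂ) (-(n : ℂ) / a) *
      (dR (algebraMap ℂ[X] (RatFunc ℂ) Q) * (algebraMap ℂ[X] (RatFunc ℂ) Q)⁻¹) * R
        = algebraMap ℂ[X] (RatFunc ℂ) (C w' * X ^ (n1 - 1)) := by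
    rw [resM_eq, resM_eq, hresG, hresJ] at hR
    rw [← hR]
    congr 3
    have h1 : algebraMap ℂ[X] (RatFunc ℂ) (C w * (X ^ a1 * P j0))
        = algebraMap ℂ (RatFunc ℂ) w * algebraMap ℂ[X] (RatFunc ℂ) Q := by
      rw [map_mul]; rfl
    rw [h1, Derivation.leibniz, Derivation.map_algebraMap, smul_zero, add_zero, smul_eq_mul]
    have hwne : algebraMap ℂ (RatFunc ℂ) w ≠ 0 := by
      rw [Ne, map_eq_zero]; exact hW
    have hQne := am_ne hQ0
    field_simp
  obtain ⟨A, hAne, hAeq⟩ := sol_poly Q hQ0 n a hapos w' hW' (n1 - 1) R hR'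
  have hdeg := coeff_resI (g j0) (gc 0 j0) (gI j0) m (hgc 0 j0) (hgI j0)
  have hbr := bracketT (P j0) hPj0 m a0 n0 a1 n1 hdeg.1 hm hn0 hn1 S (Finset.mem_insert_self _ _) hPS (by
      intro h
      by_cases ha1 : 0 < a1
      · have h1 := hJ2' ha1
        have h2 := hJ1.2
        have h3 : (n1 - 1) * a = (n1 - 1) * a0 + (n1 - 1) * a1 + (n1 - 1) * m := by
          rw [ha]; ring
        have h4 : (n1 - 1) * a1 + a1 = a1 * n1 := by
          have : n1 = (n1 - 1) + 1 := by omega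
          conv_rhs => rw [this]
          ring
        have h5 : n * (a1 + (P j0).rootMultiplicity 0)
            = a1 * n0 + a1 * n1 + n * (P j0).rootMultiplicity 0 := by
          rw [hn]; ring
        have h6 : 0 ≤ n * (P j0).rootMultiplicity 0 := Nat.zero_le _
        show (n1 - 1) * a < n * (a1 + (P j0).rootMultiplicity 0)
        omega
      · have h1 : a1 = 0 := by omega
        have h2 := hz1 h1
        rw [h2, Nat.sub_self, zero_mul]
        exact Nat.mul_pos (by omega) h) hz1 (by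
      intro h
      by_cases ha0 : 0 < a0
      · have h1 := hJ2 ha0
        have h2 := hJ1.1
        have h3 : (n0 - 1) * a = (n0 - 1) * a0 + (n0 - 1) * a1 + (n0 - 1) * m := by
          rw [ha]; ring
        have h4 : (n0 - 1) * a0 + a0 = a0 * n0 := by
          have : n0 = (n0 - 1) + 1 := by omega
          conv_rhs => rw [this]
          ring
        have h5 : n * (a0 + (m - (P j0).natDegree))
            = a0 * n0 + a0 * n1 + n * (m - (P j0).natDegree) := by
          rw [hn]; ring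
        have h6 : 0 ≤ n * (m - (P j0).natDegree) := Nat.zero_le _
        show (n0 - 1) * a < n * (a0 + (m - (P j0).natDegree))
        omega
      · have h1 : a0 = 0 := by omega
        have h2 := hz0 h1
        rw [h2, Nat.sub_self, zero_mul]
        exact Nat.mul_pos (by omega) h) hz0 w' hW' A hAne s0 hs (by rw [hs]; exact hAeq)
  exact ⟨fun j => ⟨lam j, hlam j⟩, hdeg.1, hbr⟩

/-- **The invariants of the children.** -/
theorem inv_children (f : ι → MP) (b : ℂ[X]) (hb : IsFunctionalEq f b) (s0 : ℂ)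
    (hs0 : b.eval s0 ≠ 0) {g : ι → MP} {a0 n0 a1 n1 : ℕ} (m : ℕ) (hm : 1 ≤ m)
    (gc : ℂ → ι → MP) (gI : ι → MP)
    (hgc : ∀ c j, MvPolynomial.aeval (chart c) (g j) = MvPolynomial.X 0 ^ m * gc c j)
    (hgI : ∀ j, MvPolynomial.aeval chartI (g j) = MvPolynomial.X 1 ^ m * gI j)
    (j0 : ι) (hP0 : res0 (gc 0 j0) ≠ 0) (inv : Inv f s0 g a0 n0 a1 n1) :
    Inv f s0 (gc 0) (a0 + a1 + m) (n0 + n1) a1 n1 ∧
    (∀ c, c ≠ 0 → Inv f s0 (gc c) (a0 + a1 + m) (n0 + n1) 0 1) ∧
    Inv f s0 gI a0 n0 (a0 + a1 + m) (n0 + n1) := by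
  classical
  have hn0 := inv.hn0
  have hn1 := inv.hn1
  have hmult : IsMult g m := ⟨⟨gc 0, hgc 0⟩, ⟨gI, hgI⟩⟩
  have hJ1 := inv.hJ1 m hmult
  -- a generator with nonzero leading form
  have hresc : ∀ c j, res0 (gc c j) = (res0 (gc 0 j)).comp (X + C c) := fun c j =>
    res0_chart (g j) (gc 0 j) (gc c j) m c (hgc 0 j) (hgc c j)
  set S : Finset ℂ := insert 0 (res0 (gc 0 j0)).roots.toFinset with hSdef
  have h0S : (0 : ℂ) ∈ S := Finset.mem_insert_self _ _
  have hS : ∀ c ∉ S, ∃ j, MvPolynomial.constantCoeff (gc c j) ≠ 0 := by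
    intro c hc
    refine ⟨j0, ?_⟩
    rw [← coeff_res0, hresc, coeff_zero_eq_eval_zero, eval_comp]
    simp only [eval_add, eval_X, eval_C, zero_add]
    intro h
    apply hc
    rw [hSdef, Finset.mem_insert, Multiset.mem_toFinset]
    exact Or.inr ((mem_roots hP0).2 h)
  have hdeg := coeff_resI (g j0) (gc 0 j0) (gI j0) m (hgc 0 j0) (hgI j0)
  have hPc : ∀ c, res0 (gc c j0) ≠ 0 ∧ (res0 (gc c j0)).natDegree ≤ m := by
    intro c
    have h1 : (X + C c : ℂ[X]).natDegree = 1 := natDegree_X_add_C c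
    constructor
    · intro h
      have h2 := ord_comp (res0 (gc 0 j0)) hP0 c
      rw [hresc] at h
      rw [h, coeff_zero] at h2
      exact h2.2 rfl
    · rw [hresc, natDegree_comp, h1, mul_one]
      exact hdeg.1
  have hPI : res1 (gI j0) ≠ 0 := by
    intro h
    have h2 := hdeg.2.2 (m - (res0 (gc 0 j0)).natDegree) (by omega)
    rw [h, coeff_zero] at h2
    have h3 : m - (m - (res0 (gc 0 j0)).natDegree) = (res0 (gc 0 j0)).natDegree := by
      have := hdeg.1
      omega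
    rw [h3] at h2
    exact hP0 (leadingCoeff_eq_zero.1 h2.symm)
  have hmc : ∀ c m', IsMult (gc c) m' → m' ≤ m := by
    intro c m' hm'
    obtain ⟨g', hg'⟩ := hm'.2
    exact le_of_dvd (hPc c).1 (hPc c).2 (res0_of_chartI (hg' j0))
  have hmI : ∀ m', IsMult gI m' → m' ≤ m := by
    intro m' hm'
    obtain ⟨g', hg'⟩ := hm'.1
    exact le_of_dvd hPI hdeg.2.1 (res1_of_chart0 (hg' j0))
  have hresI : ∀ j, res0 (g j) = X ^ m * res0 (gI j) := fun j => res0_of_chartI (hgI j)
  have hres0 : ∀ j, res1 (g j) = X ^ m * res1 (gc 0 j) := fun j => res1_of_chart0 (hgc 0 j)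
  -- the analysis of the new exceptional curve
  have han := fun hA => blow_analysis f b hb g a0 n0 a1 n1 hn0 hn1 inv.geom m hm gc gI hgc hgI S
    h0S hS hJ1 inv.hJ2 inv.hJ2' inv.hz0 inv.hz1 s0 hs0 hA
  have haz : a0 + a1 + m = 0 → n0 + n1 = 1 := by omega
  have inv0 : Inv f s0 (gc 0) (a0 + a1 + m) (n0 + n1) a1 n1 :=
    { geom := geom_chart0 f g (gc 0) a0 n0 a1 n1 hn0 hn1 inv.geom m (hgc 0)
      hn0 := by omega
      hn1 := hn1
      hz0 := haz
      hz1 := inv.hz1
      hJ1 := fun m' hm' => ⟨arith3 a0 n0 a1 n1 m m' hn0 hn1 (hmc 0 m' hm') hJ1.1 hJ1.2,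
        (Nat.mul_le_mul_left _ (hmc 0 m' hm')).trans hJ1.2⟩
      hJ2 := fun _ => arith1 a0 n0 a1 n1 m hn0 hn1 hm inv.hz0 inv.hJ2
      hJ2' := fun ha1 => arith2 a0 n0 a1 n1 m hn0 hn1 ha1 hJ1.2 inv.hJ2'
      hH0 := by
        intro hA μ' hμ'
        obtain ⟨μ, μI, hμ, hμI, h2, h3, h4, h5⟩ := han hA
        rwa [← (hμ 0).unique hμ']
      hH1 := by
        intro hA1 μ' hμ'
        have h2 := inv.hH1 hA1 (m + μ') (hμ'.shift hres0)
        intro h3
        apply h2
        push_cast at h3 ⊢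
        linear_combination h3 - hA1 }
  have invc : ∀ c, c ≠ 0 → Inv f s0 (gc c) (a0 + a1 + m) (n0 + n1) 0 1 := fun c hc0 =>
    { geom := geom_chart f g (gc c) a0 n0 a1 n1 hn0 hn1 inv.geom m c hc0 (hgc c)
      hn0 := by omega
      hn1 := le_rfl
      hz0 := haz
      hz1 := fun _ => rfl
      hJ1 := fun m' hm' => ⟨arith3 a0 n0 a1 n1 m m' hn0 hn1 (hmc c m' hm') hJ1.1 hJ1.2,
        by simp⟩
      hJ2 := fun h => by rw [mul_zero, mul_one]; exact h
      hJ2' := fun h => absurd h (lt_irrefl 0)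
      hH0 := by
        intro hA μ' hμ'
        obtain ⟨μ, μI, hμ, hμI, h2, h3, h4, h5⟩ := han hA
        have h6 := h4 c hc0
        rw [(hμ c).unique hμ'] at h6
        rw [zero_add]
        push_cast
        exact h6
      hH1 := by
        intro hA1
        simp at hA1 }
  have invI : Inv f s0 gI a0 n0 (a0 + a1 + m) (n0 + n1) :=
    { geom := geom_chartI f g gI a0 n0 a1 n1 hn0 hn1 inv.geom m hgI
      hn0 := hn0
      hn1 := by omega
      hz0 := inv.hz0
      hz1 := haz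
      hJ1 := fun m' hm' => ⟨(Nat.mul_le_mul_left _ (hmI m' hm')).trans hJ1.1,
        arith3 a0 n0 a1 n1 m m' hn0 hn1 (hmI m' hm') hJ1.1 hJ1.2⟩
      hJ2 := fun ha0 => by
        have := arith2 a1 n1 a0 n0 m hn1 hn0 ha0 hJ1.1 inv.hJ2
        rwa [add_comm a1 a0, add_comm n1 n0] at this
      hJ2' := fun _ => by
        have := arith1 a1 n1 a0 n0 m hn1 hn0 hm inv.hz1 inv.hJ2'
        rwa [add_comm a1 a0, add_comm n1 n0] at this
      hH0 := by
        intro hA0 μ' hμ'
        have h2 := inv.hH0 hA0 (m + μ') (hμ'.shift hresI)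
        intro h3
        apply h2
        push_cast at h3 ⊢
        linear_combination h3 - hA0
      hH1 := by
        intro hA μ' hμ'
        obtain ⟨μ, μI, hμ, hμI, h2, h3, h4, h5⟩ := han hA
        rwa [← hμI.unique hμ'] }
  exact ⟨inv0, invc, invI⟩

end Pool.Agent.Y230.PT
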