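import Pool.Agent.Y230.PT.MainC
import Pool.Agent.Y230.PT.Cx

set_option autoImplicit false
set_option linter.unusedSectionVars false
set_option linter.unusedVariables false

/-! # Passing to the complex numbers -/

namespace Pool.Agent.Y230.PT

open Pool.Agent.W574.SM Pool.Agent.Y230.RE

section Emb

open Cardinal

theorem card_padic_le (p : ℕ) [Fact p.Prime] : #ℚ_[p] ≤ 𝔠 := by
  have h1 : #ℚ_[p] ≤ #(CauSeq ℚ (padicNorm p)) := Cardinal.mk_le_of_surjective
    (f := fun x => (Quotient.mk _ x : ℚ_[p])) (by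
      intro x
      exact Quotient.exists_rep x)
  refine h1.trans ((Cardinal.mk_subtype_le _).trans ?_)
  have h2 : #(ℕ → ℚ) = 𝔠 := by
    rw [Cardinal.mk_arrow]
    simp
  exact h2.le

theorem exists_emb (p : ℕ) [Fact p.Prime] : Nonempty (ℚ_[p] →+* ℂ) := by
  have hge : 𝔠 ≤ #ℚ_[p] := continuum_le_cardinal_of_nontriviallyNormedField ℚ_[p]
  have h1 : #(AlgebraicClosure ℚ_[p]) ≤ 𝔠 := by
    refine (Algebra.IsAlgebraic.cardinalMk_le_max ℚ_[p] (AlgebraicClosure ℚ_[p])).trans ?_
    exact max_le (card_padic_le p) Cardinal.aleph0_le_continuum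
  have h2 : 𝔠 ≤ #(AlgebraicClosure ℚ_[p]) :=
    hge.trans (Cardinal.mk_le_of_injective (algebraMap ℚ_[p] (AlgebraicClosure ℚ_[p])).injective)
  have h3 : #(AlgebraicClosure ℚ_[p]) = #ℂ := by
    rw [le_antisymm h1 h2, Cardinal.mk_complex]
  obtain ⟨e⟩ := IsAlgClosed.ringEquiv_of_equiv_of_charZero (K := AlgebraicClosure ℚ_[p]) (L := ℂ)
    (by rw [le_antisymm h1 h2]; exact Cardinal.aleph0_lt_continuum) (Cardinal.eq.1 h3)
  exact ⟨e.toRingHom.comp (algebraMap ℚ_[p] (AlgebraicClosure ℚ_[p]))⟩

end Emb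

section MapC

variable {k : Type} [Field k] (φ : k →+* ℂ)

/-- extension of scalars -/
noncomputable def mp (g : A k) : MP := MvPolynomial.map φ g

theorem mp_X (i : Fin 2) : mp φ (MvPolynomial.X i) = MvPolynomial.X i := MvPolynomial.map_X φ i
theorem mp_C (c : k) : mp φ (MvPolynomial.C c) = MvPolynomial.C (φ c) := MvPolynomial.map_C φ c
theorem mp_mul (f g : A k) : mp φ (f * g) = mp φ f * mp φ g := map_mul (MvPolynomial.map φ) f g
theorem mp_add (f g : A k) : mp φ (f + g) = mp φ f + mp φ g := map_add (MvPolynomial.map φ) f g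
theorem mp_pow (f : A k) (n : ℕ) : mp φ (f ^ n) = mp φ f ^ n := map_pow (MvPolynomial.map φ) f n

theorem mp_aeval (χ : Fin 2 → A k) (g : A k) :
    mp φ (MvPolynomial.aeval χ g) = MvPolynomial.aeval (fun i => mp φ (χ i)) (mp φ g) := by
  have h : (MvPolynomial.map φ).comp (MvPolynomial.aeval χ : A k →ₐ[k] A k).toRingHom =
      (MvPolynomial.aeval (fun i => mp φ (χ i)) : MP →ₐ[ℂ] MP).toRingHom.comp
        (MvPolynomial.map φ) := by
    refine MvPolynomial.ringHom_ext (fun c => ?_) fun i => ?_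
    · simp
    · simp [mp]
  exact congrArg (fun ψ : A k →+* MP => ψ g) h

theorem mp_ch (c : k) (g : A k) : mp φ (MvPolynomial.aeval (ch c) g) =
    MvPolynomial.aeval (chart (φ c)) (mp φ g) := by
  rw [mp_aeval]
  congr 2
  funext i
  fin_cases i
  · exact mp_X φ 0
  · change mp φ (MvPolynomial.X 0 * (MvPolynomial.X 1 + MvPolynomial.C c)) =
      MvPolynomial.X 0 * (MvPolynomial.X 1 + MvPolynomial.C (φ c))
    rw [mp_mul, mp_add, mp_X, mp_X, mp_C]

theorem mp_chI (g : A k) : mp φ (MvPolynomial.aeval chI g) =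
    MvPolynomial.aeval chartI (mp φ g) := by
  rw [mp_aeval]
  congr 2
  funext i
  fin_cases i
  · change mp φ (MvPolynomial.X 0 * MvPolynomial.X 1) = MvPolynomial.X 0 * MvPolynomial.X 1
    rw [mp_mul, mp_X, mp_X]
  · exact mp_X φ 1

theorem mp_r0 (g : A k) : (r0 g).map φ = res0 (mp φ g) := by
  have h : (Polynomial.mapRingHom φ).comp (r0 (k := k)).toRingHom =
      res0.toRingHom.comp (MvPolynomial.map φ) := by
    refine MvPolynomial.ringHom_ext (fun c => ?_) fun i => ?_
    · simp [r0, res0]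
    · fin_cases i <;> simp [r0, res0]
  exact congrArg (fun ψ : A k →+* Polynomial ℂ => ψ g) h

theorem mp_r1 (g : A k) : (r1 g).map φ = res1 (mp φ g) := by
  have h : (Polynomial.mapRingHom φ).comp (r1 (k := k)).toRingHom =
      res1.toRingHom.comp (MvPolynomial.map φ) := by
    refine MvPolynomial.ringHom_ext (fun c => ?_) fun i => ?_
    · simp [r1, res1]
    · fin_cases i <;> simp [r1, res1]
  exact congrArg (fun ψ : A k →+* Polynomial ℂ => ψ g) h

theorem mp_cc (g : A k) : MvPolynomial.constantCoeff (mp φ g) =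
    φ (MvPolynomial.constantCoeff g) := MvPolynomial.constantCoeff_map φ g

theorem mp_pderiv (i : Fin 2) (g : A k) : MvPolynomial.pderiv i (mp φ g) =
    mp φ (MvPolynomial.pderiv i g) := MvPolynomial.pderiv_map

theorem mp_tr (P : Fin 2 → k) (g : A k) :
    mp φ (MvPolynomial.aeval (fun i => MvPolynomial.X i + MvPolynomial.C (P i)) g) =
      W574.SM.translate (fun i => φ (P i)) (mp φ g) := by
  rw [mp_aeval, W574.SM.translate]
  congr 2
  funext i
  rw [mp_add, mp_X, mp_C]

end MapC

section Rational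

open Polynomial

variable {k : Type} [Field k] [CharZero k] (φ : k →+* ℂ)

theorem irr_root_mult (q : k[X]) (hq : Irreducible q) (c c' : ℂ) (hc : (q.map φ).IsRoot c)
    (hc' : (q.map φ).IsRoot c') : ∀ (d : ℕ) (P : k[X]), P ≠ 0 → P.natDegree ≤ d →
      (P.map φ).rootMultiplicity c = (P.map φ).rootMultiplicity c' := by
  have hq0 : q.map φ ≠ 0 := by
    rw [Ne, Polynomial.map_eq_zero]
    exact hq.ne_zero
  have hsep : (q.map φ).Separable := hq.separable.map
  have hm : ∀ x : ℂ, (q.map φ).IsRoot x → (q.map φ).rootMultiplicity x = 1 := by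
    intro x hx
    have h1 := rootMultiplicity_le_one_of_separable hsep x
    have h2 := (rootMultiplicity_pos hq0).2 hx
    omega
  -- a polynomial vanishing at a root of `q` is divisible by `q`
  have hdvd : ∀ (P : k[X]) (x : ℂ), (q.map φ).IsRoot x → (P.map φ).IsRoot x → q ∣ P := by
    intro P x h1 h2
    by_contra h3
    have h4 : IsCoprime q P := (hq.coprime_iff_not_dvd).2 h3
    obtain ⟨u, v, huv⟩ := h4
    have h5 := congrArg (fun P : k[X] => (P.map φ).eval x) huv
    simp only [Polynomial.map_add, Polynomial.map_mul, eval_add, eval_mul, Polynomial.map_one,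
      eval_one] at h5
    rw [h1, h2, mul_zero, mul_zero, add_zero] at h5
    exact zero_ne_one h5
  intro d
  induction d with
  | zero =>
    intro P hP hd
    obtain ⟨a, rfl⟩ := natDegree_eq_zero.1 (Nat.le_zero.1 hd)
    rw [Polynomial.map_C, rootMultiplicity_C, rootMultiplicity_C]
  | succ d ih =>
    intro P hP hd
    have hPm : P.map φ ≠ 0 := by rwa [Ne, Polynomial.map_eq_zero]
    by_cases h : (P.map φ).IsRoot c
    · obtain ⟨P1, rfl⟩ := hdvd P c hc h
      have hP1 : P1 ≠ 0 := right_ne_zero_of_mul hP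
      have hdeg : P1.natDegree ≤ d := by
        rw [natDegree_mul hq.ne_zero hP1] at hd
        have : 1 ≤ q.natDegree := by
          by_contra h2
          have h3 : q.natDegree = 0 := by omega
          obtain ⟨a, rfl⟩ := natDegree_eq_zero.1 h3
          exact hq.not_isUnit (isUnit_C.2 (isUnit_iff_ne_zero.2 (by
            rintro rfl
            exact hq.ne_zero (by simp))))
        omega
      rw [Polynomial.map_mul] at hPm ⊢
      rw [rootMultiplicity_mul hPm, rootMultiplicity_mul hPm, hm c hc, hm c' hc', ih P1 hP1 hdeg]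
    · have h' : ¬ (P.map φ).IsRoot c' := by
        intro h'
        obtain ⟨P1, rfl⟩ := hdvd P c' hc' h'
        apply h
        rw [Polynomial.map_mul, IsRoot, eval_mul, hc, zero_mul]
      rw [rootMultiplicity_eq_zero h, rootMultiplicity_eq_zero h']

/-- a root which is not rational has a conjugate -/
theorem exists_conj (P : k[X]) (hP : P ≠ 0) (c : ℂ) (hc : (P.map φ).IsRoot c)
    (hK : ∀ x : k, φ x ≠ c) : ∃ c' : ℂ, c' ≠ c ∧ c' ≠ 0 ∧
      (P.map φ).rootMultiplicity c' = (P.map φ).rootMultiplicity c := by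
  letI := φ.toAlgebra
  have hmap : ∀ Q : k[X], Q.map φ = Q.map (algebraMap k ℂ) := fun _ => rfl
  have hint : IsIntegral k c := by
    rw [← isAlgebraic_iff_isIntegral]
    refine ⟨P, hP, ?_⟩
    rw [aeval_def, eval₂_eq_eval_map]
    exact hc
  set q := minpoly k c with hq
  have hirr : Irreducible q := minpoly.irreducible hint
  have hqc : (q.map φ).IsRoot c := by
    have := minpoly.aeval k c
    rwa [aeval_def, eval₂_eq_eval_map] at this
  have hdeg : q.natDegree ≠ 1 := by
    intro h
    have h1 : (minpoly k c).degree = 1 := by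
      rw [degree_eq_natDegree hirr.ne_zero, h]
      rfl
    obtain ⟨x, hx⟩ := minpoly.mem_range_of_degree_eq_one k c h1
    exact hK x hx
  have hpos : 0 < q.natDegree := minpoly.natDegree_pos hint
  have hcard : Multiset.card (q.map φ).roots = q.natDegree := by
    rw [← (IsAlgClosed.splits (q.map φ)).natDegree_eq_card_roots, natDegree_map]
  have hnd : (q.map φ).roots.Nodup := nodup_roots hirr.separable.map
  have hq0 : q.map φ ≠ 0 := by
    rw [Ne, Polynomial.map_eq_zero]
    exact hirr.ne_zero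
  have hcm : c ∈ (q.map φ).roots := (mem_roots hq0).2 hqc
  obtain ⟨c', hc'⟩ : ∃ c', c' ∈ (q.map φ).roots.erase c := by
    apply Multiset.card_pos_iff_exists_mem.1
    rw [Multiset.card_erase_of_mem hcm, hcard]
    have : 2 ≤ q.natDegree := by omega
    exact Nat.pred_lt_pred (by omega) (by omega : 1 < q.natDegree) |>.trans_eq' rfl
  have hcc : c' ≠ c := by
    rintro rfl
    exact hnd.notMem_erase hc'
  have hr : (q.map φ).IsRoot c' := (mem_roots hq0).1 (Multiset.mem_of_mem_erase hc')
  refine ⟨c', hcc, ?_, (irr_root_mult φ q hirr c' c hr hqc P.natDegree P hP le_rfl)⟩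
  rintro rfl
  have h0 : q.eval 0 = 0 := by
    have h1 : (q.map φ).eval (φ 0) = φ (q.eval 0) := eval_map_apply φ 0
    rw [map_zero] at h1
    rw [IsRoot, h1] at hr
    exact (map_eq_zero φ).1 hr
  have h2 : (X - C (0 : k)) ∣ q := dvd_iff_isRoot.2 h0
  have h3 := (irreducible_X_sub_C (0 : k)).dvd_symm hirr h2
  have h4 := natDegree_le_of_dvd h3 (X_sub_C_ne_zero (0 : k))
  rw [natDegree_X_sub_C] at h4
  omega

end Rational

end Pool.Agent.Y230.PT
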