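import Pool.Agent.W427.SMC.Pa7

set_option autoImplicit false
set_option linter.unusedSectionVars false

/-! # The Haar measure of `ℚ_p` -/

namespace Pool.Agent.Y230.PT

open MeasureTheory Set Pool.Agent.W427.SMC
open scoped ENNReal

variable (p : ℕ) [Fact p.Prime]

/-- The Borel `σ`-algebra on `ℚ_[p]`. -/
@[reducible] noncomputable def msK : MeasurableSpace ℚ_[p] := borel _

attribute [local instance] msK

lemma bsK : BorelSpace ℚ_[p] := ⟨rfl⟩

attribute [local instance] bsK msZ bsZ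

/-- the unit ball as a compact set -/
noncomputable def K0 : TopologicalSpace.PositiveCompacts ℚ_[p] :=
  ⟨⟨Metric.closedBall 0 1, isCompact_closedBall 0 1⟩, by
    rw [(IsUltrametricDist.isOpen_closedBall (0 : ℚ_[p]) one_ne_zero).interior_eq]
    exact ⟨0, by simp⟩⟩

/-- The Haar measure on `ℚ_[p]`. -/
noncomputable def nu : Measure ℚ_[p] := Measure.addHaarMeasure (K0 p)

instance : (nu p).IsAddLeftInvariant := by unfold nu; infer_instance

instance : (nu p).IsAddHaarMeasure := by unfold nu; infer_instance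

instance : SecondCountableTopology ℚ_[p] := inferInstance

instance : SigmaFinite (nu p) := by unfold nu; infer_instance

lemma nu_unit : nu p (Metric.closedBall 0 1) = 1 := Measure.addHaarMeasure_self

/-- the inclusion -/
noncomputable def inc (z : ℤ_[p]) : ℚ_[p] := (z : ℚ_[p])

lemma inc_range : Set.range (inc p) = Metric.closedBall 0 1 := by
  ext x
  constructor
  · rintro ⟨z, rfl⟩
    rw [Metric.mem_closedBall, dist_zero_right]
    exact z.2
  · intro hx
    rw [Metric.mem_closedBall, dist_zero_right] at hx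
    exact ⟨⟨x, hx⟩, rfl⟩

lemma inc_emb : Topology.IsClosedEmbedding (inc p) := by
  have h1 : Topology.IsClosedEmbedding ((↑) : (Metric.closedBall (0 : ℚ_[p]) 1) → ℚ_[p]) :=
    Metric.isClosed_closedBall.isClosedEmbedding_subtypeVal
  refine ⟨⟨⟨?_⟩, ?_⟩, ?_⟩
  · rfl
  · exact Subtype.val_injective
  · rw [inc_range]
    exact Metric.isClosed_closedBall

lemma inc_meas : MeasurableEmbedding (inc p) := (inc_emb p).measurableEmbedding

lemma comap_eq : Measure.comap (inc p) (nu p) = mu p := by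
  have hpr : IsProbabilityMeasure (Measure.comap (inc p) (nu p)) := by
    refine ⟨?_⟩
    rw [(inc_meas p).comap_apply, Set.image_univ, inc_range, nu_unit]
  have hinv : (Measure.comap (inc p) (nu p)).IsAddLeftInvariant := by
    refine ⟨fun t => ?_⟩
    ext S hS
    rw [Measure.map_apply (measurable_const_add t) hS, (inc_meas p).comap_apply,
      (inc_meas p).comap_apply]
    have h1 : inc p '' ((fun x => t + x) ⁻¹' S) = (fun x => inc p t + x) ⁻¹' (inc p '' S) := by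
      ext x
      constructor
      · rintro ⟨z, hz, rfl⟩
        exact ⟨t + z, hz, by simp [inc]⟩
      · rintro ⟨z, hz, hzx⟩
        refine ⟨z - t, ?_, ?_⟩
        · rw [Set.mem_preimage]
          simpa using hz
        · have h2 : (inc p z) = inc p t + x := hzx
          have h3 : inc p (z - t) = inc p z - inc p t := by simp [inc]
          rw [h3, h2]
          ring
    rw [h1, measure_preimage_add]
  exact mu_unique p _

/-- integrals over the unit ball -/
theorem lintegral_unit (G : ℚ_[p] → ℝ≥0∞) :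
    ∫⁻ x in Metric.closedBall 0 1, G x ∂(nu p) = ∫⁻ z, G (inc p z) ∂(mu p) := by
  rw [← comap_eq, ← (inc_meas p).lintegral_map, (inc_meas p).map_comap, inc_range]

/-- `‖x‖` as an extended number, to the power `s` -/
noncomputable def N (s : ℝ) (x : ℚ_[p]) : ℝ≥0∞ := ENNReal.ofReal (‖x‖ ^ s)

variable {p}

lemma N_mul (s : ℝ) (x y : ℚ_[p]) : N p s (x * y) = N p s x * N p s y := by
  unfold N
  rw [norm_mul, Real.mul_rpow (norm_nonneg _) (norm_nonneg _), ENNReal.ofReal_mul]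
  exact Real.rpow_nonneg (norm_nonneg _) _

lemma N_one (s : ℝ) : N p s 1 = 1 := by
  unfold N
  rw [norm_one, Real.one_rpow, ENNReal.ofReal_one]

lemma N_pow (s : ℝ) (x : ℚ_[p]) (n : ℕ) : N p s (x ^ n) = N p s x ^ n := by
  induction n with
  | zero => simp [N_one]
  | succ n ih => rw [pow_succ, pow_succ, N_mul, ih]

lemma N_norm (s : ℝ) {x y : ℚ_[p]} (h : ‖x‖ = ‖y‖) : N p s x = N p s y := by
  unfold N; rw [h]

lemma N_ne_top (s : ℝ) (x : ℚ_[p]) : N p s x ≠ ⊤ := ENNReal.ofReal_ne_top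

lemma N_ne_zero (s : ℝ) {x : ℚ_[p]} (hx : x ≠ 0) : N p s x ≠ 0 := by
  unfold N
  rw [Ne, ENNReal.ofReal_eq_zero, not_le]
  exact Real.rpow_pos_of_pos (norm_pos_iff.2 hx) _

lemma N_meas (s : ℝ) : Measurable (N p s) := by
  unfold N
  exact ENNReal.measurable_ofReal.comp (continuous_norm.measurable.pow_const s)

lemma N_mono {s : ℝ} (hs : 0 ≤ s) {x y : ℚ_[p]} (h : ‖x‖ ≤ ‖y‖) : N p s x ≤ N p s y :=
  ENNReal.ofReal_le_ofReal (Real.rpow_le_rpow (norm_nonneg _) h hs)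

lemma N_inc (s : ℝ) (z : ℤ_[p]) : N p s (inc p z) = tau p s z := rfl

lemma N_p (s : ℝ) : N p s (p : ℚ_[p]) = Tt p s := by
  unfold N Tt
  rw [Padic.norm_p, Real.inv_rpow (Nat.cast_nonneg _), Real.rpow_neg (Nat.cast_nonneg _)]

lemma N1_p : N p 1 (p : ℚ_[p]) = (p : ℝ≥0∞)⁻¹ := by
  unfold N
  rw [Padic.norm_p, Real.rpow_one, ENNReal.ofReal_inv_of_pos (by exact_mod_cast
    (Fact.out : p.Prime).pos), ENNReal.ofReal_natCast]

variable (p)

lemma ball_pow (k : ℕ) : Metric.closedBall (0 : ℚ_[p]) ((p : ℝ)⁻¹ ^ k) =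
    (fun x => (p : ℚ_[p]) ^ k * x) '' Metric.closedBall 0 1 := by
  have hp : (p : ℚ_[p]) ≠ 0 := by exact_mod_cast (Fact.out : p.Prime).ne_zero
  have hp' : (0 : ℝ) < p := by exact_mod_cast (Fact.out : p.Prime).pos
  ext x
  simp only [Metric.mem_closedBall, dist_zero_right, Set.mem_image]
  constructor
  · intro hx
    refine ⟨((p : ℚ_[p]) ^ k)⁻¹ * x, ?_, ?_⟩
    · rw [norm_mul, norm_inv, norm_pow, Padic.norm_p]
      have h1 : (0 : ℝ) < ((p : ℝ)⁻¹) ^ k := by positivity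
      rw [inv_mul_le_iff₀ h1, mul_one]
      exact hx
    · rw [← mul_assoc, mul_inv_cancel₀ (pow_ne_zero _ hp), one_mul]
  · rintro ⟨y, hy, rfl⟩
    rw [norm_mul, norm_pow, Padic.norm_p]
    have h1 : (0 : ℝ) < ((p : ℝ)⁻¹) ^ k := by positivity
    exact mul_le_of_le_one_right h1.le hy

lemma nu_ball0 (k : ℕ) : nu p (Metric.closedBall 0 ((p : ℝ)⁻¹ ^ k)) = ((p : ℝ≥0∞)⁻¹) ^ k := by
  have hp1 : (p : ℝ)⁻¹ ≤ 1 := inv_le_one_of_one_le₀ (by
    exact_mod_cast (Fact.out : p.Prime).one_lt.le)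
  have hp0 : (0 : ℝ) ≤ (p : ℝ)⁻¹ := by positivity
  have hsub : Metric.closedBall (0 : ℚ_[p]) ((p : ℝ)⁻¹ ^ k) ⊆ Metric.closedBall 0 1 :=
    Metric.closedBall_subset_closedBall (pow_le_one₀ hp0 hp1)
  have h1 : nu p (Metric.closedBall 0 ((p : ℝ)⁻¹ ^ k)) =
      ∫⁻ x in Metric.closedBall 0 1, (Metric.closedBall 0 ((p : ℝ)⁻¹ ^ k)).indicator 1 x ∂(nu p) := by
    rw [← lintegral_indicator_one Metric.isClosed_closedBall.measurableSet]
    rw [← lintegral_indicator Metric.isClosed_closedBall.measurableSet]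
    refine lintegral_congr fun x => ?_
    by_cases hx : x ∈ Metric.closedBall (0 : ℚ_[p]) 1
    · rw [Set.indicator_of_mem hx]
    · rw [Set.indicator_of_notMem hx, Set.indicator_of_notMem (fun h => hx (hsub h))]
  rw [h1, lintegral_unit]
  have hmeas : Measurable (fun z : ℤ_[p] =>
      (Metric.closedBall (0 : ℚ_[p]) ((p : ℝ)⁻¹ ^ k)).indicator (1 : ℚ_[p] → ℝ≥0∞) (inc p z)) :=
    (measurable_one.indicator Metric.isClosed_closedBall.measurableSet).comp (inc_meas p).measurable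
  rw [lintegral_sm p k _ hmeas, sm]
  have hz : NeZero (p ^ k) := ⟨pow_ne_zero _ (Fact.out : p.Prime).ne_zero⟩
  rw [Finset.sum_eq_single (0 : ZMod (p ^ k))]
  · have h2 : ∀ z : ℤ_[p], (Metric.closedBall (0 : ℚ_[p]) ((p : ℝ)⁻¹ ^ k)).indicator
        (1 : ℚ_[p] → ℝ≥0∞) (inc p (((0 : ZMod (p ^ k)).val : ℤ_[p]) + (p : ℤ_[p]) ^ k * z)) = 1 := by
      intro z
      rw [Set.indicator_of_mem, Pi.one_apply]
      rw [Metric.mem_closedBall, dist_zero_right, ZMod.val_zero, Nat.cast_zero, zero_add]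
      change ‖(p : ℤ_[p]) ^ k * z‖ ≤ _
      rw [norm_mul, PadicInt.norm_p_pow, zpow_neg, zpow_natCast, inv_pow]
      exact mul_le_of_le_one_right (by positivity) (PadicInt.norm_le_one z)
    simp only [h2, lintegral_const, measure_univ, mul_one]
  · intro w _ hw
    have h2 : ∀ z : ℤ_[p], (Metric.closedBall (0 : ℚ_[p]) ((p : ℝ)⁻¹ ^ k)).indicator
        (1 : ℚ_[p] → ℝ≥0∞) (inc p ((w.val : ℤ_[p]) + (p : ℤ_[p]) ^ k * z)) = 0 := by
      intro z
      rw [Set.indicator_of_notMem]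
      rw [Metric.mem_closedBall, dist_zero_right]
      intro h3
      have h4 : (p : ℤ_[p]) ^ k ∣ (w.val : ℤ_[p]) + (p : ℤ_[p]) ^ k * z := by
        rw [dvd_iff_norm, PadicInt.norm_p_pow, zpow_neg, zpow_natCast, ← inv_pow]
        exact h3
      rw [dvd_add_left (dvd_mul_right _ _)] at h4
      apply hw
      have h5 : (PadicInt.toZModPow k : ℤ_[p] →+* ZMod (p ^ k)) (w.val : ℤ_[p]) = 0 := by
        rw [← RingHom.mem_ker, PadicInt.ker_toZModPow, Ideal.mem_span_singleton]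
        exact h4
      rw [map_natCast, ZMod.natCast_zmod_val] at h5
      exact h5
    simp only [h2, lintegral_zero, mul_zero]
  · intro h; exact absurd (Finset.mem_univ _) h

lemma nu_ball (a : ℚ_[p]) (k : ℕ) :
    nu p (Metric.closedBall a ((p : ℝ)⁻¹ ^ k)) = ((p : ℝ≥0∞)⁻¹) ^ k := by
  rw [← nu_ball0 p k, ← measure_preimage_add (nu p) a]
  congr 1
  ext x
  simp [Metric.mem_closedBall, dist_eq_norm]

/-- multiplication by a nonzero number -/
noncomputable def mulE (a : ℚ_[p]) (ha : a ≠ 0) : ℚ_[p] ≃ᵐ ℚ_[p] :=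
  (Homeomorph.mulLeft₀ a ha).toMeasurableEquiv

theorem map_smul_eq (a : ℚ_[p]) (ha : a ≠ 0) :
    Measure.map (mulE p a ha) (nu p) = (Measure.map (mulE p a ha) (nu p)) (K0 p) • nu p := by
  have h1 : (Measure.map (mulE p a ha) (nu p)).IsAddHaarMeasure := by
    have h2 := AddEquiv.isAddHaarMeasure_map (nu p)
      (AddEquiv.mk' (Equiv.mulLeft₀ a ha) (fun x y => by simp [mul_add]))
      (by exact (Homeomorph.mulLeft₀ a ha).continuous)
      (by exact (Homeomorph.mulLeft₀ a ha).symm.continuous)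
    exact h2
  exact Measure.addHaarMeasure_unique _ (K0 p)

/-- the scaling factor -/
noncomputable def sc (a : ℚ_[p]) (ha : a ≠ 0) : ℝ≥0∞ := (Measure.map (mulE p a ha) (nu p)) (K0 p)

theorem lintegral_sc (a : ℚ_[p]) (ha : a ≠ 0) (G : ℚ_[p] → ℝ≥0∞) :
    ∫⁻ x, G (a * x) ∂(nu p) = sc p a ha * ∫⁻ x, G x ∂(nu p) := by
  have h1 := lintegral_map_equiv (μ := nu p) G (mulE p a ha)
  rw [map_smul_eq, lintegral_smul_measure] at h1
  exact h1.symm

theorem sc_eq (a : ℚ_[p]) (ha : a ≠ 0) : sc p a ha = (N p 1 a)⁻¹ := by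
  have hp : (p : ℚ_[p]) ≠ 0 := by exact_mod_cast (Fact.out : p.Prime).ne_zero
  have hp' : (0 : ℝ) < p := by exact_mod_cast (Fact.out : p.Prime).pos
  -- multiplicativity
  have hmul : ∀ (b c : ℚ_[p]) (hb : b ≠ 0) (hc : c ≠ 0), sc p (b * c) (mul_ne_zero hb hc) =
      sc p b hb * sc p c hc := by
    intro b c hb hc
    have h1 := lintegral_sc p (b * c) (mul_ne_zero hb hc) ((Metric.closedBall 0 1).indicator 1)
    have h2 := lintegral_sc p c hc (fun x => (Metric.closedBall (0 : ℚ_[p]) 1).indicator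
      (1 : ℚ_[p] → ℝ≥0∞) (b * x))
    have h3 := lintegral_sc p b hb ((Metric.closedBall 0 1).indicator 1)
    rw [h3] at h2
    have h4 : ∫⁻ x, (Metric.closedBall (0 : ℚ_[p]) 1).indicator (1 : ℚ_[p] → ℝ≥0∞) x ∂(nu p) = 1 := by
      rw [lintegral_indicator_one Metric.isClosed_closedBall.measurableSet, nu_unit]
    rw [h4, mul_one] at h1 h2
    rw [← h1]
    simp only [mul_assoc]
    rw [h2, mul_comm]
  -- units
  have hunit : ∀ (u : ℚ_[p]) (hu : u ≠ 0), ‖u‖ = 1 → sc p u hu = 1 := by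
    intro u hu h
    have h1 := lintegral_sc p u hu ((Metric.closedBall 0 1).indicator 1)
    have h4 : ∫⁻ x, (Metric.closedBall (0 : ℚ_[p]) 1).indicator (1 : ℚ_[p] → ℝ≥0∞) x ∂(nu p) = 1 := by
      rw [lintegral_indicator_one Metric.isClosed_closedBall.measurableSet, nu_unit]
    have h5 : ∀ x, (Metric.closedBall (0 : ℚ_[p]) 1).indicator (1 : ℚ_[p] → ℝ≥0∞) (u * x) =
        (Metric.closedBall (0 : ℚ_[p]) 1).indicator (1 : ℚ_[p] → ℝ≥0∞) x := by
      intro x
      have h6 : u * x ∈ Metric.closedBall (0 : ℚ_[p]) 1 ↔ x ∈ Metric.closedBall (0 : ℚ_[p]) 1 := by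
        rw [Metric.mem_closedBall, Metric.mem_closedBall, dist_zero_right, dist_zero_right,
          norm_mul, h, one_mul]
      by_cases h7 : x ∈ Metric.closedBall (0 : ℚ_[p]) 1
      · rw [Set.indicator_of_mem h7, Set.indicator_of_mem (h6.2 h7)]; rfl
      · rw [Set.indicator_of_notMem h7, Set.indicator_of_notMem (fun h8 => h7 (h6.1 h8))]
    simp only [h5, h4, mul_one] at h1
    exact h1.symm
  -- the prime
  have hprime : sc p (p : ℚ_[p]) hp = p := by
    have h1 := lintegral_sc p (p : ℚ_[p]) hp ((Metric.closedBall 0 ((p : ℝ)⁻¹ ^ 1)).indicator 1)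
    have h5 : ∀ x, (Metric.closedBall (0 : ℚ_[p]) ((p : ℝ)⁻¹ ^ 1)).indicator
        (1 : ℚ_[p] → ℝ≥0∞) ((p : ℚ_[p]) * x) =
        (Metric.closedBall (0 : ℚ_[p]) 1).indicator (1 : ℚ_[p] → ℝ≥0∞) x := by
      intro x
      have h6 : ‖(p : ℚ_[p])‖ * ‖x‖ ≤ (p : ℝ)⁻¹ ↔ ‖x‖ ≤ 1 := by
        rw [Padic.norm_p, mul_le_iff_le_one_right (by positivity)]
      have h8 : (p : ℚ_[p]) * x ∈ Metric.closedBall (0 : ℚ_[p]) ((p : ℝ)⁻¹ ^ 1) ↔
          x ∈ Metric.closedBall (0 : ℚ_[p]) 1 := by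
        rw [Metric.mem_closedBall, Metric.mem_closedBall, dist_zero_right, dist_zero_right,
          norm_mul, pow_one]
        exact h6
      by_cases h7 : x ∈ Metric.closedBall (0 : ℚ_[p]) 1
      · rw [Set.indicator_of_mem h7, Set.indicator_of_mem (h8.2 h7)]; rfl
      · rw [Set.indicator_of_notMem h7, Set.indicator_of_notMem (fun h9 => h7 (h8.1 h9))]
    simp only [h5] at h1
    rw [lintegral_indicator_one Metric.isClosed_closedBall.measurableSet, nu_unit,
      lintegral_indicator_one Metric.isClosed_closedBall.measurableSet, nu_ball0, pow_one] at h1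
    rw [← div_eq_mul_inv] at h1
    have h7 := (ENNReal.eq_div_iff (by exact_mod_cast (Fact.out : p.Prime).ne_zero)
      (ENNReal.natCast_ne_top p)).1 h1
    rw [mul_one] at h7
    exact h7.symm
  have hpow : ∀ (n : ℕ), sc p ((p : ℚ_[p]) ^ n) (pow_ne_zero _ hp) = (p : ℝ≥0∞) ^ n := by
    intro n
    induction n with
    | zero =>
      have := hunit ((p : ℚ_[p]) ^ 0) (pow_ne_zero _ hp) (by simp)
      simpa using this
    | succ n ih =>
      have := hmul ((p : ℚ_[p]) ^ n) p (pow_ne_zero _ hp) hp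
      simp only [← pow_succ] at this
      rw [this, ih, hprime, pow_succ]
  obtain ⟨n, hna⟩ : ∃ n : ℤ, ‖a‖ = (p : ℝ) ^ (-n) :=
    ⟨a.valuation, Padic.norm_eq_zpow_neg_valuation ha⟩
  have hNa : (N p 1 a) = ENNReal.ofReal ‖a‖ := by unfold N; rw [Real.rpow_one]
  rcases le_total 0 n with h | h
  · obtain ⟨k, rfl⟩ := Int.eq_ofNat_of_zero_le h
    set u := a * ((p : ℚ_[p]) ^ k)⁻¹ with hu
    have hu0 : u ≠ 0 := mul_ne_zero ha (inv_ne_zero (pow_ne_zero _ hp))
    have hun : ‖u‖ = 1 := by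
      rw [hu, norm_mul, norm_inv, norm_pow, Padic.norm_p, hna, zpow_neg, zpow_natCast, inv_pow,
        inv_inv, inv_mul_cancel₀ (pow_ne_zero _ hp'.ne')]
    have ha' : a = u * (p : ℚ_[p]) ^ k := by
      rw [hu, mul_assoc, inv_mul_cancel₀ (pow_ne_zero _ hp), mul_one]
    have h1 := hmul u ((p : ℚ_[p]) ^ k) hu0 (pow_ne_zero _ hp)
    rw [hunit u hu0 hun, hpow, one_mul] at h1
    have h2 : sc p a ha = (p : ℝ≥0∞) ^ k := by
      rw [← h1]
      congr 1
    rw [h2, hNa, hna, zpow_neg, zpow_natCast, ENNReal.ofReal_inv_of_pos (by positivity), inv_inv,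
      ENNReal.ofReal_pow hp'.le, ENNReal.ofReal_natCast]
  · obtain ⟨k, hk⟩ := Int.eq_ofNat_of_zero_le (neg_nonneg.2 h)
    have hnk : n = -(k : ℤ) := by omega
    subst hnk
    set u := a * (p : ℚ_[p]) ^ k with hu
    have hu0 : u ≠ 0 := mul_ne_zero ha (pow_ne_zero _ hp)
    have hun : ‖u‖ = 1 := by
      rw [hu, norm_mul, norm_pow, Padic.norm_p, hna, neg_neg, zpow_natCast, ← mul_pow,
        mul_inv_cancel₀ hp'.ne', one_pow]
    have h1 := hmul a ((p : ℚ_[p]) ^ k) ha (pow_ne_zero _ hp)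
    rw [hpow] at h1
    have h3 : sc p (a * (p : ℚ_[p]) ^ k) (mul_ne_zero ha (pow_ne_zero _ hp)) = 1 :=
      hunit _ _ hun
    rw [h3] at h1
    have h4 : (p : ℝ≥0∞) ^ k ≠ 0 := pow_ne_zero _ (by exact_mod_cast (Fact.out : p.Prime).ne_zero)
    have h5 : (p : ℝ≥0∞) ^ k ≠ ⊤ := ENNReal.pow_ne_top (ENNReal.natCast_ne_top p)
    have h6 : sc p a ha = ((p : ℝ≥0∞) ^ k)⁻¹ := ENNReal.eq_inv_of_mul_eq_one_left h1.symm
    rw [h6, hNa, hna, neg_neg, zpow_natCast, ENNReal.ofReal_pow hp'.le, ENNReal.ofReal_natCast]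

/-- **Scaling** of the Haar measure. -/
theorem lintegral_scale (a : ℚ_[p]) (ha : a ≠ 0) (G : ℚ_[p] → ℝ≥0∞) :
    N p 1 a * ∫⁻ x, G (a * x) ∂(nu p) = ∫⁻ x, G x ∂(nu p) := by
  rw [lintegral_sc p a ha, sc_eq, ← mul_assoc, ENNReal.mul_inv_cancel (N_ne_zero 1 ha)
    (N_ne_top 1 a), one_mul]

theorem lintegral_shift (a : ℚ_[p]) (G : ℚ_[p] → ℝ≥0∞) :
    ∫⁻ x, G (a + x) ∂(nu p) = ∫⁻ x, G x ∂(nu p) :=
  lintegral_add_left_eq_self G a

end Pool.Agent.Y230.PT
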