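import Pool.Agent.Y230.PT.BlowInt

set_option autoImplicit false
set_option linter.unusedSectionVars false

/-! # Local regularity of additive set functions -/

namespace Pool.Agent.Y230.PT

open MeasureTheory Set Pool.Agent.W427.SMC
open scoped ENNReal

variable {p : ℕ} [Fact p.Prime]

attribute [local instance] msK bsK

/-- set functions -/
abbrev SF (p : ℕ) [Fact p.Prime] := Set (ℚ_[p] × ℚ_[p]) → ℝ → ℂ

/-- additivity -/
structure AddF (F : SF p) : Prop where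
  emp : ∀ s : ℝ, 0 ≤ s → F ∅ s = 0
  uni : ∀ A B, CO A → CO B → Disjoint A B → ∀ s : ℝ, 0 ≤ s → F (A ∪ B) s = F A s + F B s

theorem addF_Zc {H : ℝ → ℚ_[p] × ℚ_[p] → ℝ≥0∞} (hH : Ok H) : AddF (Zc H) :=
  ⟨fun s _ => Zc_empty H s, fun _ _ hA hB hd _ hs => Zc_union hH hA hB hd hs⟩

theorem AddF.sub {F G : SF p} (hF : AddF F) (hG : AddF G) : AddF (fun C s => F C s - G C s) := by
  refine ⟨fun s hs => ?_, fun A B hA hB hd s hs => ?_⟩
  · rw [hF.emp s hs, hG.emp s hs, sub_zero]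
  · rw [hF.uni A B hA hB hd s hs, hG.uni A B hA hB hd s hs]; ring

theorem AddF.add {F G : SF p} (hF : AddF F) (hG : AddF G) : AddF (fun C s => F C s + G C s) := by
  refine ⟨fun s hs => ?_, fun A B hA hB hd s hs => ?_⟩
  · rw [hF.emp s hs, hG.emp s hs, add_zero]
  · rw [hF.uni A B hA hB hd s hs, hG.uni A B hA hB hd s hs]; ring

theorem AddF.zero : AddF (fun _ _ => 0 : SF p) := ⟨fun _ _ => rfl, fun _ _ _ _ _ _ _ => by simp⟩

theorem AddF.smul {F : SF p} (hF : AddF F) (c : ℂ) : AddF (fun C s => c * F C s) := by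
  refine ⟨fun s hs => ?_, fun A B hA hB hd s hs => ?_⟩
  · rw [hF.emp s hs, mul_zero]
  · rw [hF.uni A B hA hB hd s hs]; ring

/-- local regularity at a point -/
def LReg (T0 : ℂ) (M : ℕ) (F : SF p) (x : ℚ_[p] × ℚ_[p]) : Prop :=
  ∃ U, IsOpen U ∧ x ∈ U ∧ ∀ C, CO C → C ⊆ U → Reg p T0 M (F C)

variable {T0 : ℂ} {M : ℕ}

theorem LReg.glue {F : SF p} (hF : AddF F) {C : Set (ℚ_[p] × ℚ_[p])} (hC : CO C)
    (h : ∀ x ∈ C, LReg T0 M F x) : Reg p T0 M (F C) := by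
  refine ball_ind 0 (fun C => Reg p T0 M (F C)) ?_ ?_ C hC ?_
  · exact Reg.zero.congr fun s hs => (hF.emp s hs).symm
  · intro A B hA hB hd h1 h2
    exact (h1.add h2).congr fun s hs => (hF.uni A B hA hB hd s hs).symm
  · intro x hx
    obtain ⟨U, hU, hxU, hU2⟩ := h x hx
    exact ⟨U, hU, hxU, fun y k hy => hU2 _ (CO_bx 0 y k) hy⟩

theorem LReg.of_boxes {F : SF p} (hF : AddF F) (κ : ℕ) {x : ℚ_[p] × ℚ_[p]}
    {U : Set (ℚ_[p] × ℚ_[p])} (hU : IsOpen U) (hx : x ∈ U)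
    (h : ∀ y k, bx κ y k ⊆ U → Reg p T0 M (F (bx κ y k))) : LReg T0 M F x := by
  refine ⟨U, hU, hx, fun C hC hCU => ?_⟩
  refine ball_ind κ (fun C => Reg p T0 M (F C)) ?_ ?_ C hC ?_
  · exact Reg.zero.congr fun s hs => (hF.emp s hs).symm
  · intro A B hA hB hd h1 h2
    exact (h1.add h2).congr fun s hs => (hF.uni A B hA hB hd s hs).symm
  · intro y hy
    exact ⟨U, hU, hCU hy, h⟩

theorem LReg.add {F G : SF p} {x : ℚ_[p] × ℚ_[p]} (hF : LReg T0 M F x) (hG : LReg T0 M G x) :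
    LReg T0 M (fun C s => F C s + G C s) x := by
  obtain ⟨U, hU, hxU, hU2⟩ := hF
  obtain ⟨V, hV, hxV, hV2⟩ := hG
  exact ⟨U ∩ V, hU.inter hV, ⟨hxU, hxV⟩, fun C hC hCU =>
    (hU2 C hC (hCU.trans Set.inter_subset_left)).add (hV2 C hC (hCU.trans Set.inter_subset_right))⟩

theorem LReg.sub {F G : SF p} {x : ℚ_[p] × ℚ_[p]} (hF : LReg T0 M F x) (hG : LReg T0 M G x) :
    LReg T0 M (fun C s => F C s - G C s) x := by
  obtain ⟨U, hU, hxU, hU2⟩ := hF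
  obtain ⟨V, hV, hxV, hV2⟩ := hG
  exact ⟨U ∩ V, hU.inter hV, ⟨hxU, hxV⟩, fun C hC hCU =>
    (hU2 C hC (hCU.trans Set.inter_subset_left)).sub (hV2 C hC (hCU.trans Set.inter_subset_right))⟩

theorem LReg.mul {F : SF p} {x : ℚ_[p] × ℚ_[p]} (hF : LReg T0 M F x) {c : ℝ → ℂ}
    (hc : Reg p T0 0 c) : LReg T0 M (fun C s => c s * F C s) x := by
  obtain ⟨U, hU, hxU, hU2⟩ := hF
  exact ⟨U, hU, hxU, fun C hC hCU => hc.mul0 (hU2 C hC hCU)⟩

theorem LReg.zero {x : ℚ_[p] × ℚ_[p]} : LReg T0 M (fun _ _ => 0 : SF p) x :=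
  ⟨Set.univ, isOpen_univ, trivial, fun _ _ _ => Reg.zero⟩

theorem LReg.congr {F G : SF p} {x : ℚ_[p] × ℚ_[p]} (hF : LReg T0 M F x)
    {V : Set (ℚ_[p] × ℚ_[p])} (hV : IsOpen V) (hxV : x ∈ V)
    (h : ∀ C, CO C → C ⊆ V → ∀ s : ℝ, 0 ≤ s → F C s = G C s) : LReg T0 M G x := by
  obtain ⟨U, hU, hxU, hU2⟩ := hF
  exact ⟨U ∩ V, hU.inter hV, ⟨hxU, hxV⟩, fun C hC hCU =>
    (hU2 C hC (hCU.trans Set.inter_subset_left)).congr
      (h C hC (hCU.trans Set.inter_subset_right))⟩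

theorem LReg.of_all {F : SF p} (x : ℚ_[p] × ℚ_[p]) (h : ∀ C, CO C → Reg p T0 M (F C)) :
    LReg T0 M F x := ⟨Set.univ, isOpen_univ, trivial, fun C hC _ => h C hC⟩

/-- **Gluing at a blow-up.** -/
theorem LReg.blow {F F1 F2 : SF p} (h1 : AddF F1)
    (hF : ∀ L C, CO C → ∀ s : ℝ, 0 ≤ s → F C s = F1 (S1 L C) s + F2 (S2 L C) s)
    (hc : ∀ c : ℚ_[p], LReg T0 M F1 (0, c)) (hI : LReg T0 M F2 (0, 0)) :
    LReg T0 M F (0, 0) := by
  obtain ⟨UI, hUI, h0I, hI2⟩ := hI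
  obtain ⟨ε, hε, hε2⟩ := Metric.isOpen_iff.1 hUI _ h0I
  obtain ⟨L, hL⟩ := exists_pow_lt_of_lt_one hε (qr_lt_one (p := p))
  have hq : 0 < qr p ^ L := pow_pos qr_pos L
  choose U hUo hUx hU2 using hc
  have hsub : ({0} : Set ℚ_[p]) ×ˢ Metric.closedBall (0 : ℚ_[p]) ((qr p ^ L)⁻¹) ⊆ ⋃ c, U c := by
    rintro ⟨x1, x2⟩ ⟨hx1, _⟩
    rw [Set.mem_singleton_iff] at hx1
    change x1 = 0 at hx1
    subst hx1
    exact Set.mem_iUnion.2 ⟨x2, hUx x2⟩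
  obtain ⟨u, v, huo, hvo, hu, hv, huv⟩ := generalized_tube_lemma (isCompact_singleton)
    (isCompact_closedBall (0 : ℚ_[p]) ((qr p ^ L)⁻¹)) (isOpen_iUnion hUo) hsub
  refine ⟨(u ∩ Metric.ball 0 (qr p ^ L)) ×ˢ Metric.ball 0 (qr p ^ L),
    (huo.inter Metric.isOpen_ball).prod Metric.isOpen_ball,
    ⟨⟨hu (Set.mem_singleton _), Metric.mem_ball_self hq⟩, Metric.mem_ball_self hq⟩,
    fun C hC hCU => ?_⟩
  have e1 : Reg p T0 M (F1 (S1 L C)) := by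
    refine LReg.glue h1 (CO_S1 L hC) fun x hx => ?_
    obtain ⟨hx1, hx2⟩ := hx
    have h3 : x ∈ u ×ˢ v := by
      refine ⟨(hCU hx2).1.1, hv ?_⟩
      rw [Set.mem_ofPred_eq, ← le_div_iff₀ hq, one_div] at hx1
      rw [Metric.mem_closedBall, dist_zero_right]
      exact hx1
    obtain ⟨c, hcx⟩ := Set.mem_iUnion.1 (huv h3)
    exact ⟨U c, hUo c, hcx, hU2 c⟩
  have e2 : Reg p T0 M (F2 (S2 L C)) := by
    refine hI2 _ (CO_S2 L hC) fun x hx => hε2 ?_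
    obtain ⟨hx1, hx2⟩ := hx
    have h3 := (hCU hx2).2
    rw [Metric.mem_ball, dist_zero_right] at h3
    change ‖x.2‖ < qr p ^ L at h3
    change ‖x.1‖ < qr p ^ L at hx1
    rw [Metric.mem_ball, Prod.dist_eq]
    simp only [dist_zero_right]
    exact max_lt (hx1.trans hL) (h3.trans hL)
  exact (e1.add e2).congr fun s hs => (hF L C hC s hs).symm

theorem LReg.homeo {F G : SF p} (τ : (ℚ_[p] × ℚ_[p]) ≃ₜ (ℚ_[p] × ℚ_[p]))
    (h : ∀ C, CO C → ∀ s : ℝ, 0 ≤ s → F C s = G (τ ⁻¹' C) s) {x : ℚ_[p] × ℚ_[p]}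
    (hG : LReg T0 M G x) : LReg T0 M F (τ x) := by
  obtain ⟨U, hU, hxU, hU2⟩ := hG
  refine ⟨τ.symm ⁻¹' U, hU.preimage τ.symm.continuous, by simpa using hxU, fun C hC hCU => ?_⟩
  refine (hU2 (τ ⁻¹' C) ⟨?_, hC.opn.preimage τ.continuous⟩ ?_).congr fun s hs => (h C hC s hs).symm
  · exact τ.isCompact_preimage.2 hC.cpt
  · intro y hy
    have := hCU hy
    simpa using this

/-- the shear -/
noncomputable def shV (f : ℚ_[p] → ℚ_[p]) (hf : Continuous f) : (ℚ_[p] × ℚ_[p]) ≃ₜ (ℚ_[p] × ℚ_[p]) where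
  toFun x := (x.1, f x.1 + x.2)
  invFun x := (x.1, -f x.1 + x.2)
  left_inv x := by simp
  right_inv x := by simp
  continuous_toFun := by fun_prop
  continuous_invFun := by fun_prop

/-- the affine map in the first variable -/
noncomputable def shU (α : ℚ_[p]) (hα : α ≠ 0) (f : ℚ_[p] → ℚ_[p]) (hf : Continuous f) :
    (ℚ_[p] × ℚ_[p]) ≃ₜ (ℚ_[p] × ℚ_[p]) where
  toFun x := (f x.2 + α * x.1, x.2)
  invFun x := (α⁻¹ * (-f x.2 + x.1), x.2)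
  left_inv x := by
    simp only [neg_add_cancel_left]
    rw [inv_mul_cancel_left₀ hα]
  right_inv x := by
    simp only [mul_inv_cancel_left₀ hα, add_neg_cancel_left]
  continuous_toFun := by fun_prop
  continuous_invFun := by fun_prop

theorem lreg_shV {H : ℝ → ℚ_[p] × ℚ_[p] → ℝ≥0∞} (hH : Ok H) (f : ℚ_[p] → ℚ_[p])
    (hf : Continuous f) {x : ℚ_[p] × ℚ_[p]}
    (h : LReg T0 M (Zc (fun s x => H s (x.1, f x.1 + x.2))) x) :
    LReg T0 M (Zc H) (x.1, f x.1 + x.2) :=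
  LReg.homeo (shV f hf) (fun C hC s hs => Zc_shearV H hH f hf hC hs) h

/-- the swap preserves the integrals -/
theorem Zc_swap (H : ℝ → ℚ_[p] × ℚ_[p] → ℝ≥0∞) (C : Set (ℚ_[p] × ℚ_[p]))
    (s : ℝ) : Zc H C s = Zc (fun s x => H s x.swap) (Prod.swap ⁻¹' C) s := by
  unfold Zc
  congr 2
  have h1 : MeasurePreserving (Prod.swap : ℚ_[p] × ℚ_[p] → ℚ_[p] × ℚ_[p]) (nu2 p) (nu2 p) :=
    Measure.measurePreserving_swap
  have h2 := h1.setLIntegral_comp_preimage_emb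
    (MeasurableEquiv.prodComm : ℚ_[p] × ℚ_[p] ≃ᵐ ℚ_[p] × ℚ_[p]).measurableEmbedding (H s) C
  exact h2.symm

theorem lreg_swap {F G : SF p} (h : ∀ C, CO C → ∀ s : ℝ, 0 ≤ s → F C s = G (Prod.swap ⁻¹' C) s)
    {x : ℚ_[p] × ℚ_[p]} (hG : LReg T0 M G x) : LReg T0 M F x.swap :=
  LReg.homeo (Homeomorph.prodComm _ _) h hG

end Pool.Agent.Y230.PT
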