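import Pool.Agent.Y230.PT.Model

set_option autoImplicit false
set_option linter.unusedSectionVars false

/-! # The leaves -/

namespace Pool.Agent.Y230.PT

open MeasureTheory Set Pool.Agent.W427.SMC
open scoped ENNReal
open Pool.Agent.Y230.RE

variable {p : ℕ} [Fact p.Prime]

attribute [local instance] msK bsK

theorem I1_norm (s : ℝ) (a n : ℕ) {b b' : ℚ_[p]} (k : ℕ) (h : ‖b‖ = ‖b'‖) :
    I1 s a n b k = I1 s a n b' k := by
  rcases lt_or_ge (qr p ^ k) ‖b‖ with hb | hb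
  · rw [I1_far s a n b k hb, I1_far s a n b' k (h ▸ hb), w_norm s a n h]
  · rw [I1_near s a n b k hb, I1_near s a n b' k (h ▸ hb)]

theorem I1_ball (s : ℝ) (a n : ℕ) {b b' : ℚ_[p]} (k : ℕ) (h : b' ∈ bl b k) :
    I1 s a n b' k = I1 s a n b k := by
  unfold I1
  have hb : b' ∈ bl b' k := by
    rw [mem_bl, sub_self, norm_zero]
    exact pow_nonneg qr_pos.le _
  rw [bl_eq hb h]

theorem isom_I1 (s : ℝ) (a n : ℕ) (b : ℚ_[p]) (k : ℕ) (φ : ℚ_[p] → ℚ_[p])
    (hφ : ∀ v ∈ bl b k, ∀ v' ∈ bl b k, ‖φ v - φ v'‖ = ‖v - v'‖) :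
    ∫⁻ v in bl b k, w s a n (φ v) ∂(nu p) = I1 s a n (φ b) k := by
  have hbb : b ∈ bl b k := by
    rw [mem_bl, sub_self, norm_zero]
    exact pow_nonneg qr_pos.le _
  rcases lt_or_ge (qr p ^ k) ‖φ b‖ with hb | hb
  · rw [I1_far s a n _ k hb]
    have h1 : ∀ v ∈ bl b k, w s a n (φ v) = w s a n (φ b) := by
      intro v hv
      refine w_norm s a n ?_
      have h2 : ‖φ v - φ b‖ < ‖φ b‖ := by
        rw [hφ v hv b hbb]
        rw [mem_bl] at hv
        exact hv.trans_lt hb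
      have h3 : φ v = (φ v - φ b) + φ b := by ring
      rw [h3, Padic.add_eq_max_of_ne h2.ne, max_eq_right h2.le]
    rw [setLIntegral_congr_fun (bl_meas _ _) h1, setLIntegral_const, nu_bl]
  · rw [I1_near s a n _ k hb]
    have hsm : ∀ v ∈ bl b k, ‖φ v‖ ≤ qr p ^ k := by
      intro v hv
      have h3 : φ v = (φ v - φ b) + φ b := by ring
      rw [h3]
      refine (Padic.nonarchimedean _ _).trans (max_le ?_ hb)
      rw [hφ v hv b hbb]
      exact (mem_bl _ _ _).1 hv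
    have : CompactSpace (bl b k) := isCompact_iff_compactSpace.1 (bl_cpt b k)
    have hmem : ∀ v : bl b k, φ v.1 + b ∈ bl b k := by
      intro v
      rw [mem_bl, add_sub_cancel_right]
      exact hsm v.1 v.2
    obtain ⟨⟨t0, htb⟩, ht0⟩ := isom_surj (fun v : bl b k => (⟨φ v.1 + b, hmem v⟩ : bl b k)) (by
      refine Isometry.of_dist_eq fun v v' => ?_
      rw [Subtype.dist_eq, Subtype.dist_eq, dist_eq_norm, dist_eq_norm, add_sub_add_right_eq_sub]
      exact hφ v.1 v.2 v'.1 v'.2) ⟨b, hbb⟩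
    have ht1 : φ t0 = 0 := by
      have := congrArg Subtype.val ht0
      simpa using this
    have h1 : ∀ v ∈ bl b k, w s a n (φ v) = w s a n (v - t0) := by
      intro v hv
      refine w_norm s a n ?_
      rw [← hφ v hv t0 htb, ht1, sub_zero]
    rw [setLIntegral_congr_fun (bl_meas _ _) h1, J, ← lintegral_indicator (bl_meas _ _),
      ← lintegral_indicator (bl_meas _ _), ← lintegral_shift p t0]
    refine lintegral_congr fun x => ?_
    have hiff : t0 + x ∈ bl b k ↔ x ∈ bl (0 : ℚ_[p]) k := by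
      have e : bl b k = bl t0 k := bl_eq (b := b) (c := t0) (x := t0) htb (by
        rw [mem_bl, sub_self, norm_zero]
        exact pow_nonneg qr_pos.le _)
      rw [e, mem_bl, mem_bl, add_sub_cancel_left, sub_zero]
    by_cases h : x ∈ bl (0 : ℚ_[p]) k
    · rw [Set.indicator_of_mem h, Set.indicator_of_mem (hiff.2 h), add_sub_cancel_left]
    · rw [Set.indicator_of_notMem h, Set.indicator_of_notMem (fun h2 => h (hiff.1 h2))]

/-- divided differences in the second variable -/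
theorem exists_dq1 (h : A ℚ_[p]) : ∃ Q : ℚ_[p] × ℚ_[p] × ℚ_[p] → ℚ_[p], Continuous Q ∧
    (∀ u v v', ev (u, v) h - ev (u, v') h = (v - v') * Q (u, v, v')) ∧
    ∀ u v, Q (u, v, v) = ev (u, v) (MvPolynomial.pderiv 1 h) := by
  induction h using MvPolynomial.induction_on with
  | C c =>
    refine ⟨fun _ => 0, continuous_const, fun u v v' => ?_, fun u v => ?_⟩
    · rw [ev_C, ev_C]; ring
    · rw [MvPolynomial.pderiv_C, map_zero]
  | add f g hf hg =>
    obtain ⟨Q1, h1, h2, h3⟩ := hf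
    obtain ⟨Q2, h4, h5, h6⟩ := hg
    refine ⟨fun x => Q1 x + Q2 x, h1.add h4, fun u v v' => ?_, fun u v => ?_⟩
    · rw [map_add, map_add]
      linear_combination h2 u v v' + h5 u v v'
    · simp only [map_add, h3, h6]
  | mul_X f i hf =>
    obtain ⟨Q1, h1, h2, h3⟩ := hf
    have hi : i = 0 ∨ i = 1 := by fin_cases i <;> simp
    rcases hi with rfl | rfl
    · refine ⟨fun x => Q1 x * x.1, h1.mul continuous_fst, fun u v v' => ?_, fun u v => ?_⟩
      · rw [map_mul, map_mul, ev_X0, ev_X0]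
        simp only
        linear_combination u * h2 u v v'
      · rw [MvPolynomial.pderiv_mul, MvPolynomial.pderiv_X_of_ne (by decide), mul_zero, add_zero,
          map_mul, ev_X0]
        simp only [h3]
    · refine ⟨fun x => Q1 x * x.2.1 + ev (x.1, x.2.2) f,
        (h1.mul (by fun_prop)).add ((ev_cont f).comp (by fun_prop)), fun u v v' => ?_,
        fun u v => ?_⟩
      · rw [map_mul, map_mul, ev_X1, ev_X1]
        simp only
        linear_combination v * h2 u v v'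
      · rw [MvPolynomial.pderiv_mul, MvPolynomial.pderiv_X_self, mul_one, map_add, map_mul,
          ev_X1]
        simp only [h3]

/-- divided differences in the first variable -/
theorem exists_dq0 (h : A ℚ_[p]) : ∃ Q : ℚ_[p] × ℚ_[p] × ℚ_[p] → ℚ_[p], Continuous Q ∧
    (∀ u u' v, ev (u, v) h - ev (u', v) h = (u - u') * Q (u, u', v)) := by
  induction h using MvPolynomial.induction_on with
  | C c =>
    refine ⟨fun _ => 0, continuous_const, fun u v v' => ?_⟩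
    rw [ev_C, ev_C]; ring
  | add f g hf hg =>
    obtain ⟨Q1, h1, h2⟩ := hf
    obtain ⟨Q2, h4, h5⟩ := hg
    refine ⟨fun x => Q1 x + Q2 x, h1.add h4, fun u v v' => ?_⟩
    rw [map_add, map_add]
    linear_combination h2 u v v' + h5 u v v'
  | mul_X f i hf =>
    obtain ⟨Q1, h1, h2⟩ := hf
    have hi : i = 0 ∨ i = 1 := by fin_cases i <;> simp
    rcases hi with rfl | rfl
    · refine ⟨fun x => Q1 x * x.1 + ev (x.2.1, x.2.2) f,
        (h1.mul (by fun_prop)).add ((ev_cont f).comp (by fun_prop)), fun u v v' => ?_⟩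
      rw [map_mul, map_mul, ev_X0, ev_X0]
      simp only
      linear_combination u * h2 u v v'
    · refine ⟨fun x => Q1 x * x.2.2, h1.mul (by fun_prop), fun u u' v => ?_⟩
      rw [map_mul, map_mul, ev_X1, ev_X1]
      simp only
      linear_combination v * h2 u u' v

/-- the local form of a smooth curve -/
theorem curve_local (h : A ℚ_[p]) (h1 : MvPolynomial.constantCoeff (MvPolynomial.pderiv 1 h) = 1) :
    ∃ (ε : ℝ) (κ : ℕ), 0 < ε ∧
      (∀ u v v' : ℚ_[p], ‖u‖ < ε → ‖v‖ < ε → ‖v'‖ < ε →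
        ‖ev (u, v) h - ev (u, v') h‖ = ‖v - v'‖) ∧
      (∀ u u' v : ℚ_[p], ‖u‖ < ε → ‖u'‖ < ε → ‖v‖ < ε →
        ‖ev (u, v) h - ev (u', v) h‖ * qr p ^ κ ≤ ‖u - u'‖) := by
  obtain ⟨Q, hQ1, hQ2, hQ3⟩ := exists_dq1 h
  obtain ⟨R, hR1, hR2⟩ := exists_dq0 h
  have hQ0 : Q (0, 0, 0) = 1 := by rw [hQ3, ev_zero, h1]
  obtain ⟨U, hU, h0U, hU2⟩ := norm_const_near Q hQ1 (0, 0, 0) (by rw [hQ0]; exact one_ne_zero)
  have hV : IsOpen (R ⁻¹' Metric.ball (R (0, 0, 0)) 1) := Metric.isOpen_ball.preimage hR1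
  obtain ⟨ε, hε, hε2⟩ := Metric.isOpen_iff.1 (hU.inter hV) (0, 0, 0)
    ⟨h0U, Metric.mem_ball_self one_pos⟩
  obtain ⟨κ, hκ⟩ := exists_pow_lt_of_lt_one (show (0 : ℝ) < (‖R (0, 0, 0)‖ + 1)⁻¹ by positivity)
    (qr_lt_one (p := p))
  have hball : ∀ a b c : ℚ_[p], ‖a‖ < ε → ‖b‖ < ε → ‖c‖ < ε →
      (a, b, c) ∈ U ∩ R ⁻¹' Metric.ball (R (0, 0, 0)) 1 := by
    intro a b c ha hb hc
    apply hε2
    rw [Metric.mem_ball, Prod.dist_eq, Prod.dist_eq]
    simp only [dist_zero_right]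
    exact max_lt ha (max_lt hb hc)
  refine ⟨ε, κ, hε, ?_, ?_⟩
  · intro u v v' hu hv hv'
    rw [hQ2, norm_mul, hU2 _ (hball u v v' hu hv hv').1, hQ0, norm_one, mul_one]
  · intro u u' v hu hu' hv
    have h3 := (hball u u' v hu hu' hv).2
    rw [Set.mem_preimage, Metric.mem_ball, dist_eq_norm] at h3
    have h4 : ‖R (u, u', v)‖ ≤ ‖R (0, 0, 0)‖ + 1 := by
      have h5 : R (u, u', v) = (R (u, u', v) - R (0, 0, 0)) + R (0, 0, 0) := by ring
      rw [h5]
      refine (norm_add_le _ _).trans ?_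
      linarith
    rw [hR2, norm_mul, mul_assoc]
    refine mul_le_of_le_one_right (norm_nonneg _) ?_
    have h6 : 0 < ‖R (0, 0, 0)‖ + 1 := by positivity
    calc ‖R (u, u', v)‖ * qr p ^ κ ≤ (‖R (0, 0, 0)‖ + 1) * (‖R (0, 0, 0)‖ + 1)⁻¹ :=
          mul_le_mul h4 hκ.le (pow_nonneg qr_pos.le _) h6.le
      _ = 1 := mul_inv_cancel₀ h6.ne'

/-- the integral over a box near a smooth curve -/
theorem curve_box (h : A ℚ_[p]) {s : ℝ} (hs : 0 ≤ s) (a0 n0 m : ℕ) (ε : ℝ) (κ : ℕ)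
    (hv : ∀ u v v' : ℚ_[p], ‖u‖ < ε → ‖v‖ < ε → ‖v'‖ < ε →
        ‖ev (u, v) h - ev (u, v') h‖ = ‖v - v'‖)
    (hu : ∀ u u' v : ℚ_[p], ‖u‖ < ε → ‖u'‖ < ε → ‖v‖ < ε →
        ‖ev (u, v) h - ev (u', v) h‖ * qr p ^ κ ≤ ‖u - u'‖) (y : ℚ_[p] × ℚ_[p]) (k : ℕ)
    (hy : bx κ y k ⊆ Metric.ball 0 ε ×ˢ Metric.ball 0 ε) :
    ∫⁻ x in bx κ y k, w s a0 n0 x.1 * w s m 1 (ev x h) ∂(nu2 p) =
      I1 s a0 n0 y.1 (k + κ) * I1 s m 1 (ev y h) k := by
  have hyy := hy (self_mem_bx κ y k)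
  have hmem : ∀ u ∈ bl y.1 (k + κ), ∀ v ∈ bl y.2 k, ‖u‖ < ε ∧ ‖v‖ < ε := by
    intro u hu v hv
    have := hy (show (u, v) ∈ bx κ y k from ⟨hu, hv⟩)
    rw [Set.mem_prod, Metric.mem_ball, Metric.mem_ball, dist_zero_right, dist_zero_right] at this
    exact this
  have hy1 : y.1 ∈ bl y.1 (k + κ) := by
    rw [mem_bl, sub_self, norm_zero]; exact pow_nonneg qr_pos.le _
  have hy2 : y.2 ∈ bl y.2 k := by
    rw [mem_bl, sub_self, norm_zero]; exact pow_nonneg qr_pos.le _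
  have hmeas : Measurable (fun x : ℚ_[p] × ℚ_[p] => w s a0 n0 x.1 * w s m 1 (ev x h)) :=
    ((w_meas s a0 n0).comp measurable_fst).mul ((w_meas s m 1).comp (ev_cont h).measurable)
  rw [bx, nu2, ← Measure.prod_restrict, lintegral_prod _ hmeas.aemeasurable]
  have h1 : ∀ u ∈ bl y.1 (k + κ),
      ∫⁻ v in bl y.2 k, w s a0 n0 u * w s m 1 (ev (u, v) h) ∂(nu p) =
      w s a0 n0 u * I1 s m 1 (ev y h) k := by
    intro u hu'
    rw [lintegral_const_mul' _ _ (w_ne_top _ _ _ _)]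
    congr 1
    rw [isom_I1 s m 1 y.2 k (fun v => ev (u, v) h) (fun v hv1 v' hv2 =>
      hv u v v' (hmem u hu' v hv1).1 (hmem u hu' v hv1).2 (hmem u hu' v' hv2).2)]
    refine I1_ball s m 1 k ?_
    rw [mem_bl]
    have h2 := hu u y.1 y.2 (hmem u hu' _ hy2).1 (hmem _ hy1 _ hy2).1 (hmem _ hy1 _ hy2).2
    have h3 := (mem_bl _ _ _).1 hu'
    rw [pow_add] at h3
    exact le_of_mul_le_mul_right (h2.trans h3) (pow_pos qr_pos κ)
  rw [setLIntegral_congr_fun (bl_meas _ _) h1, lintegral_mul_const' _ _ ?_]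
  · rfl
  · exact I1_ne_top hs _ _ _ _

end Pool.Agent.Y230.PT
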