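import Pool.Agent.Y230.PT.Leaf

set_option autoImplicit false
set_option linter.unusedSectionVars false

/-! # The leaves, regularity -/

namespace Pool.Agent.Y230.PT

open MeasureTheory Set Pool.Agent.W427.SMC
open scoped ENNReal
open Pool.Agent.Y230.RE

variable {p : ℕ} [Fact p.Prime]

attribute [local instance] msK bsK

section Crr

open Classical in
/-- the correction term -/
noncomputable def crr (c : Prop) (F : SF p) : SF p := fun C s => if c then F C s else 0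

theorem crr_true {c : Prop} (h : c) (F : SF p) : crr c F = F := by
  funext C s
  simp [crr, h]

theorem crr_false {c : Prop} (h : ¬ c) (F : SF p) : crr c F = fun _ _ => 0 := by
  funext C s
  simp [crr, h]

theorem AddF.crr {F : SF p} (hF : AddF F) (c : Prop) : AddF (crr c F) := by
  by_cases h : c
  · rw [crr_true h]; exact hF
  · rw [crr_false h]; exact AddF.zero

theorem not_crit01 {T0 : ℂ} : ¬ Crit p T0 0 1 := by
  unfold Crit
  rw [pow_zero, pow_one]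
  intro h
  have h1 : (1 : ℕ) = p := by exact_mod_cast h
  exact (Fact.out : p.Prime).one_lt.ne h1

end Crr

variable {ι : Type} [Fintype ι]

/-- the order of a family of polynomials -/
def IsO (h : ι → Polynomial ℚ_[p]) (ρ : ℕ) : Prop :=
  (∀ j, ∀ i < ρ, (h j).coeff i = 0) ∧ ∃ j, (h j).coeff ρ ≠ 0

theorem IsO.unique {h : ι → Polynomial ℚ_[p]} {ρ ρ' : ℕ} (h1 : IsO h ρ) (h2 : IsO h ρ') :
    ρ = ρ' := by
  obtain ⟨j, hj⟩ := h1.2
  obtain ⟨j', hj'⟩ := h2.2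
  rcases lt_trichotomy ρ ρ' with h | h | h
  · exact absurd (h2.1 j ρ h) hj
  · exact h
  · exact absurd (h1.1 j' ρ' h) hj'

variable {T0 : ℂ}

theorem Mn_mon (h : ι → ℚ_[p]) (hne : ∃ j, h j ≠ 0) (a0 n0 a1 n1 : ℕ) :
    ∃ γ : ℚ_[p], γ ≠ 0 ∧ ∀ C (s : ℝ), 0 ≤ s → Zc (Mn h a0 n0 a1 n1) C s =
      Zc (mon γ a0 n0 a1 n1) C s := by
  obtain ⟨γ, h1, h2⟩ := exists_mx h hne
  refine ⟨γ, h1, fun C s hs => ?_⟩
  unfold Zc Mn mon
  rw [h2 s hs]

theorem Mn_reg (hT0 : T0 ≠ 0) (h : ι → ℚ_[p]) (hne : ∃ j, h j ≠ 0) {a0 n0 a1 n1 : ℕ}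
    (hn0 : 1 ≤ n0) (hn1 : 1 ≤ n1) (h0 : ¬ Crit p T0 a0 n0) (h1 : ¬ Crit p T0 a1 n1)
    {C : Set (ℚ_[p] × ℚ_[p])} (hC : CO C) : Reg p T0 0 (Zc (Mn h a0 n0 a1 n1) C) := by
  obtain ⟨γ, hγ, h2⟩ := Mn_mon h hne a0 n0 a1 n1
  exact (reg_mon hT0 γ hγ a0 n0 a1 n1 hn0 hn1 h0 h1 C hC).congr fun s hs => (h2 C s hs).symm

theorem Mn_reg1 (hT0 : T0 ≠ 0) (h : ι → ℚ_[p]) (hne : ∃ j, h j ≠ 0) {a0 n0 a1 n1 : ℕ}
    (hn0 : 1 ≤ n0) (hn1 : 1 ≤ n1) (h0 : ¬ Crit p T0 a0 n0 ∨ ¬ Crit p T0 a1 n1)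
    {C : Set (ℚ_[p] × ℚ_[p])} (hC : CO C) : Reg p T0 1 (Zc (Mn h a0 n0 a1 n1) C) := by
  obtain ⟨γ, hγ, h2⟩ := Mn_mon h hne a0 n0 a1 n1
  exact (reg_mon1 hT0 γ hγ a0 n0 a1 n1 hn0 hn1 h0 C hC).congr fun s hs => (h2 C s hs).symm

theorem Mn_reg2 (hT0 : T0 ≠ 0) (h : ι → ℚ_[p]) (hne : ∃ j, h j ≠ 0) {a0 n0 a1 n1 : ℕ}
    (hn0 : 1 ≤ n0) (hn1 : 1 ≤ n1)
    {C : Set (ℚ_[p] × ℚ_[p])} (hC : CO C) : Reg p T0 2 (Zc (Mn h a0 n0 a1 n1) C) := by
  obtain ⟨γ, hγ, h2⟩ := Mn_mon h hne a0 n0 a1 n1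
  exact (reg_mon2 hT0 γ hγ a0 n0 a1 n1 hn0 hn1 C hC).congr fun s hs => (h2 C s hs).symm

/-- near a point of `u = 0` other than the origin -/
theorem Mn_lreg (hT0 : T0 ≠ 0) (h : ι → ℚ_[p]) (hne : ∃ j, h j ≠ 0) {a0 n0 a1 n1 : ℕ}
    (hn0 : 1 ≤ n0) (h0 : ¬ Crit p T0 a0 n0) (c : ℚ_[p]) (hc : c ≠ 0) :
    LReg T0 0 (Zc (Mn h a0 n0 a1 n1)) (0, c) := by
  obtain ⟨U, hU, hcU, hU2⟩ := norm_const_near (fun x : ℚ_[p] × ℚ_[p] => x.2) continuous_snd (0, c) hc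
  refine (LReg.mul (c := fun s => ((w s a1 n1 c).toReal : ℂ)) (LReg.of_all (0, c) (fun C hC =>
    Mn_reg hT0 h hne (a1 := 0) (n1 := 1) hn0 le_rfl h0 not_crit01 hC))
    (reg_w hT0 a1 n1 c hc)).congr hU hcU ?_
  intro C hC hCU s hs
  unfold Zc
  rw [← Complex.ofReal_mul, ← ENNReal.toReal_mul, ← lintegral_const_mul' _ _ (w_ne_top _ _ _ _)]
  congr 2
  refine setLIntegral_congr_fun hC.meas fun x hx => ?_
  unfold Mn
  rw [w01, w_norm s a1 n1 (show ‖x.2‖ = ‖c‖ from hU2 x (hCU hx))]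
  ring

theorem Hn_unit (g : ι → A ℚ_[p]) (j : ι) (hj : MvPolynomial.constantCoeff (g j) ≠ 0)
    (a0 n0 a1 n1 : ℕ) : ∃ U, IsOpen U ∧ ((0, 0) : ℚ_[p] × ℚ_[p]) ∈ U ∧ ∀ C, CO C → C ⊆ U →
      ∀ s : ℝ, 0 ≤ s → Zc (Hn g a0 n0 a1 n1) C s =
        Zc (Mn (fun j => MvPolynomial.constantCoeff (g j)) a0 n0 a1 n1) C s := by
  obtain ⟨U, hU, h0U, hU2⟩ := mx_const_near (fun j x => ev x (g j)) (fun j => ev_cont (g j)) (0, 0)
    ⟨j, by rw [ev_zero]; exact hj⟩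
  refine ⟨U, hU, h0U, fun C hC hCU s hs => Zc_congr hC fun x hx => ?_⟩
  unfold Hn Mn
  rw [hU2 x (hCU hx) s hs]
  simp only [ev_zero]

theorem pow_coeff (q r : Polynomial ℚ_[p]) (m : ℕ) :
    (∀ i < m, ((Polynomial.X * q) ^ m * r).coeff i = 0) ∧
      ((Polynomial.X * q) ^ m * r).coeff m = q.coeff 0 ^ m * r.coeff 0 := by
  have h : (Polynomial.X * q) ^ m * r = Polynomial.X ^ m * (q ^ m * r) := by rw [mul_pow]; ring
  rw [h]
  constructor
  · intro i hi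
    rw [Polynomial.coeff_X_pow_mul', if_neg (by omega)]
  · rw [Polynomial.coeff_X_pow_mul', if_pos le_rfl, Nat.sub_self, Polynomial.mul_coeff_zero,
      Polynomial.coeff_zero_eq_eval_zero (q ^ m), Polynomial.eval_pow,
      ← Polynomial.coeff_zero_eq_eval_zero]

theorem r0_pderiv (h : A ℚ_[p]) : (r0 h).coeff 1 =
    MvPolynomial.constantCoeff (MvPolynomial.pderiv 1 h) := by
  rw [r0_coeff, cc_eq]
  induction h using ind2 with
  | hm a b c =>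
    rw [ex, MvPolynomial.pderiv_monomial, MvPolynomial.coeff_monomial, MvPolynomial.coeff_monomial]
    by_cases h1 : a = 0 ∧ b = 1
    · obtain ⟨rfl, rfl⟩ := h1
      rw [if_pos, if_pos]
      · simp
      · ext i; fin_cases i <;> simp [ex]
      · ext i; fin_cases i <;> simp [ex]
    · rw [if_neg]
      · by_cases hb : b = 0
        · subst hb
          simp
        · rw [if_neg]
          intro h2
          have h3 := congrArg (fun μ : Fin 2 →₀ ℕ => μ 0) h2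
          have h4 := congrArg (fun μ : Fin 2 →₀ ℕ => μ 1) h2
          simp [ex] at h3 h4
          omega
      · intro h2
        have h3 := congrArg (fun μ : Fin 2 →₀ ℕ => μ 0) h2
        have h4 := congrArg (fun μ : Fin 2 →₀ ℕ => μ 1) h2
        simp [ex] at h3 h4
        exact h1 ⟨h3, h4⟩
  | ha f g hf hg => rw [MvPolynomial.coeff_add, map_add, MvPolynomial.coeff_add, hf, hg]

theorem Hn_curve (g : ι → A ℚ_[p]) (m : ℕ) (h : A ℚ_[p]) (k : ι → A ℚ_[p])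
    (hg : ∀ j, g j = h ^ m * k j) (h0 : MvPolynomial.constantCoeff h = 0)
    (h1 : MvPolynomial.constantCoeff (MvPolynomial.pderiv 1 h) ≠ 0) (j : ι)
    (hj : MvPolynomial.constantCoeff (k j) ≠ 0) (a0 n0 : ℕ) :
    ∃ (κ : ℕ) (U : Set (ℚ_[p] × ℚ_[p])) (B : ℚ_[p] × ℚ_[p] → ℚ_[p]), IsOpen U ∧ (0, 0) ∈ U ∧
      IsO (fun j => r0 (g j)) m ∧
      ∀ y l, bx κ y l ⊆ U → (∀ s : ℝ, 0 ≤ s → Zc (Hn g a0 n0 0 1) (bx κ y l) s =
        ((mx (fun j => (r0 (g j)).coeff m) s).toReal : ℂ) *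
          (((I1 s a0 n0 y.1 (l + κ)).toReal : ℂ) * ((I1 s m 1 (B y) l).toReal : ℂ))) ∧
        (‖y.1‖ ≤ qr p ^ (l + κ) → ∀ s : ℝ, I1 s m 1 (B y) l = I1 s m 1 y.2 l) := by
  set δ := MvPolynomial.constantCoeff (MvPolynomial.pderiv 1 h) with hδ
  set h' : A ℚ_[p] := MvPolynomial.C δ⁻¹ * h with hh'
  set k' : ι → A ℚ_[p] := fun j => MvPolynomial.C (δ ^ m) * k j with hk'
  have hg' : ∀ j, g j = h' ^ m * k' j := by
    intro j
    rw [hg, hh', hk', mul_pow, ← map_pow]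
    simp only
    have : (MvPolynomial.C (δ⁻¹ ^ m) : A ℚ_[p]) * MvPolynomial.C (δ ^ m) = 1 := by
      rw [← map_mul, inv_pow, inv_mul_cancel₀ (pow_ne_zero _ h1), map_one]
    linear_combination (-(h ^ m * k j)) * this
  have h0' : MvPolynomial.constantCoeff h' = 0 := by rw [hh', map_mul, h0, mul_zero]
  have h1' : MvPolynomial.constantCoeff (MvPolynomial.pderiv 1 h') = 1 := by
    rw [hh', MvPolynomial.pderiv_C_mul, map_mul, MvPolynomial.constantCoeff_C, ← hδ,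
      inv_mul_cancel₀ h1]
  have hj' : MvPolynomial.constantCoeff (k' j) ≠ 0 := by
    rw [hk', map_mul, MvPolynomial.constantCoeff_C]
    exact mul_ne_zero (pow_ne_zero _ h1) hj
  obtain ⟨q, hq⟩ : Polynomial.X ∣ r0 h' := by
    rw [Polynomial.X_dvd_iff, r0_coeff, ← cc_eq, h0']
  have hq0 : q.coeff 0 = 1 := by
    have h2 := r0_pderiv h'
    rw [h1', hq] at h2
    have h3 := Polynomial.coeff_X_mul q 0
    rw [zero_add] at h3
    rw [← h3, h2]
  have hres : ∀ i, r0 (g i) = (Polynomial.X * q) ^ m * r0 (k' i) := by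
    intro i
    rw [hg', map_mul, map_pow, hq]
  have hcm : ∀ i, (r0 (g i)).coeff m = ev (0, 0) (k' i) := by
    intro i
    rw [hres, (pow_coeff q _ m).2, hq0, one_pow, one_mul, ev_zero, r0_coeff, cc_eq]
  have hIsO : IsO (fun j => r0 (g j)) m := by
    refine ⟨fun i d hd => ?_, j, ?_⟩
    · simp only
      rw [hres]
      exact (pow_coeff q _ m).1 d hd
    · simp only
      rw [hcm, ev_zero]
      exact hj'
  obtain ⟨U1, hU1, h0U1, hU12⟩ := mx_const_near (fun j x => ev x (k' j))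
    (fun j => ev_cont (k' j)) (0, 0) ⟨j, by rw [ev_zero]; exact hj'⟩
  obtain ⟨ε, κ, hε, hv, hu⟩ := curve_local h' h1'
  refine ⟨κ, U1 ∩ (Metric.ball 0 ε ×ˢ Metric.ball 0 ε), fun y => ev y h',
    hU1.inter (Metric.isOpen_ball.prod Metric.isOpen_ball),
    ⟨h0U1, ⟨Metric.mem_ball_self hε, Metric.mem_ball_self hε⟩⟩, hIsO, fun y l hy => ⟨?_, ?_⟩⟩
  · intro s hs
    have h2 : ∀ x ∈ bx κ y l, Hn g a0 n0 0 1 s x = mx (fun j => (r0 (g j)).coeff m) s *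
        (w s a0 n0 x.1 * w s m 1 (ev x h')) := by
      intro x hx
      unfold Hn
      have h3 : (fun j => ev x (g j)) = fun j => ev x h' ^ m * ev x (k' j) := by
        funext i
        rw [hg', map_mul, map_pow]
      rw [h3, mx_smul, hU12 x (hy hx).1 s hs, w01]
      have h4 : (fun j => (r0 (g j)).coeff m) = fun j => ev (0, 0) (k' j) := funext hcm
      rw [h4]
      have h5 : w s m 1 (ev x h') = N p s (ev x h' ^ m) := by
        rw [w, N_pow, Nat.sub_self, pow_zero, mul_one]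
      rw [h5]
      ring
    unfold Zc
    rw [setLIntegral_congr_fun (CO_bx κ y l).meas h2, lintegral_const_mul' _ _ (mx_ne_top _ hs),
      curve_box h' hs a0 n0 m ε κ hv hu y l (hy.trans Set.inter_subset_right), ENNReal.toReal_mul,
      ENNReal.toReal_mul]
    push_cast
    rfl
  · intro hy1 s
    have hmem : ∀ x ∈ bx κ y l, ‖x.1‖ < ε ∧ ‖x.2‖ < ε := by
      intro x hx
      have := (hy hx).2
      rw [Set.mem_prod, Metric.mem_ball, Metric.mem_ball, dist_zero_right, dist_zero_right] at this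
      exact this
    have hyB := hmem y (self_mem_bx κ y l)
    have h0B : ‖(0 : ℚ_[p])‖ < ε := by rw [norm_zero]; exact hε
    have h2 := hu y.1 0 y.2 hyB.1 h0B hyB.2
    rw [sub_zero] at h2
    have h3 : ‖ev y h' - ev (0, y.2) h'‖ ≤ qr p ^ l := by
      rw [pow_add] at hy1
      exact le_of_mul_le_mul_right (h2.trans hy1) (pow_pos qr_pos κ)
    rw [I1_ball s m 1 l (b := ev (0, y.2) h') (b' := ev y h') (by rw [mem_bl]; exact h3)]
    refine I1_norm s m 1 l ?_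
    have h4 := hv 0 y.2 0 h0B hyB.2 h0B
    rw [ev_zero, h0', sub_zero, sub_zero] at h4
    exact h4

end Pool.Agent.Y230.PT
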