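import Pool.Agent.Y230.PT.Node

set_option autoImplicit false
set_option linter.unusedSectionVars false

/-! # The global model at a critical exceptional curve -/

namespace Pool.Agent.Y230.PT

open MeasureTheory Set Pool.Agent.W427.SMC
open scoped ENNReal
open Pool.Agent.Y230.RE

variable {p : ℕ} [Fact p.Prime]

attribute [local instance] msK bsK

variable {ι : Type} [Fintype ι] {T0 : ℂ}

/-- two linear forms -/
noncomputable def Lf (β : ι → ℚ_[p]) (a0 n0 a1 n1 : ℕ) (l0 l1 : ℚ_[p] × ℚ_[p] → ℚ_[p]) (s : ℝ)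
    (x : ℚ_[p] × ℚ_[p]) : ℝ≥0∞ := mx β s * (w s a0 n0 (l0 x) * w s a1 n1 (l1 x))

theorem ok_Lf (β : ι → ℚ_[p]) (a0 n0 a1 n1 : ℕ) (l0 l1 : ℚ_[p] × ℚ_[p] → ℚ_[p])
    (h0 : Continuous l0) (h1 : Continuous l1) : Ok (Lf β a0 n0 a1 n1 l0 l1) :=
  (Ok.sup fun j => ok_N (fun _ => β j) continuous_const).mul
    ((ok_w l0 h0 a0 n0).mul (ok_w l1 h1 a1 n1))

theorem CO.preimage {C : Set (ℚ_[p] × ℚ_[p])} (hC : CO C)
    (τ : (ℚ_[p] × ℚ_[p]) ≃ₜ (ℚ_[p] × ℚ_[p])) : CO (τ ⁻¹' C) :=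
  ⟨τ.isCompact_preimage.2 hC.cpt, hC.opn.preimage τ.continuous⟩

/-- `x` and `y - c x` -/
theorem Lf_xc (hT0 : T0 ≠ 0) (β : ι → ℚ_[p]) (hβ : ∃ j, β j ≠ 0) {a0 n0 a1 n1 : ℕ} (hn0 : 1 ≤ n0)
    (hn1 : 1 ≤ n1) (h0 : ¬ Crit p T0 a0 n0) (h1 : ¬ Crit p T0 a1 n1) (c : ℚ_[p])
    {C : Set (ℚ_[p] × ℚ_[p])} (hC : CO C) :
    Reg p T0 0 (Zc (Lf β a0 n0 a1 n1 (fun x => x.1) (fun x => x.2 - c * x.1)) C) := by
  have hf : Continuous (fun x : ℚ_[p] => c * x) := by fun_prop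
  refine (Mn_reg hT0 β hβ hn0 hn1 h0 h1 (hC.preimage (shV (fun x => c * x) hf))).congr
    fun s hs => ?_
  rw [Zc_shearV _ (ok_Lf _ _ _ _ _ _ _ (by fun_prop) (by fun_prop)) (fun x => c * x) hf hC hs]
  change Zc _ ((fun x : ℚ_[p] × ℚ_[p] => (x.1, c * x.1 + x.2)) ⁻¹' C) s = _
  unfold Zc
  congr 3
  funext x
  unfold Mn Lf
  simp only [add_sub_cancel_left]

/-- `y` and `y - c x` -/
theorem Lf_yc (hT0 : T0 ≠ 0) (β : ι → ℚ_[p]) (hβ : ∃ j, β j ≠ 0) {a0 n0 a1 n1 : ℕ} (hn0 : 1 ≤ n0)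
    (hn1 : 1 ≤ n1) (h0 : ¬ Crit p T0 a0 n0) (h1 : ¬ Crit p T0 a1 n1) (c : ℚ_[p]) (hc : c ≠ 0)
    {C : Set (ℚ_[p] × ℚ_[p])} (hC : CO C) :
    Reg p T0 0 (Zc (Lf β a0 n0 a1 n1 (fun x => x.2) (fun x => x.2 - c * x.1)) C) := by
  have hf : Continuous (fun y : ℚ_[p] => c⁻¹ * y) := by fun_prop
  have hα : -c⁻¹ ≠ 0 := neg_ne_zero.2 (inv_ne_zero hc)
  refine ((Reg.const (((N p 1 (-c⁻¹)).toReal : ℝ) : ℂ)).mul0 (Mn_reg hT0 β hβ hn1 hn0 h1 h0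
    (hC.preimage (shU (-c⁻¹) hα (fun y => c⁻¹ * y) hf)))).congr fun s hs => ?_
  rw [Zc_shearU _ (ok_Lf _ _ _ _ _ _ _ (by fun_prop) (by fun_prop)) (-c⁻¹) hα
    (fun y => c⁻¹ * y) hf hC hs]
  change _ = Zc _ ((fun x : ℚ_[p] × ℚ_[p] => (c⁻¹ * x.2 + -c⁻¹ * x.1, x.2)) ⁻¹' C) s
  change _ * Zc _ ((fun x : ℚ_[p] × ℚ_[p] => (c⁻¹ * x.2 + -c⁻¹ * x.1, x.2)) ⁻¹' C) s = _
  unfold Zc
  rw [← Complex.ofReal_mul, ← ENNReal.toReal_mul, ← lintegral_const_mul' _ _ (N_ne_top _ _)]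
  congr 3
  funext x
  unfold Mn Lf
  have e : x.2 - c * (c⁻¹ * x.2 + -c⁻¹ * x.1) = x.1 := by field_simp; ring
  simp only [e]
  ring

/-- `y - c x` and `y - c' x` -/
theorem Lf_cc (hT0 : T0 ≠ 0) (β : ι → ℚ_[p]) (hβ : ∃ j, β j ≠ 0) {a0 n0 a1 n1 : ℕ} (hn0 : 1 ≤ n0)
    (hn1 : 1 ≤ n1) (h0 : ¬ Crit p T0 a0 n0) (h1 : ¬ Crit p T0 a1 n1) (c c' : ℚ_[p]) (hc : c ≠ c')
    {C : Set (ℚ_[p] × ℚ_[p])} (hC : CO C) :
    Reg p T0 0 (Zc (Lf β a0 n0 a1 n1 (fun x => x.2 - c * x.1) (fun x => x.2 - c' * x.1)) C) := by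
  have hf : Continuous (fun x : ℚ_[p] => c * x) := by fun_prop
  refine (Lf_yc hT0 β hβ hn0 hn1 h0 h1 (c' - c) (sub_ne_zero.2 hc.symm)
    (hC.preimage (shV (fun x => c * x) hf))).congr fun s hs => ?_
  rw [Zc_shearV _ (ok_Lf _ _ _ _ _ _ _ (by fun_prop) (by fun_prop)) (fun x => c * x) hf hC hs]
  change Zc _ ((fun x : ℚ_[p] × ℚ_[p] => (x.1, c * x.1 + x.2)) ⁻¹' C) s = _
  unfold Zc
  congr 3
  funext x
  unfold Lf
  have e : c * x.1 + x.2 - c' * x.1 = x.2 - (c' - c) * x.1 := by ring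
  simp only [add_sub_cancel_left, e]

/-- The lines at a critical exceptional curve. -/
structure Spec (T0 : ℂ) (P : Polynomial ℚ_[p]) (m a0 n0 a1 n1 : ℕ) (γ : ℚ_[p]) (μ0 : ℕ)
    (T : Finset ℚ_[p]) (μ : ℚ_[p] → ℕ) : Prop where
  hγ : γ ≠ 0
  hP : P = Polynomial.C γ * (Polynomial.X ^ μ0 * ∏ c ∈ T, (Polynomial.X - Polynomial.C c) ^ μ c)
  h0T : 0 ∉ T
  hdeg : μ0 + ∑ c ∈ T, μ c ≤ m
  hI : ¬ Crit p T0 (a0 + (m - (μ0 + ∑ c ∈ T, μ c))) n0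
  h0 : ¬ Crit p T0 (a1 + μ0) n1
  hc : ∀ c ∈ T, ¬ Crit p T0 (μ c) 1
  hcard : T.card ≤ 2
  h1 : T.card = 1 → (a0 + (m - (μ0 + ∑ c ∈ T, μ c)) = 0 ∧ n0 = 1) ∨ (a1 + μ0 = 0 ∧ n1 = 1)
  h2 : T.card = 2 → (a0 + (m - (μ0 + ∑ c ∈ T, μ c)) = 0 ∧ n0 = 1) ∧ (a1 + μ0 = 0 ∧ n1 = 1)

/-- the product over the lines -/
noncomputable def Lp (T : Finset ℚ_[p]) (μ : ℚ_[p] → ℕ) (x : ℚ_[p] × ℚ_[p]) : ℚ_[p] :=
  ∏ c ∈ T, (x.2 - c * x.1) ^ μ c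

theorem Lp_cont (T : Finset ℚ_[p]) (μ : ℚ_[p] → ℕ) : Continuous (Lp T μ) := by
  unfold Lp
  exact continuous_finsetProd _ fun c _ => by fun_prop

/-- the global model -/
noncomputable def Ph (β : ι → ℚ_[p]) (aI n0 a0 n1 : ℕ) (T : Finset ℚ_[p]) (μ : ℚ_[p] → ℕ) (s : ℝ)
    (x : ℚ_[p] × ℚ_[p]) : ℝ≥0∞ := mx β s * (w s aI n0 x.1 * w s a0 n1 x.2 * N p s (Lp T μ x))

theorem ok_Ph (β : ι → ℚ_[p]) (aI n0 a0 n1 : ℕ) (T : Finset ℚ_[p]) (μ : ℚ_[p] → ℕ) :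
    Ok (Ph β aI n0 a0 n1 T μ) :=
  (Ok.sup fun j => ok_N (fun _ => β j) continuous_const).mul
    (((ok_w (fun x => x.1) continuous_fst aI n0).mul (ok_w (fun x => x.2) continuous_snd a0 n1)).mul
      (ok_N _ (Lp_cont T μ)))

theorem w1_eq (s : ℝ) (m : ℕ) (x : ℚ_[p]) : w s m 1 x = N p s (x ^ m) := by
  rw [w, N_pow, Nat.sub_self, pow_zero, mul_one]

/-- **The global model is regular.** -/
theorem Ph_reg (hT0 : T0 ≠ 0) {P : Polynomial ℚ_[p]} {m a0 n0 a1 n1 : ℕ} (hn0 : 1 ≤ n0)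
    (hn1 : 1 ≤ n1) {γ : ℚ_[p]} {μ0 : ℕ} {T : Finset ℚ_[p]} {μ : ℚ_[p] → ℕ}
    (hS : Spec T0 P m a0 n0 a1 n1 γ μ0 T μ) (β : ι → ℚ_[p]) (hβ : ∃ j, β j ≠ 0)
    {C : Set (ℚ_[p] × ℚ_[p])} (hC : CO C) :
    Reg p T0 0 (Zc (Ph β (a0 + (m - (μ0 + ∑ c ∈ T, μ c))) n0 (a1 + μ0) n1 T μ) C) := by
  classical
  have hcard := hS.hcard
  have hcase : T.card = 0 ∨ T.card = 1 ∨ T.card = 2 := by omega
  rcases hcase with h | h | h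
  · rw [Finset.card_eq_zero] at h
    subst h
    refine (Mn_reg hT0 β hβ hn0 hn1 hS.hI hS.h0 hC).congr fun s hs => ?_
    unfold Zc
    congr 3
    funext x
    unfold Mn Ph Lp
    rw [Finset.prod_empty, N_one, mul_one]
  · have hh := hS.h1 h
    obtain ⟨c, rfl⟩ := Finset.card_eq_one.1 h
    have hcT := hS.hc c (Finset.mem_singleton_self c)
    have hc0 : c ≠ 0 := by
      rintro rfl
      exact hS.h0T (Finset.mem_singleton_self _)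
    rcases hh with hh | hh
    · obtain ⟨e1, e2⟩ := hh
      refine (Lf_yc hT0 β hβ hn1 le_rfl hS.h0 hcT c hc0 hC).congr fun s hs => ?_
      unfold Zc
      congr 3
      funext x
      unfold Lf Ph Lp
      rw [e1, e2, w01, one_mul, Finset.prod_singleton, w1_eq s (μ c)]
    · obtain ⟨e1, e2⟩ := hh
      refine (Lf_xc hT0 β hβ hn0 le_rfl hS.hI hcT c hC).congr fun s hs => ?_
      unfold Zc
      congr 3
      funext x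
      unfold Lf Ph Lp
      rw [e1, e2, w01, mul_one, Finset.prod_singleton, w1_eq s (μ c)]
  · obtain ⟨⟨e1, e2⟩, e3, e4⟩ := hS.h2 h
    have hTc := hS.hc
    obtain ⟨c, c', hcc, rfl⟩ := Finset.card_eq_two.1 h
    refine (Lf_cc hT0 β hβ le_rfl le_rfl (hTc c (by simp)) (hTc c' (by simp)) c c' hcc hC).congr
      fun s hs => ?_
    unfold Zc
    congr 3
    funext x
    unfold Lf Ph Lp
    rw [e1, e2, e3, e4, w01, w01, one_mul, one_mul, Finset.prod_pair hcc, w1_eq, w1_eq, N_mul]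

theorem Ph_c1 (β : ι → ℚ_[p]) (aI n0 a0 n1 : ℕ) (hn0 : 1 ≤ n0) (hn1 : 1 ≤ n1) (T : Finset ℚ_[p])
    (μ : ℚ_[p] → ℕ) (s : ℝ) (x : ℚ_[p] × ℚ_[p]) :
    H1 (Ph β aI n0 a0 n1 T μ) s x = mx β s * (w s (aI + a0 + ∑ c ∈ T, μ c) (n0 + n1) x.1 *
      w s a0 n1 x.2 * N p s (∏ c ∈ T, (x.2 - c) ^ μ c)) := by
  unfold H1 Ph
  have h1 : Lp T μ (c1 x) = x.1 ^ (∑ c ∈ T, μ c) * ∏ c ∈ T, (x.2 - c) ^ μ c := by
    unfold Lp
    rw [← Finset.prod_pow_eq_pow_sum, ← Finset.prod_mul_distrib]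
    refine Finset.prod_congr rfl fun c _ => ?_
    change (x.1 * x.2 - c * x.1) ^ μ c = _
    rw [← mul_pow]
    congr 1
    ring
  rw [h1, N_mul, N_pow, w_add, w_add' s aI a0 n0 n1 hn0 hn1]
  change N p 1 x.1 * (_ * (w s aI n0 x.1 * w s a0 n1 (x.1 * x.2) * _)) = _
  rw [w_mul]
  ring

theorem Ph_c2 (β : ι → ℚ_[p]) (aI n0 a0 n1 : ℕ) (hn0 : 1 ≤ n0) (hn1 : 1 ≤ n1) (T : Finset ℚ_[p])
    (μ : ℚ_[p] → ℕ) (s : ℝ) (x : ℚ_[p] × ℚ_[p]) :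
    H2 (Ph β aI n0 a0 n1 T μ) s x = mx β s * (w s aI n0 x.1 *
      w s (aI + a0 + ∑ c ∈ T, μ c) (n0 + n1) x.2 * N p s (∏ c ∈ T, (1 - c * x.1) ^ μ c)) := by
  unfold H2 Ph
  have h1 : Lp T μ (c2 x) = x.2 ^ (∑ c ∈ T, μ c) * ∏ c ∈ T, (1 - c * x.1) ^ μ c := by
    unfold Lp
    rw [← Finset.prod_pow_eq_pow_sum, ← Finset.prod_mul_distrib]
    refine Finset.prod_congr rfl fun c _ => ?_
    change (x.2 - c * (x.1 * x.2)) ^ μ c = _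
    rw [← mul_pow]
    congr 1
    ring
  rw [h1, N_mul, N_pow, w_add, w_add' s aI a0 n0 n1 hn0 hn1]
  change N p 1 x.2 * (_ * (w s aI n0 (x.1 * x.2) * w s a0 n1 x.2 * _)) = _
  rw [w_mul]
  ring

/-- the order of a polynomial at a point -/
theorem poly_near (P : Polynomial ℚ_[p]) (hP : P ≠ 0) (c : ℚ_[p]) :
    ∃ (ρ : ℕ) (κ : ℚ_[p]) (V : Set ℚ_[p]), κ ≠ 0 ∧ IsOpen V ∧ 0 ∈ V ∧
      (∀ i < ρ, (P.comp (Polynomial.X + Polynomial.C c)).coeff i = 0) ∧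
      (P.comp (Polynomial.X + Polynomial.C c)).coeff ρ = κ ∧
      ∀ v ∈ V, ∀ s : ℝ, N p s (P.eval (c + v)) = N p s κ * N p s v ^ ρ := by
  obtain ⟨Q, hQ1, hQ2⟩ := P.exists_eq_pow_rootMultiplicity_mul_and_not_dvd hP c
  rw [Polynomial.dvd_iff_isRoot, Polynomial.IsRoot] at hQ2
  set ρ := P.rootMultiplicity c with hρ
  have hcomp : P.comp (Polynomial.X + Polynomial.C c) = Polynomial.X ^ ρ *
      Q.comp (Polynomial.X + Polynomial.C c) := by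
    rw [hQ1, Polynomial.mul_comp, Polynomial.pow_comp, Polynomial.sub_comp, Polynomial.X_comp,
      Polynomial.C_comp, add_sub_cancel_right]
  obtain ⟨V, hV, h0V, hV2⟩ := norm_const_near (fun v : ℚ_[p] => Q.eval (c + v))
    (Q.continuous.comp (by fun_prop)) 0 (by simpa using hQ2)
  refine ⟨ρ, Q.eval c, V, hQ2, hV, h0V, ?_, ?_, fun v hv s => ?_⟩
  · intro i hi
    rw [hcomp, Polynomial.coeff_X_pow_mul', if_neg (by omega)]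
  · rw [hcomp, Polynomial.coeff_X_pow_mul', if_pos le_rfl, Nat.sub_self,
      Polynomial.coeff_zero_eq_eval_zero, Polynomial.eval_comp]
    simp
  · have h1 : P.eval (c + v) = v ^ ρ * Q.eval (c + v) := by
      rw [hQ1, Polynomial.eval_mul, Polynomial.eval_pow, Polynomial.eval_sub, Polynomial.eval_X,
        Polynomial.eval_C, add_sub_cancel_left]
    have h2 := hV2 v hv
    simp only [add_zero] at h2
    rw [h1, N_mul, N_pow, N_norm s h2, mul_comm]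

end Pool.Agent.Y230.PT
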