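import Pool.Agent.Y230.PT.Spec
import Pool.Agent.Y230.PL.Zeta

set_option autoImplicit false
set_option linter.unusedSectionVars false
set_option linter.unusedVariables false

/-! # The local theorems -/

namespace Pool.Agent.Y230.PT

open Pool.Agent.W574.SM Pool.Agent.Y230.RE Pool.Agent.Y230.PL Polynomial

section Child

variable {k : Type} [Field k] [CharZero k] (φ : k →+* ℂ) {ι : Type}

/-- the children over the complex numbers -/
noncomputable def gcC (g0 : ι → A k) (c : ℂ) (j : ι) : MP :=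
  MvPolynomial.aeval ![MvPolynomial.X 0, MvPolynomial.X 1 + MvPolynomial.C c] (mp φ (g0 j))

theorem gcC_eq {g g0 : ι → A k} {m : ℕ}
    (h0 : ∀ j, MvPolynomial.aeval (ch 0) (g j) = MvPolynomial.X 0 ^ m * g0 j) (c : ℂ) (j : ι) :
    MvPolynomial.aeval (chart c) (mp φ (g j)) = MvPolynomial.X 0 ^ m * gcC φ g0 c j := by
  have h1 := congrArg (mp φ) (h0 j)
  rw [mp_ch, mp_mul, mp_pow, mp_X, map_zero] at h1
  have h2 : (MvPolynomial.aeval ![MvPolynomial.X 0, MvPolynomial.X 1 + MvPolynomial.C c] :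
      MP →ₐ[ℂ] MP).comp (MvPolynomial.aeval (chart 0)) = MvPolynomial.aeval (chart c) := by
    apply ext2
    · rw [AlgHom.comp_apply, chart_X0, MvPolynomial.aeval_X, chart_X0]
      rfl
    · rw [AlgHom.comp_apply, chart_X1, chart_X1, map_mul, map_add, MvPolynomial.aeval_X,
        MvPolynomial.aeval_X, map_zero, map_zero, add_zero]
      rfl
  have h3 := congrArg (MvPolynomial.aeval ![MvPolynomial.X 0, MvPolynomial.X 1 +
    MvPolynomial.C c] : MP →ₐ[ℂ] MP) h1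
  rw [← AlgHom.comp_apply, h2, map_mul, map_pow, MvPolynomial.aeval_X] at h3
  exact h3

theorem gcC_k {g : ι → A k} {gc : k → ι → A k} {m : ℕ}
    (hgc : ∀ c j, MvPolynomial.aeval (ch c) (g j) = MvPolynomial.X 0 ^ m * gc c j) (x : k) (j : ι) :
    gcC φ (gc 0) (φ x) j = mp φ (gc x j) := by
  have h1 := gcC_eq φ (g := g) (g0 := gc 0) (hgc 0) (φ x) j
  have h2 := congrArg (mp φ) (hgc x j)
  rw [mp_ch, mp_mul, mp_pow, mp_X, h1] at h2
  exact mul_left_cancel₀ (pow_ne_zero _ (MvPolynomial.X_ne_zero 0)) h2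

theorem gcC_0 {g : ι → A k} {gc : k → ι → A k} {m : ℕ}
    (hgc : ∀ c j, MvPolynomial.aeval (ch c) (g j) = MvPolynomial.X 0 ^ m * gc c j) (j : ι) :
    gcC φ (gc 0) 0 j = mp φ (gc 0 j) := by
  have := gcC_k φ hgc 0 j
  rwa [map_zero] at this

theorem chI_mp {g gI : ι → A k} {m : ℕ}
    (hgI : ∀ j, MvPolynomial.aeval chI (g j) = MvPolynomial.X 1 ^ m * gI j) (j : ι) :
    MvPolynomial.aeval chartI (mp φ (g j)) = MvPolynomial.X 1 ^ m * mp φ (gI j) := by
  rw [← mp_chI, hgI, mp_mul, mp_pow, mp_X]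

end Child

section Rr

variable {p : ℕ} [Fact p.Prime]

/-- the real number attached to `T0` -/
noncomputable def rr (p : ℕ) (T0 : ℂ) : ℝ := -Real.log ‖T0‖ / Real.log p

theorem crit_r {T0 : ℂ} (hT0 : T0 ≠ 0) (a n : ℕ) (h : Crit p T0 a n) :
    (n : ℂ) + ((rr p T0 : ℝ) : ℂ) * (a : ℂ) = 0 := by
  have hp : (1 : ℝ) < p := by exact_mod_cast (Fact.out : p.Prime).one_lt
  have hlp : 0 < Real.log p := Real.log_pos hp
  have h1 := congrArg norm h
  rw [norm_pow, norm_pow, Complex.norm_natCast] at h1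
  have h2 := congrArg Real.log h1
  rw [Real.log_pow, Real.log_pow] at h2
  have h3 : (n : ℝ) + rr p T0 * a = 0 := by
    rw [rr]
    field_simp
    linarith
  exact_mod_cast h3

theorem not_crit_small {T0 : ℂ} (hT : ‖T0‖ ≤ 1) (a n : ℕ) (hn : 1 ≤ n) : ¬ Crit p T0 a n := by
  intro h
  have h1 := congrArg norm h
  rw [norm_pow, norm_pow, Complex.norm_natCast] at h1
  have h2 : ‖T0‖ ^ a ≤ 1 := pow_le_one₀ (norm_nonneg _) hT
  have h3 : (1 : ℝ) < (p : ℝ) ^ n := one_lt_pow₀ (by exact_mod_cast (Fact.out : p.Prime).one_lt)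
    (by omega)
  linarith

end Rr

section Ctx

variable {p : ℕ} [Fact p.Prime] {ι : Type} [Fintype ι] [DecidableEq ι]

theorem ord0_mp (φ : ℚ_[p] →+* ℂ) {g : ι → A ℚ_[p]} {ρ : ℕ} (h : IsO (fun j => r0 (g j)) ρ) :
    Ord0 (fun j => mp φ (g j)) ρ := by
  constructor
  · intro j i hi
    rw [← mp_r0, coeff_map, h.1 j i hi, map_zero]
  · obtain ⟨j, hj⟩ := h.2
    refine ⟨j, ?_⟩
    rw [← mp_r0, coeff_map]
    exact fun h0 => hj ((map_eq_zero φ).1 h0)

theorem ord1_mp (φ : ℚ_[p] →+* ℂ) {g : ι → A ℚ_[p]} {ρ : ℕ} (h : IsO (fun j => r1 (g j)) ρ) :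
    Ord1 (fun j => mp φ (g j)) ρ := by
  constructor
  · intro j i hi
    rw [← mp_r1, coeff_map, h.1 j i hi, map_zero]
  · obtain ⟨j, hj⟩ := h.2
    refine ⟨j, ?_⟩
    rw [← mp_r1, coeff_map]
    exact fun h0 => hj ((map_eq_zero φ).1 h0)

/-- the types of the curves -/
def TC (g : ι → A ℚ_[p]) (d0 d1 : Bool) (a0 n0 a1 n1 : ℕ) : Prop :=
  1 ≤ n0 ∧ 1 ≤ n1 ∧ (d0 = false → a0 = 0 ∧ n0 = 1) ∧ (d1 = false → a1 = 0 ∧ n1 = 1)

theorem closed_TC : Closed (TC (p := p) (ι := ι)) where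
  pos _ _ _ _ _ _ _ h := ⟨h.1, h.2.1⟩
  ty0 _ _ _ _ _ _ h := h.2.2.1 rfl
  ty1 _ _ _ _ _ _ h := h.2.2.2 rfl
  child g d0 d1 a0 n0 a1 n1 m gc gI hm hgc hgI hne h := by
    obtain ⟨h1, h2, h3, h4⟩ := h
    refine ⟨⟨by omega, h2, fun h => by simp at h, h4⟩, fun c _ => ⟨by omega, le_rfl,
      fun h => by simp at h, fun _ => ⟨rfl, rfl⟩⟩, ⟨h1, by omega, h3, fun h => by simp at h⟩⟩

/-- the context without a root -/
def IC (φ : ℚ_[p] →+* ℂ) (f : ι → A ℚ_[p]) (r : ℂ) (g : ι → A ℚ_[p]) (d0 d1 : Bool)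
    (a0 n0 a1 n1 : ℕ) : Prop :=
  TC g d0 d1 a0 n0 a1 n1 ∧ Inv (fun j => mp φ (f j)) r (fun j => mp φ (g j)) a0 n0 a1 n1

theorem closed_IC (φ : ℚ_[p] →+* ℂ) (f : ι → A ℚ_[p]) (b : ℂ[X])
    (hb : IsFunctionalEq (fun j => mp φ (f j)) b) (r : ℂ) (hr : b.eval r ≠ 0) :
    Closed (IC φ f r) where
  pos _ _ _ _ _ _ _ h := ⟨h.1.1, h.1.2.1⟩
  ty0 _ _ _ _ _ _ h := h.1.2.2.1 rfl
  ty1 _ _ _ _ _ _ h := h.1.2.2.2 rfl
  child g d0 d1 a0 n0 a1 n1 m gc gI hm hgc hgI hne h := by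
    obtain ⟨hT, hI⟩ := h
    obtain ⟨t0, tc, tI⟩ := closed_TC.child g d0 d1 a0 n0 a1 n1 m gc gI hm hgc hgI hne hT
    obtain ⟨j0, hj0⟩ := hne
    have hP0 : res0 (gcC φ (gc 0) 0 j0) ≠ 0 := by
      rw [gcC_0 φ hgc, ← mp_r0, Ne, Polynomial.map_eq_zero]
      exact hj0
    obtain ⟨i0, ic, iI⟩ := inv_children (fun j => mp φ (f j)) b hb r hr m hm
      (fun c j => gcC φ (gc 0) c j) (fun j => mp φ (gI j))
      (fun c j => gcC_eq φ (hgc 0) c j) (chI_mp φ hgI) j0 hP0 hI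
    refine ⟨⟨t0, ?_⟩, fun c hc => ⟨tc c hc, ?_⟩, ⟨tI, iI⟩⟩
    · have : (fun j => mp φ (gc 0 j)) = fun j => gcC φ (gc 0) 0 j := by
        funext j
        rw [gcC_0 φ hgc]
      rw [this]
      exact i0
    · have : (fun j => mp φ (gc c j)) = fun j => gcC φ (gc 0) (φ c) j := by
        funext j
        rw [gcC_k φ hgc]
      rw [this]
      exact ic (φ c) (fun h => hc ((map_eq_zero φ).1 h))

/-- **No pole at a point.** -/
theorem local_C (φ : ℚ_[p] →+* ℂ) (f : ι → A ℚ_[p]) (b : ℂ[X])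
    (hb : IsFunctionalEq (fun j => mp φ (f j)) b) {T0 : ℂ} (hT0 : T0 ≠ 0)
    (hr : b.eval ((rr p T0 : ℝ) : ℂ) ≠ 0) (P : Fin 2 → ℚ_[p]) (hne : ∃ j, f j ≠ 0) :
    LReg T0 0 (Zc (Hn (fun j => MvPolynomial.aeval
      (fun i => MvPolynomial.X i + MvPolynomial.C (P i)) (f j) : ι → A ℚ_[p]) 0 1 0 1)) (0, 0) := by
  set r : ℂ := ((rr p T0 : ℝ) : ℂ) with hrdef
  set g : ι → A ℚ_[p] := fun j => MvPolynomial.aeval
      (fun i => MvPolynomial.X i + MvPolynomial.C (P i)) (f j) with hg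
  have hgne : ∃ j, g j ≠ 0 := by
    obtain ⟨j, hj⟩ := hne
    refine ⟨j, fun h => hj ?_⟩
    have h1 : (MvPolynomial.aeval (fun i => MvPolynomial.X i - MvPolynomial.C (P i)) :
        A ℚ_[p] →ₐ[ℚ_[p]] A ℚ_[p]).comp
        (MvPolynomial.aeval (fun i => MvPolynomial.X i + MvPolynomial.C (P i))) =
        AlgHom.id _ _ := by
      refine MvPolynomial.algHom_ext fun i => ?_
      simp
    have h2 := congrArg (fun ψ : A ℚ_[p] →ₐ[ℚ_[p]] A ℚ_[p] => ψ (f j)) h1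
    simp only [AlgHom.comp_apply, AlgHom.id_apply] at h2
    rw [← h2]
    change MvPolynomial.aeval _ (g j) = 0
    rw [h, map_zero]
  have hT : KT g false false := exists_KT g false false hgne (by simp) (by simp)
  have hcr : ∀ a n : ℕ, Crit p T0 a n → (n : ℂ) + r * (a : ℂ) = 0 := fun a n h => crit_r hT0 a n h
  have hcr' : ∀ a n : ℕ, Crit p T0 a n → (n : ℂ) + (a : ℂ) * r = 0 := fun a n h => by
    rw [mul_comm]
    exact hcr a n h
  have hcurve : ∀ m : ℕ, 1 ≤ m → b.eval (-1 / (m : ℂ)) = 0 → ¬ Crit p T0 m 1 := by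
    intro m hm h1 h2
    apply hr
    have hmc : (m : ℂ) ≠ 0 := Nat.cast_ne_zero.2 (by omega)
    have h3 : r = -1 / (m : ℂ) := by
      rw [eq_div_iff hmc]
      have := hcr _ _ h2
      push_cast at this
      linear_combination this
    rw [h3]
    exact h1
  have hCC := main_C hT0 (IC φ f r) (closed_IC φ f b hb r hr)
    (fun g d0 d1 a0 n0 a1 n1 hc j hj ⟨h1, h2⟩ => by
      have ho : Ord0 (fun j => mp φ (g j)) 0 := ⟨fun i k hk => absurd hk (Nat.not_lt_zero k), j, by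
        rw [coeff_res0, mp_cc]
        exact fun h => hj ((map_eq_zero φ).1 h)⟩
      have h3 := hc.2.hH0 (hcr' _ _ h1) 0 ho
      rw [add_zero] at h3
      exact h3 (hcr _ _ h2))
    (fun g d0 a0 n0 m hm hc h κ hgj h0 h1 j hj => by
      refine hcurve m hm ?_
      obtain ⟨ξ, W, W', hW, hW', hf, hJ⟩ := hc.2.geom
      refine node_curveV _ b hb ξ W W' hW hW' a0 n0 m (by omega) (mp φ h) (fun j => mp φ (κ j))
        ?_ ?_ (by rw [mp_cc, h0, map_zero]) (by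
          rw [mp_pderiv, mp_cc]
          exact fun h => h1 ((map_eq_zero φ).1 h)) j (by
          rw [mp_cc]
          exact fun h => hj ((map_eq_zero φ).1 h))
      · intro i
        rw [hf]
        beta_reduce
        rw [hgj, pow_zero, mul_one, mp_mul, mp_pow]
      · rw [hJ, Nat.sub_self, pow_zero, mul_one])
    (fun g d1 a1 n1 m hm hc h κ hgj h0 h1 j hj => by
      refine hcurve m hm ?_
      obtain ⟨ξ, W, W', hW, hW', hf, hJ⟩ := hc.2.geom
      refine node_curveU _ b hb ξ W W' hW hW' a1 n1 m (by omega) (mp φ h) (fun j => mp φ (κ j))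
        ?_ ?_ (by rw [mp_cc, h0, map_zero]) (by
          rw [mp_pderiv, mp_cc]
          exact fun h => h1 ((map_eq_zero φ).1 h)) j (by
          rw [mp_cc]
          exact fun h => hj ((map_eq_zero φ).1 h))
      · intro i
        rw [hf]
        beta_reduce
        rw [hgj, pow_zero, one_mul, mp_mul, mp_pow]
      · rw [hJ, Nat.sub_self, pow_zero, one_mul])
    (fun g d0 d1 a0 n0 a1 n1 m gc gI hm hgc hgI hne' hc hcrit => by
      obtain ⟨j0, hj0⟩ := hne'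
      have hI := hc.2
      have hP0 : res0 (gcC φ (gc 0) 0 j0) ≠ 0 := by
        rw [gcC_0 φ hgc, ← mp_r0, Ne, Polynomial.map_eq_zero]
        exact hj0
      have hmult : IsMult (fun j => mp φ (g j)) m :=
        ⟨⟨fun j => gcC φ (gc 0) 0 j, fun j => gcC_eq φ (hgc 0) 0 j⟩,
          ⟨fun j => mp φ (gI j), fun j => chI_mp φ hgI j⟩⟩
      obtain ⟨hlam, hdeg, hA0, hAI, hAc, T, hT, hcard, h1, h2, hsum, hrel⟩ :=
        crit_struct (fun j => mp φ (f j)) b hb (fun j => mp φ (g j)) a0 n0 a1 n1 hI.hn0 hI.hn1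
          hI.geom m hm (fun c j => gcC φ (gc 0) c j) (fun j => mp φ (gI j))
          (fun c j => gcC_eq φ (hgc 0) c j) (chI_mp φ hgI) j0 hP0 (hI.hJ1 m hmult) hI.hJ2 hI.hJ2'
          hI.hz0 hI.hz1 r hr (hcr' _ _ hcrit)
      have hPP : res0 (gcC φ (gc 0) 0 j0) = (r0 (gc 0 j0)).map φ := by
        rw [gcC_0 φ hgc, ← mp_r0]
      rw [hPP] at hdeg hA0 hAI hsum hrel h1 h2
      simp only [hPP] at hAc hT hsum hrel
      obtain ⟨γ, μ0, T', μ, hS⟩ := spec_of φ T0 r hcr (r0 (gc 0 j0)) hj0 m a0 n0 a1 n1 hdeg hA0 hAI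
        hAc T hT hcard h1 h2 hsum hrel
      set d := (r0 (gc 0 j0)).natDegree with hd
      have hlc : (r0 (gc 0 j0)).coeff d ≠ 0 := leadingCoeff_ne_zero.2 hj0
      refine ⟨fun j => (r0 (gc 0 j)).coeff d / (r0 (gc 0 j0)).coeff d, r0 (gc 0 j0), γ, μ0, T', μ,
        fun j => ?_, hS⟩
      obtain ⟨l, hl⟩ := hlam j
      rw [hPP, gcC_0 φ hgc, ← mp_r0] at hl
      have hl2 : φ ((r0 (gc 0 j)).coeff d / (r0 (gc 0 j0)).coeff d) = l := by
        have h3 := congrArg (fun Q : ℂ[X] => Q.coeff d) hl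
        simp only [coeff_map, coeff_C_mul] at h3
        rw [map_div₀, h3]
        exact mul_div_cancel_right₀ _ (fun h => hlc ((map_eq_zero φ).1 h))
      apply Polynomial.map_injective φ φ.injective
      rw [hl, Polynomial.map_mul, Polynomial.map_C, hl2])
    (fun g d0 d1 a0 n0 a1 n1 hc hcrit ρ hρ h => by
      have h3 := hc.2.hH0 (hcr' _ _ hcrit) ρ (ord0_mp φ hρ)
      exact h3 (hcr _ _ h))
    (fun g d0 d1 a0 n0 a1 n1 hc hcrit ρ hρ h => by
      have h3 := hc.2.hH1 (hcr' _ _ hcrit) ρ (ord1_mp φ hρ)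
      exact h3 (hcr _ _ h))
    hT 0 1 0 1 ⟨⟨le_rfl, le_rfl, fun _ => ⟨rfl, rfl⟩, fun _ => ⟨rfl, rfl⟩⟩, by
      have h1 : (fun j => mp φ (g j)) = fun j => W574.SM.translate (fun i => φ (P i))
          (mp φ (f j)) := by
        funext j
        exact mp_tr φ P (f j)
      rw [h1]
      exact inv_initial _ r _⟩
  refine (hCC 0 0 (fun h => absurd h not_crit01) (fun h => absurd h not_crit01)).congr
    isOpen_univ trivial fun C _ _ s _ => ?_
  rw [crr_false not_crit01, crr_false not_crit01, sub_zero, sub_zero]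

end Ctx

end Pool.Agent.Y230.PT
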