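import Pool.Agent.Y230.PT.Local

set_option autoImplicit false
set_option linter.unusedSectionVars false
set_option linter.unusedVariables false

/-! # The orders of the poles at a point -/

namespace Pool.Agent.Y230.PT

open Pool.Agent.W574.SM Pool.Agent.Y230.RE Pool.Agent.Y230.PL Polynomial

section Trees

variable {ι : Type}

/-- the trees exist -/
theorem exists_LT {g : ι → MP} {d0 d1 : Bool} (hT : KT (k := ℂ) g d0 d1) : ∀ a0 n0 a1 n1 : ℕ,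
    (d0 = false → a0 = 0 ∧ n0 = 1) → (d1 = false → a1 = 0 ∧ n1 = 1) →
    ∃ Λ : Set Pr, LT g a0 n0 a1 n1 Λ := by
  classical
  induction hT with
  | unit g d0 d1 j hj =>
    intro a0 n0 a1 n1 _ _
    exact ⟨_, LT.unit g a0 n0 a1 n1 j hj⟩
  | curveV g d0 m hm h κ hg h0 h1 j hj =>
    intro a0 n0 a1 n1 _ ht1
    obtain ⟨rfl, rfl⟩ := ht1 rfl
    exact ⟨_, LT.curveV g a0 n0 m hm h κ hg h0 h1 j hj⟩
  | curveU g d1 m hm h κ hg h0 h1 j hj =>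
    intro a0 n0 a1 n1 ht0 _
    obtain ⟨rfl, rfl⟩ := ht0 rfl
    exact ⟨_, LT.curveU g a1 n1 m hm h κ hg h0 h1 j hj⟩
  | blowup g d0 d1 m hm gc gI hgc hgI hne h0 hcc hI ih0 ihc ihI =>
    intro a0 n0 a1 n1 ht0 ht1
    obtain ⟨j0, hj0⟩ := hne
    have hres : ∀ c, r0 (gc c j0) = (r0 (gc 0 j0)).comp (X + C c) := fun c => by
      rw [ch_shift (hgc 0 j0) (hgc c j0), r0_shift]
    have hall : ∀ c : ℂ, ∃ Λ : Set Pr, (c = 0 → LT (gc 0) (a0 + a1 + m) (n0 + n1) a1 n1 Λ) ∧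
        (c ≠ 0 → LT (gc c) (a0 + a1 + m) (n0 + n1) 0 1 Λ) := by
      intro c
      by_cases hc : c = 0
      · obtain ⟨Λ, hΛ⟩ := ih0 (a0 + a1 + m) (n0 + n1) a1 n1 (by simp) ht1
        exact ⟨Λ, fun _ => hΛ, fun h => absurd hc h⟩
      · obtain ⟨Λ, hΛ⟩ := ihc c hc (a0 + a1 + m) (n0 + n1) 0 1 (by simp) (fun _ => ⟨rfl, rfl⟩)
        exact ⟨Λ, fun h => absurd h hc, fun _ => hΛ⟩
    choose Λc hΛc using hall
    obtain ⟨ΛI, hΛI⟩ := ihI a0 n0 (a0 + a1 + m) (n0 + n1) ht0 (by simp)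
    refine ⟨_, LT.blowup g a0 n0 a1 n1 m hm gc gI hgc hgI
      (insert 0 (r0 (gc 0 j0)).roots.toFinset) (Finset.mem_insert_self _ _) ?_ Λc ΛI
      ((hΛc 0).1 rfl) (fun c _ hc => (hΛc c).2 hc) hΛI⟩
    intro c hc
    refine ⟨j0, ?_⟩
    have h1 : MvPolynomial.constantCoeff (gc c j0) = (r0 (gc 0 j0)).eval c := by
      rw [cc_eq, ← r0_coeff, hres, coeff_zero_eq_eval_zero, eval_comp]
      simp
    rw [h1]
    intro h
    apply hc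
    rw [Finset.mem_insert, Multiset.mem_toFinset]
    exact Or.inr ((mem_roots hj0).2 h)

/-- a crossing of two critical curves -/
def DZ (r : ℂ) (g : ι → MP) (a0 n0 a1 n1 : ℕ) : Prop :=
  ∃ Λ : Set Pr, LT g a0 n0 a1 n1 Λ ∧ ∃ q ∈ Λ, ZC r q

theorem DZ_parent (r : ℂ) (g : ι → MP) (a0 n0 a1 n1 m : ℕ) (hm : 1 ≤ m) (gc : ℂ → ι → MP)
    (gI : ι → MP)
    (hgc : ∀ c j, MvPolynomial.aeval (chart c) (g j) = MvPolynomial.X 0 ^ m * gc c j)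
    (hgI : ∀ j, MvPolynomial.aeval chartI (g j) = MvPolynomial.X 1 ^ m * gI j)
    (j0 : ι) (hj0 : res0 (gc 0 j0) ≠ 0)
    (t0 : ∃ Λ, LT (gc 0) (a0 + a1 + m) (n0 + n1) a1 n1 Λ)
    (tc : ∀ c, c ≠ 0 → ∃ Λ, LT (gc c) (a0 + a1 + m) (n0 + n1) 0 1 Λ)
    (tI : ∃ Λ, LT gI a0 n0 (a0 + a1 + m) (n0 + n1) Λ)
    (h : DZ r (gc 0) (a0 + a1 + m) (n0 + n1) a1 n1 ∨
      (∃ c, c ≠ 0 ∧ DZ r (gc c) (a0 + a1 + m) (n0 + n1) 0 1) ∨
      DZ r gI a0 n0 (a0 + a1 + m) (n0 + n1)) : DZ r g a0 n0 a1 n1 := by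
  classical
  have hres : ∀ c, res0 (gc c j0) = (res0 (gc 0 j0)).comp (X + C c) := fun c =>
    res0_chart (g j0) (gc 0 j0) (gc c j0) m c (hgc 0 j0) (hgc c j0)
  have hcc : ∀ c, MvPolynomial.constantCoeff (gc c j0) = (res0 (gc 0 j0)).eval c := by
    intro c
    rw [← coeff_res0, hres, coeff_zero_eq_eval_zero, eval_comp]
    simp
  have t0' : ∃ Λ, LT (gc 0) (a0 + a1 + m) (n0 + n1) a1 n1 Λ ∧
      (DZ r (gc 0) (a0 + a1 + m) (n0 + n1) a1 n1 → ∃ q ∈ Λ, ZC r q) := by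
    by_cases hd : DZ r (gc 0) (a0 + a1 + m) (n0 + n1) a1 n1
    · obtain ⟨Λ, h1, h2⟩ := hd
      exact ⟨Λ, h1, fun _ => h2⟩
    · obtain ⟨Λ, h1⟩ := t0
      exact ⟨Λ, h1, fun h => absurd h hd⟩
  have tI' : ∃ Λ, LT gI a0 n0 (a0 + a1 + m) (n0 + n1) Λ ∧
      (DZ r gI a0 n0 (a0 + a1 + m) (n0 + n1) → ∃ q ∈ Λ, ZC r q) := by
    by_cases hd : DZ r gI a0 n0 (a0 + a1 + m) (n0 + n1)
    · obtain ⟨Λ, h1, h2⟩ := hd
      exact ⟨Λ, h1, fun _ => h2⟩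
    · obtain ⟨Λ, h1⟩ := tI
      exact ⟨Λ, h1, fun h => absurd h hd⟩
  have tc' : ∀ c, ∃ Λ, c ≠ 0 → LT (gc c) (a0 + a1 + m) (n0 + n1) 0 1 Λ ∧
      (DZ r (gc c) (a0 + a1 + m) (n0 + n1) 0 1 → ∃ q ∈ Λ, ZC r q) := by
    intro c
    by_cases hc : c = 0
    · exact ⟨∅, fun h => absurd hc h⟩
    · by_cases hd : DZ r (gc c) (a0 + a1 + m) (n0 + n1) 0 1
      · obtain ⟨Λ, h1, h2⟩ := hd
        exact ⟨Λ, fun _ => ⟨h1, fun _ => h2⟩⟩
      · obtain ⟨Λ, h1⟩ := tc c hc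
        exact ⟨Λ, fun _ => ⟨h1, fun h => absurd h hd⟩⟩
  choose Λc hΛc using tc'
  obtain ⟨Λ0, h01, h02⟩ := t0'
  obtain ⟨ΛI, hI1, hI2⟩ := tI'
  -- the finite set of centres
  obtain ⟨c1, hc1⟩ : ∃ c1 : ℂ, (∃ c, c ≠ 0 ∧ DZ r (gc c) (a0 + a1 + m) (n0 + n1) 0 1) →
      c1 ≠ 0 ∧ DZ r (gc c1) (a0 + a1 + m) (n0 + n1) 0 1 := by
    by_cases hh : ∃ c, c ≠ 0 ∧ DZ r (gc c) (a0 + a1 + m) (n0 + n1) 0 1
    · obtain ⟨c, hc⟩ := hh
      exact ⟨c, fun _ => hc⟩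
    · exact ⟨0, fun h => absurd h hh⟩
  set Λ' : ℂ → Set Pr := fun c => if c = 0 then Λ0 else Λc c with hΛ'
  have e0 : Λ' 0 = Λ0 := by rw [hΛ']; simp
  have ec : ∀ c, c ≠ 0 → Λ' c = Λc c := fun c hc => by rw [hΛ']; simp [hc]
  set S : Finset ℂ := insert 0 (insert c1 (res0 (gc 0 j0)).roots.toFinset) with hS
  refine ⟨_, LT.blowup g a0 n0 a1 n1 m hm gc gI hgc hgI S (Finset.mem_insert_self _ _) ?_ Λ' ΛI
    (by rw [e0]; exact h01) (fun c _ hc => by rw [ec c hc]; exact (hΛc c hc).1) hI1, ?_⟩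
  · intro c hc
    refine ⟨j0, ?_⟩
    rw [hcc]
    intro h
    apply hc
    rw [hS, Finset.mem_insert, Finset.mem_insert, Multiset.mem_toFinset]
    exact Or.inr (Or.inr ((mem_roots hj0).2 h))
  · rcases h with h | h | h
    · obtain ⟨q, hq, hq2⟩ := h02 h
      exact ⟨q, Or.inr (Or.inl ⟨0, Finset.mem_insert_self _ _, by rw [e0]; exact hq⟩), hq2⟩
    · obtain ⟨h1, h2⟩ := hc1 h
      obtain ⟨q, hq, hq2⟩ := (hΛc c1 h1).2 h2
      exact ⟨q, Or.inr (Or.inl ⟨c1, by rw [hS]; simp, by rw [ec c1 h1]; exact hq⟩), hq2⟩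
    · obtain ⟨q, hq, hq2⟩ := hI2 h
      exact ⟨q, Or.inl hq, hq2⟩

end Trees

section Ctx

variable {p : ℕ} [Fact p.Prime] {ι : Type} [Fintype ι] [DecidableEq ι]

/-- the context without a crossing of critical curves -/
def DC (φ : ℚ_[p] →+* ℂ) (r : ℂ) (g : ι → A ℚ_[p]) (d0 d1 : Bool)
    (a0 n0 a1 n1 : ℕ) : Prop :=
  TC g d0 d1 a0 n0 a1 n1 ∧ ¬ DZ r (fun j => mp φ (g j)) a0 n0 a1 n1 ∧ (∃ j, g j ≠ 0) ∧
    (d0 = true → ∃ j, r0 (g j) ≠ 0) ∧ (d1 = true → ∃ j, r1 (g j) ≠ 0)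

theorem closed_DC (φ : ℚ_[p] →+* ℂ) (r : ℂ) : Closed (DC (ι := ι) φ r) where
  pos _ _ _ _ _ _ _ h := ⟨h.1.1, h.1.2.1⟩
  ty0 _ _ _ _ _ _ h := h.1.2.2.1 rfl
  ty1 _ _ _ _ _ _ h := h.1.2.2.2 rfl
  child g d0 d1 a0 n0 a1 n1 m gc gI hm hgc hgI hne h := by
    obtain ⟨hT, hD, hgne, hr0, hr1⟩ := h
    obtain ⟨t0, tc, tI⟩ := closed_TC.child g d0 d1 a0 n0 a1 n1 m gc gI hm hgc hgI hne hT
    obtain ⟨j0, hj0⟩ := hne
    have hP0 : res0 (gcC φ (gc 0) 0 j0) ≠ 0 := by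
      rw [gcC_0 φ hgc, ← mp_r0, Ne, Polynomial.map_eq_zero]
      exact hj0
    -- restrictions
    have q0 : ∀ c, r0 (gc c j0) ≠ 0 := by
      intro c h
      rw [ch_shift (hgc 0 j0) (hgc c j0), r0_shift] at h
      exact comp_ne _ c hj0 h
    have q1 : d1 = true → ∃ j, r1 (gc 0 j) ≠ 0 := by
      intro hd
      obtain ⟨j, hj⟩ := hr1 hd
      refine ⟨j, fun h => hj ?_⟩
      rw [r1_ch (hgc 0 j), h, mul_zero]
    have qI0 : d0 = true → ∃ j, r0 (gI j) ≠ 0 := by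
      intro hd
      obtain ⟨j, hj⟩ := hr0 hd
      refine ⟨j, fun h => hj ?_⟩
      rw [r0_chI (hgI j), h, mul_zero]
    have qI1 : r1 (gI j0) ≠ 0 := by
      intro h
      apply hj0
      ext i
      rw [coeff_zero]
      have hd : (r0 (gc 0 j0)).natDegree ≤ m := by
        rw [r0_lead (hgc 0 j0)]
        exact om_deg _ _
      by_cases hi : i ≤ m
      · have h2 := r1_lead' (hgc 0 j0) (hgI j0) (m - i) (Nat.sub_le _ _)
        rw [h, coeff_zero] at h2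
        have h3 : m - (m - i) = i := by omega
        rw [h3] at h2
        exact h2.symm
      · exact coeff_eq_zero_of_natDegree_lt (by omega)
    have qne : ∀ c, ∃ j, gc c j ≠ 0 := fun c => ⟨j0, fun h => q0 c (by rw [h, map_zero])⟩
    have qIne : ∃ j, gI j ≠ 0 := ⟨j0, fun h => qI1 (by rw [h, map_zero])⟩
    -- the trees over the complex numbers
    have mpne : ∀ q : A ℚ_[p], q ≠ 0 → mp φ q ≠ 0 := fun q hq h => hq
      (MvPolynomial.map_injective φ φ.injective (by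
        rw [map_zero]; exact h))
    have mp0 : ∀ q : A ℚ_[p], r0 q ≠ 0 → r0 (k := ℂ) (mp φ q) ≠ 0 := fun q hq h => hq (by
      have h2 : res0 (mp φ q) = 0 := h
      rw [← mp_r0, Polynomial.map_eq_zero] at h2
      exact h2)
    have mp1 : ∀ q : A ℚ_[p], r1 q ≠ 0 → r1 (k := ℂ) (mp φ q) ≠ 0 := fun q hq h => hq (by
      have h2 : res1 (mp φ q) = 0 := h
      rw [← mp_r1, Polynomial.map_eq_zero] at h2
      exact h2)
    have g0eq : (fun j => mp φ (gc 0 j)) = fun j => gcC φ (gc 0) 0 j := by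
      funext j
      rw [gcC_0 φ hgc]
    have gceq : ∀ c, (fun j => mp φ (gc c j)) = fun j => gcC φ (gc 0) (φ c) j := by
      intro c
      funext j
      rw [gcC_k φ hgc]
    have T0 : ∃ Λ, LT (fun j => gcC φ (gc 0) 0 j) (a0 + a1 + m) (n0 + n1) a1 n1 Λ := by
      rw [← g0eq]
      refine exists_LT (exists_KT (k := ℂ) (fun j => mp φ (gc 0 j)) true d1
        ⟨j0, mpne _ (fun h => q0 0 (by rw [h, map_zero]))⟩ (fun _ => ⟨j0, mp0 _ hj0⟩) (fun hd => ?_))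
        _ _ _ _ (by simp) hT.2.2.2
      obtain ⟨j, hj⟩ := q1 hd
      exact ⟨j, mp1 _ hj⟩
    have Tc : ∀ c, c ≠ 0 → ∃ Λ, LT (fun j => gcC φ (gc 0) c j) (a0 + a1 + m) (n0 + n1) 0 1 Λ := by
      intro c hc
      have hr : res0 (gcC φ (gc 0) c j0) ≠ 0 := by
        rw [res0_chart (mp φ (g j0)) (gcC φ (gc 0) 0 j0) (gcC φ (gc 0) c j0) m c
          (gcC_eq φ (hgc 0) 0 j0) (gcC_eq φ (hgc 0) c j0)]
        exact comp_ne _ c hP0
      exact exists_LT (exists_KT (k := ℂ) (fun j => gcC φ (gc 0) c j) true false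
        ⟨j0, fun h => hr (by rw [h, map_zero])⟩ (fun _ => ⟨j0, hr⟩) (by simp)) _ _ _ _ (by simp)
        (fun _ => ⟨rfl, rfl⟩)
    have TI : ∃ Λ, LT (fun j => mp φ (gI j)) a0 n0 (a0 + a1 + m) (n0 + n1) Λ := by
      refine exists_LT (exists_KT (k := ℂ) (fun j => mp φ (gI j)) d0 true
        ⟨j0, mpne _ (fun h => qI1 (by rw [h, map_zero]))⟩ (fun hd => ?_) (fun _ => ⟨j0, mp1 _ qI1⟩))
        _ _ _ _ hT.2.2.1 (by simp)
      obtain ⟨j, hj⟩ := qI0 hd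
      exact ⟨j, mp0 _ hj⟩
    have hpar := DZ_parent r (fun j => mp φ (g j)) a0 n0 a1 n1 m hm (fun c j => gcC φ (gc 0) c j)
      (fun j => mp φ (gI j)) (fun c j => gcC_eq φ (hgc 0) c j) (chI_mp φ hgI) j0 hP0 T0 Tc TI
    refine ⟨⟨t0, ?_, qne 0, fun _ => ⟨j0, hj0⟩, q1⟩,
      fun c hc => ⟨tc c hc, ?_, qne c, fun _ => ⟨j0, q0 c⟩, fun h => by simp at h⟩,
      ⟨tI, ?_, qIne, qI0, fun _ => ⟨j0, qI1⟩⟩⟩
    · intro h
      rw [g0eq] at h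
      exact hD (hpar (Or.inl h))
    · intro h
      rw [gceq] at h
      exact hD (hpar (Or.inr (Or.inl ⟨φ c, fun h0 => hc ((map_eq_zero φ).1 h0), h⟩)))
    · intro h
      exact hD (hpar (Or.inr (Or.inr h)))

theorem tr_ne_zero (f : ι → A ℚ_[p]) (P : Fin 2 → ℚ_[p]) (hne : ∃ j, f j ≠ 0) :
    ∃ j, (MvPolynomial.aeval (fun i => MvPolynomial.X i + MvPolynomial.C (P i)) (f j) :
      A ℚ_[p]) ≠ 0 := by
  obtain ⟨j, hj⟩ := hne
  refine ⟨j, fun h => hj ?_⟩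
  have h1 : (MvPolynomial.aeval (fun i => MvPolynomial.X i - MvPolynomial.C (P i)) :
      A ℚ_[p] →ₐ[ℚ_[p]] A ℚ_[p]).comp
      (MvPolynomial.aeval (fun i => MvPolynomial.X i + MvPolynomial.C (P i))) =
      AlgHom.id _ _ := by
    refine MvPolynomial.algHom_ext fun i => ?_
    simp
  have h2 := congrArg (fun ψ : A ℚ_[p] →ₐ[ℚ_[p]] A ℚ_[p] => ψ (f j)) h1
  simp only [AlgHom.comp_apply, AlgHom.id_apply] at h2
  rw [← h2, h, map_zero]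

/-- the node at a point -/
noncomputable def nd (f : ι → A ℚ_[p]) (P : Fin 2 → ℚ_[p]) : ι → A ℚ_[p] := fun j =>
  MvPolynomial.aeval (fun i => MvPolynomial.X i + MvPolynomial.C (P i)) (f j)

theorem LReg.mono {T0 : ℂ} {M N : ℕ} {F : SF p} {x : ℚ_[p] × ℚ_[p]} (hF : LReg T0 M F x)
    (h : M ≤ N) : LReg T0 N F x := by
  obtain ⟨U, hU, hxU, hU2⟩ := hF
  exact ⟨U, hU, hxU, fun C hC hCU => (hU2 C hC hCU).mono h⟩

/-- **The order of the pole at a point.** -/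
theorem local_M (φ : ℚ_[p] →+* ℂ) (f : ι → A ℚ_[p]) (b : ℂ[X]) (hb0 : b ≠ 0)
    (hb : IsFunctionalEq (fun j => mp φ (f j)) b) {T0 : ℂ} (hT0 : T0 ≠ 0)
    (P : Fin 2 → ℚ_[p]) (hne : ∃ j, f j ≠ 0) :
    LReg T0 (b.rootMultiplicity ((rr p T0 : ℝ) : ℂ)) (Zc (Hn (nd f P) 0 1 0 1)) (0, 0) := by
  set r : ℂ := ((rr p T0 : ℝ) : ℂ) with hrdef
  have hgne := tr_ne_zero f P hne
  have hT : KT (nd f P) false false := exists_KT (nd f P) false false hgne (by simp) (by simp)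
  have htc : TC (nd f P) false false 0 1 0 1 := ⟨le_rfl, le_rfl, fun _ => ⟨rfl, rfl⟩,
    fun _ => ⟨rfl, rfl⟩⟩
  by_cases hr : b.eval r = 0
  swap
  · have := local_C φ f b hb hT0 hr P hne
    exact this.mono (Nat.zero_le _)
  have h1 : 1 ≤ b.rootMultiplicity r := (rootMultiplicity_pos hb0).2 hr
  by_cases h2 : 2 ≤ b.rootMultiplicity r
  · refine LReg.mono (M := 2) ?_ h2
    exact main_M hT0 2 TC closed_TC (fun _ _ _ _ _ _ _ _ _ _ => Or.inl rfl)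
      (fun _ _ _ _ _ _ _ _ _ _ _ _ _ _ => Or.inl rfl)
      (fun _ _ _ _ _ _ _ _ _ _ _ _ _ _ => Or.inl rfl) hT 0 1 0 1 htc
  · have h3 : b.rootMultiplicity r = 1 := by omega
    rw [h3]
    have hcr : ∀ a n : ℕ, Crit p T0 a n → (n : ℂ) + (a : ℂ) * r = 0 := fun a n h => by
      rw [mul_comm]
      exact crit_r hT0 a n h
    have hDZ : ¬ DZ r (fun j => mp φ (nd f P j)) 0 1 0 1 := by
      rintro ⟨Λ, hΛ, hz⟩
      have h4 : (fun j => mp φ (nd f P j)) = fun j => W574.SM.translate (fun i => φ (P i))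
          (mp φ (f j)) := by
        funext j
        exact mp_tr φ P (f j)
      rw [h4] at hΛ
      have h5 := zc_root (fun j => mp φ (f j)) b hb (fun i => φ (P i)) r hΛ hz
      have h6 := (le_rootMultiplicity_iff hb0).2 h5
      omega
    refine main_M hT0 1 (DC φ r) (closed_DC φ r) ?_ ?_ ?_ hT 0 1 0 1
      ⟨htc, hDZ, hgne, by simp, by simp⟩
    · intro g d0 d1 a0 n0 a1 n1 hc j hj
      refine Or.inr (Or.inl ⟨rfl, ?_⟩)
      rw [← not_and_or]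
      rintro ⟨h5, h6⟩
      exact hc.2.1 ⟨_, LT.unit _ a0 n0 a1 n1 j (by
        rw [mp_cc]
        exact fun h => hj ((map_eq_zero φ).1 h)), _, rfl, hcr _ _ h5, hcr _ _ h6⟩
    · intro g d0 a0 n0 m hm hc h κ hg h0 h1 j hj
      refine Or.inr (Or.inl ⟨rfl, ?_⟩)
      rw [← not_and_or]
      rintro ⟨h5, h6⟩
      exact hc.2.1 ⟨_, LT.curveV _ a0 n0 m hm (mp φ h) (fun j => mp φ (κ j)) (fun i => by
        rw [hg, mp_mul, mp_pow]) (by rw [mp_cc, h0, map_zero]) (by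
        rw [mp_pderiv, mp_cc]
        exact fun h => h1 ((map_eq_zero φ).1 h)) j (by
        rw [mp_cc]
        exact fun h => hj ((map_eq_zero φ).1 h)), _, rfl, hcr _ _ h5, hcr _ _ h6⟩
    · intro g d1 a1 n1 m hm hc h κ hg h0 h1 j hj
      refine Or.inr (Or.inl ⟨rfl, ?_⟩)
      rw [← not_and_or]
      rintro ⟨h5, h6⟩
      exact hc.2.1 ⟨_, LT.curveU _ a1 n1 m hm (mp φ h) (fun j => mp φ (κ j)) (fun i => by
        rw [hg, mp_mul, mp_pow]) (by rw [mp_cc, h0, map_zero]) (by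
        rw [mp_pderiv, mp_cc]
        exact fun h => h1 ((map_eq_zero φ).1 h)) j (by
        rw [mp_cc]
        exact fun h => hj ((map_eq_zero φ).1 h)), _, rfl, hcr _ _ h5, hcr _ _ h6⟩

/-- **No poles in the closed unit disc.** -/
theorem local_0 (f : ι → A ℚ_[p]) {T0 : ℂ} (hT0 : T0 ≠ 0) (hT1 : ‖T0‖ ≤ 1)
    (P : Fin 2 → ℚ_[p]) (hne : ∃ j, f j ≠ 0) :
    LReg T0 0 (Zc (Hn (nd f P) 0 1 0 1)) (0, 0) := by
  have hgne := tr_ne_zero f P hne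
  have hT : KT (nd f P) false false := exists_KT (nd f P) false false hgne (by simp) (by simp)
  have htc : TC (nd f P) false false 0 1 0 1 := ⟨le_rfl, le_rfl, fun _ => ⟨rfl, rfl⟩,
    fun _ => ⟨rfl, rfl⟩⟩
  exact main_M hT0 0 TC closed_TC
    (fun _ _ _ _ _ _ _ hc _ _ => Or.inr (Or.inr ⟨rfl, not_crit_small hT1 _ _ hc.1,
      not_crit_small hT1 _ _ hc.2.1⟩))
    (fun _ _ _ _ _ _ hc _ _ _ _ _ _ _ => Or.inr (Or.inr ⟨rfl, not_crit_small hT1 _ _ hc.1,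
      not_crit_small hT1 _ _ le_rfl⟩))
    (fun _ _ _ _ _ _ hc _ _ _ _ _ _ _ => Or.inr (Or.inr ⟨rfl, not_crit_small hT1 _ _ hc.2.1,
      not_crit_small hT1 _ _ le_rfl⟩)) hT 0 1 0 1 htc

end Ctx

end Pool.Agent.Y230.PT
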