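import Pool.Agent.Y230.PT.Lines

set_option autoImplicit false
set_option linter.unusedSectionVars false

/-! # The induction over the tree, without poles -/

namespace Pool.Agent.Y230.PT

open MeasureTheory Set Pool.Agent.W427.SMC
open scoped ENNReal
open Pool.Agent.Y230.RE

variable {p : ℕ} [Fact p.Prime]

attribute [local instance] msK bsK

variable {ι : Type} [Fintype ι] {T0 : ℂ}

theorem crit_add (a0 n0 b k : ℕ) (h : Crit p T0 a0 n0) :
    Crit p T0 (a0 + b) (n0 + k) ↔ Crit p T0 b k := by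
  have hp : (p : ℂ) ≠ 0 := by exact_mod_cast (Fact.out : p.Prime).ne_zero
  unfold Crit at *
  rw [pow_add, pow_add, h]
  exact mul_right_inj' (pow_ne_zero _ hp)

theorem crit_sum (a0 n0 a1 n1 m : ℕ) (hn0 : 1 ≤ n0) (hm : 1 ≤ m) (h0 : Crit p T0 a0 n0)
    (h1 : Crit p T0 a1 n1) : ¬ Crit p T0 (a0 + a1 + m) (n0 + n1) := by
  intro h
  rw [add_assoc, crit_add a0 n0 (a1 + m) n1 h0] at h
  have h2 : Crit p T0 (a1 + m) (n1 + 0) := h
  rw [crit_add a1 n1 m 0 h1] at h2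
  unfold Crit at h2 h0
  rw [pow_zero] at h2
  have h3 : ‖T0‖ = 1 := by
    have := congrArg norm h2
    rw [norm_pow, norm_one] at this
    exact (pow_eq_one_iff_of_nonneg (norm_nonneg _) (by omega)).1 this
  have h4 := congrArg norm h0
  rw [norm_pow, h3, one_pow, norm_pow, Complex.norm_natCast] at h4
  have h5 : (1 : ℕ) = p ^ n0 := by exact_mod_cast h4
  have h6 := Nat.one_lt_pow (by omega : n0 ≠ 0) (Fact.out : p.Prime).one_lt
  omega

theorem IsO.shift {h h' : ι → Polynomial ℚ_[p]} {m ρ : ℕ}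
    (hh : ∀ j, h j = Polynomial.X ^ m * h' j) (hρ : IsO h ρ) :
    ∃ ρ', ρ = m + ρ' ∧ IsO h' ρ' := by
  obtain ⟨j, hj⟩ := hρ.2
  have hm : m ≤ ρ := by
    by_contra hlt
    apply hj
    rw [hh, Polynomial.coeff_X_pow_mul', if_neg hlt]
  obtain ⟨ν, rfl⟩ := Nat.exists_eq_add_of_le hm
  refine ⟨ν, rfl, ?_, j, ?_⟩
  · intro i k hk
    have := hρ.1 i (m + k) (by omega)
    rwa [hh, Polynomial.coeff_X_pow_mul', if_pos (by omega), Nat.add_sub_cancel_left] at this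
  · rwa [hh, Polynomial.coeff_X_pow_mul', if_pos (by omega), Nat.add_sub_cancel_left] at hj

theorem coeff_up (h h' : Polynomial ℚ_[p]) (m ρ : ℕ) (hh : h = Polynomial.X ^ m * h') :
    h.coeff (m + ρ) = h'.coeff ρ := by
  rw [hh, Polynomial.coeff_X_pow_mul', if_pos (by omega), Nat.add_sub_cancel_left]

/-- the reversed leading form -/
theorem r1_lead' {g g0 gI : A ℚ_[p]} {m : ℕ}
    (h0 : MvPolynomial.aeval (ch 0) g = MvPolynomial.X 0 ^ m * g0)
    (hI : MvPolynomial.aeval chI g = MvPolynomial.X 1 ^ m * gI) (i : ℕ) (hi : i ≤ m) :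
    (r1 gI).coeff i = (r0 g0).coeff (m - i) := by
  rw [r1_lead hI, r0_lead h0, omI_coeff, om_coeff, if_pos hi, if_pos (Nat.sub_le _ _)]
  congr 3
  omega

theorem spec_deg {P : Polynomial ℚ_[p]} {m a0 n0 a1 n1 : ℕ} {γ : ℚ_[p]} {μ0 : ℕ}
    {T : Finset ℚ_[p]} {μ : ℚ_[p] → ℕ} (hS : Spec T0 P m a0 n0 a1 n1 γ μ0 T μ) :
    P.natDegree = μ0 + ∑ c ∈ T, μ c ∧ P.leadingCoeff = γ := by
  have hm1 : (∏ c ∈ T, (Polynomial.X - Polynomial.C c) ^ μ c).Monic :=
    Polynomial.monic_prod_of_monic _ _ fun c _ => (Polynomial.monic_X_sub_C c).pow _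
  have hm2 : (Polynomial.X ^ μ0 * ∏ c ∈ T, (Polynomial.X - Polynomial.C c) ^ μ c).Monic :=
    (Polynomial.monic_X_pow μ0).mul hm1
  constructor
  · rw [hS.hP, Polynomial.natDegree_C_mul hS.hγ, (Polynomial.monic_X_pow μ0).natDegree_mul hm1,
      Polynomial.natDegree_X_pow, Polynomial.natDegree_prod_of_monic _ _
      (fun c _ => (Polynomial.monic_X_sub_C c).pow _)]
    congr 1
    refine Finset.sum_congr rfl fun c _ => ?_
    rw [(Polynomial.monic_X_sub_C c).natDegree_pow, Polynomial.natDegree_X_sub_C, mul_one]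
  · rw [hS.hP, Polynomial.leadingCoeff_mul, Polynomial.leadingCoeff_C, hm2.leadingCoeff, mul_one]

/-- **No poles.** -/
theorem main_C (hT0 : T0 ≠ 0)
    (Cx : (ι → A ℚ_[p]) → Bool → Bool → ℕ → ℕ → ℕ → ℕ → Prop) (hCx : Closed Cx)
    (hunit : ∀ (g : ι → A ℚ_[p]) (d0 d1 : Bool) (a0 n0 a1 n1 : ℕ), Cx g d0 d1 a0 n0 a1 n1 →
      ∀ j, MvPolynomial.constantCoeff (g j) ≠ 0 → ¬ (Crit p T0 a0 n0 ∧ Crit p T0 a1 n1))
    (hV : ∀ (g : ι → A ℚ_[p]) (d0 : Bool) (a0 n0 m : ℕ), 1 ≤ m → Cx g d0 false a0 n0 0 1 →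
      ∀ (h : A ℚ_[p]) (κ : ι → A ℚ_[p]), (∀ j, g j = h ^ m * κ j) →
      MvPolynomial.constantCoeff h = 0 → MvPolynomial.constantCoeff (MvPolynomial.pderiv 1 h) ≠ 0 →
      ∀ j, MvPolynomial.constantCoeff (κ j) ≠ 0 → ¬ Crit p T0 m 1)
    (hU : ∀ (g : ι → A ℚ_[p]) (d1 : Bool) (a1 n1 m : ℕ), 1 ≤ m → Cx g false d1 0 1 a1 n1 →
      ∀ (h : A ℚ_[p]) (κ : ι → A ℚ_[p]), (∀ j, g j = h ^ m * κ j) →
      MvPolynomial.constantCoeff h = 0 → MvPolynomial.constantCoeff (MvPolynomial.pderiv 0 h) ≠ 0 →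
      ∀ j, MvPolynomial.constantCoeff (κ j) ≠ 0 → ¬ Crit p T0 m 1)
    (hE : ∀ (g : ι → A ℚ_[p]) (d0 d1 : Bool) (a0 n0 a1 n1 m : ℕ) (gc : ℚ_[p] → ι → A ℚ_[p])
      (gI : ι → A ℚ_[p]), 1 ≤ m →
      (∀ c j, MvPolynomial.aeval (ch c) (g j) = MvPolynomial.X 0 ^ m * gc c j) →
      (∀ j, MvPolynomial.aeval chI (g j) = MvPolynomial.X 1 ^ m * gI j) →
      (∃ j, r0 (gc 0 j) ≠ 0) → Cx g d0 d1 a0 n0 a1 n1 → Crit p T0 (a0 + a1 + m) (n0 + n1) →
      ∃ (lam : ι → ℚ_[p]) (P : Polynomial ℚ_[p]) (γ : ℚ_[p]) (μ0 : ℕ) (T : Finset ℚ_[p])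
        (μ : ℚ_[p] → ℕ), (∀ j, r0 (gc 0 j) = Polynomial.C (lam j) * P) ∧
        Spec T0 P m a0 n0 a1 n1 γ μ0 T μ)
    (hH0 : ∀ (g : ι → A ℚ_[p]) (d0 d1 : Bool) (a0 n0 a1 n1 : ℕ), Cx g d0 d1 a0 n0 a1 n1 →
      Crit p T0 a0 n0 → ∀ ρ, IsO (fun j => r0 (g j)) ρ → ¬ Crit p T0 (a1 + ρ) n1)
    (hH1 : ∀ (g : ι → A ℚ_[p]) (d0 d1 : Bool) (a0 n0 a1 n1 : ℕ), Cx g d0 d1 a0 n0 a1 n1 →
      Crit p T0 a1 n1 → ∀ ρ, IsO (fun j => r1 (g j)) ρ → ¬ Crit p T0 (a0 + ρ) n0)
    {g : ι → A ℚ_[p]} {d0 d1 : Bool} (hT : KT g d0 d1) : ∀ a0 n0 a1 n1 : ℕ,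
    Cx g d0 d1 a0 n0 a1 n1 → CC T0 g a0 n0 a1 n1 := by
  induction hT with
  | unit g d0 d1 j hj =>
    intro a0 n0 a1 n1 hc
    obtain ⟨hn0, hn1⟩ := hCx.pos _ _ _ _ _ _ _ hc
    exact CC_unit hT0 g j hj hn0 hn1 (hunit _ _ _ _ _ _ _ hc j hj)
  | curveV g d0 m hm h κ hg h0 h1 j hj =>
    intro a0 n0 a1 n1 hc
    obtain ⟨hn0, hn1⟩ := hCx.pos _ _ _ _ _ _ _ hc
    obtain ⟨rfl, rfl⟩ := hCx.ty1 _ _ _ _ _ _ hc
    exact CC_curveV hT0 g m h κ hg h0 h1 j hj hn0 (hV g d0 a0 n0 m hm hc h κ hg h0 h1 j hj)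
  | curveU g d1 m hm h κ hg h0 h1 j hj =>
    intro a0 n0 a1 n1 hc
    obtain ⟨hn0, hn1⟩ := hCx.pos _ _ _ _ _ _ _ hc
    obtain ⟨rfl, rfl⟩ := hCx.ty0 _ _ _ _ _ _ hc
    exact CC_curveU hT0 g m h κ hg h0 h1 j hj hn1 (hU g d1 a1 n1 m hm hc h κ hg h0 h1 j hj)
  | blowup g d0 d1 m hm gc gI hgc hgI hne h0 hcc hI ih0 ihc ihI =>
    intro a0 n0 a1 n1 hc
    obtain ⟨hn0, hn1⟩ := hCx.pos _ _ _ _ _ _ _ hc
    obtain ⟨c0, cc, cI⟩ := hCx.child g d0 d1 a0 n0 a1 n1 m gc gI hm hgc hgI hne hc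
    intro ρ0 ρ1 hρ0 hρ1
    have e1 : H1 (Hn g a0 n0 a1 n1) = Hn (gc 0) (a0 + a1 + m) (n0 + n1) a1 n1 := by
      funext s x
      exact Hn_c1 g (gc 0) m (hgc 0) a0 n0 a1 n1 hn0 hn1 s x
    have e2 : H2 (Hn g a0 n0 a1 n1) = Hn gI a0 n0 (a0 + a1 + m) (n0 + n1) := by
      funext s x
      exact Hn_c2 g gI m hgI a0 n0 a1 n1 hn0 hn1 s x
    have hr0 : ∀ j, r0 (g j) = Polynomial.X ^ m * r0 (gI j) := fun j => r0_chI (hgI j)
    have hr1 : ∀ j, r1 (g j) = Polynomial.X ^ m * r1 (gc 0 j) := fun j => r1_ch (hgc 0 j)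
    -- the correction terms of the children
    obtain ⟨ρ0', hρ0'⟩ : ∃ ρ0', Crit p T0 a0 n0 → ρ0 = m + ρ0' ∧ IsO (fun j => r0 (gI j)) ρ0' := by
      by_cases h : Crit p T0 a0 n0
      · obtain ⟨ρ', h1, h2⟩ := (hρ0 h).shift hr0
        exact ⟨ρ', fun _ => ⟨h1, h2⟩⟩
      · exact ⟨0, fun h' => absurd h' h⟩
    obtain ⟨ρ1', hρ1'⟩ : ∃ ρ1', Crit p T0 a1 n1 → ρ1 = m + ρ1' ∧
        IsO (fun j => r1 (gc 0 j)) ρ1' := by
      by_cases h : Crit p T0 a1 n1
      · obtain ⟨ρ', h1, h2⟩ := (hρ1 h).shift hr1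
        exact ⟨ρ', fun _ => ⟨h1, h2⟩⟩
      · exact ⟨0, fun h' => absurd h' h⟩
    -- the model
    obtain ⟨lam, P, γ, μ0, T, μ, hE'⟩ : ∃ (lam : ι → ℚ_[p]) (P : Polynomial ℚ_[p]) (γ : ℚ_[p])
        (μ0 : ℕ) (T : Finset ℚ_[p]) (μ : ℚ_[p] → ℕ), Crit p T0 (a0 + a1 + m) (n0 + n1) →
        (∀ j, r0 (gc 0 j) = Polynomial.C (lam j) * P) ∧ Spec T0 P m a0 n0 a1 n1 γ μ0 T μ := by
      by_cases h : Crit p T0 (a0 + a1 + m) (n0 + n1)
      · obtain ⟨lam, P, γ, μ0, T, μ, h2⟩ := hE g d0 d1 a0 n0 a1 n1 m gc gI hm hgc hgI hne hc h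
        exact ⟨lam, P, γ, μ0, T, μ, fun _ => h2⟩
      · exact ⟨fun _ => 0, 0, 0, 0, ∅, fun _ => 0, fun h' => absurd h' h⟩
    have hlam : Crit p T0 (a0 + a1 + m) (n0 + n1) → ∃ j, lam j * γ ≠ 0 := by
      intro h
      obtain ⟨j, hj⟩ := hne
      refine ⟨j, mul_ne_zero ?_ (hE' h).2.hγ⟩
      intro hl
      apply hj
      rw [(hE' h).1, hl, map_zero, zero_mul]
    set M0 := Mn (fun j => (r0 (g j)).coeff ρ0) a0 n0 (a1 + ρ0) n1 with hM0
    set M1 := Mn (fun j => (r1 (g j)).coeff ρ1) (a0 + ρ1) n0 a1 n1 with hM1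
    set Φ := Ph (fun j => lam j * γ) (a0 + (m - (μ0 + ∑ c ∈ T, μ c))) n0 (a1 + μ0) n1 T μ with hΦ
    have okH : Ok (Hn g a0 n0 a1 n1) := ok_Hn g a0 n0 a1 n1
    have okM0 : Ok M0 := ok_Mn _ _ _ _ _
    have okM1 : Ok M1 := ok_Mn _ _ _ _ _
    have okΦ : Ok Φ := ok_Ph _ _ _ _ _ _ _
    have hΦreg : ∀ C, CO C → Reg p T0 0 (crr (Crit p T0 (a0 + a1 + m) (n0 + n1)) (Zc Φ) C) := by
      intro C hC
      by_cases h : Crit p T0 (a0 + a1 + m) (n0 + n1)
      · rw [crr_true h]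
        exact Ph_reg hT0 hn0 hn1 (hE' h).2 _ (hlam h) hC
      · rw [crr_false h]
        exact Reg.zero
    have hexp : Crit p T0 (a0 + a1 + m) (n0 + n1) → a0 + (m - (μ0 + ∑ c ∈ T, μ c)) + (a1 + μ0) +
        ∑ c ∈ T, μ c = a0 + a1 + m := by
      intro h
      have := (hE' h).2.hdeg
      omega
    -- the pullback of the model to the first chart
    have hΦ1 : Crit p T0 (a0 + a1 + m) (n0 + n1) → ∀ s x, H1 Φ s x = mx lam s *
        N p s (P.eval x.2) * (w s (a0 + a1 + m) (n0 + n1) x.1 * w s a1 n1 x.2) := by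
      intro h s x
      rw [hΦ, Ph_c1 _ _ _ _ _ hn0 hn1, hexp h, mx_smul', w_add s a1 μ0 n1, (hE' h).2.hP]
      simp only [Polynomial.eval_mul, Polynomial.eval_C, Polynomial.eval_pow, Polynomial.eval_X,
        Polynomial.eval_prod, Polynomial.eval_sub]
      rw [N_mul, N_mul, N_pow]
      ring
    -- regularity of the pullback of `M0`
    have hM0reg : ∀ C, CO C → Reg p T0 0 (crr (Crit p T0 a0 n0) (Zc (H1 M0)) C) := by
      intro C hC
      by_cases h : Crit p T0 a0 n0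
      · rw [crr_true h]
        have h3 := hH0 _ _ _ _ _ _ _ hc h ρ0 (hρ0 h)
        have e : H1 M0 = Mn (fun j => (r0 (g j)).coeff ρ0) (a0 + (a1 + ρ0)) (n0 + n1)
            (a1 + ρ0) n1 := by
          funext s x
          exact Mn_c1 _ _ _ _ _ hn0 hn1 s x
        rw [e]
        exact Mn_reg hT0 _ (hρ0 h).2 (by omega) hn1 (by rwa [crit_add a0 n0 _ _ h]) h3 hC
      · rw [crr_false h]
        exact Reg.zero
    have hM1reg : ∀ C, CO C → Reg p T0 0 (crr (Crit p T0 a1 n1) (Zc (H2 M1)) C) := by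
      intro C hC
      by_cases h : Crit p T0 a1 n1
      · rw [crr_true h]
        have h3 := hH1 _ _ _ _ _ _ _ hc h ρ1 (hρ1 h)
        have e : H2 M1 = Mn (fun j => (r1 (g j)).coeff ρ1) (a0 + ρ1) n0 (a0 + ρ1 + a1)
            (n0 + n1) := by
          funext s x
          exact Mn_c2 _ _ _ _ _ hn0 hn1 s x
        rw [e]
        refine Mn_reg hT0 _ (hρ1 h).2 hn0 (by omega) h3 ?_ hC
        rwa [add_comm (a0 + ρ1) a1, add_comm n0 n1, crit_add a1 n1 _ _ h]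
      · rw [crr_false h]
        exact Reg.zero
    -- the other pullbacks
    have eM1 : Crit p T0 a1 n1 → H1 M1 = Mn (fun j => (r1 (gc 0 j)).coeff ρ1')
        (a0 + a1 + m + ρ1') (n0 + n1) a1 n1 := by
      intro h
      funext s x
      rw [hM1, Mn_c1 _ _ _ _ _ hn0 hn1, (hρ1' h).1]
      have h3 : (fun j => (r1 (g j)).coeff (m + ρ1')) = fun j => (r1 (gc 0 j)).coeff ρ1' := by
        funext j
        exact coeff_up _ _ _ _ (hr1 j)
      rw [h3]
      congr 1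
      ring
    have eM0 : Crit p T0 a0 n0 → H2 M0 = Mn (fun j => (r0 (gI j)).coeff ρ0') a0 n0
        (a0 + a1 + m + ρ0') (n0 + n1) := by
      intro h
      funext s x
      rw [hM0, Mn_c2 _ _ _ _ _ hn0 hn1, (hρ0' h).1]
      have h3 : (fun j => (r0 (g j)).coeff (m + ρ0')) = fun j => (r0 (gI j)).coeff ρ0' := by
        funext j
        exact coeff_up _ _ _ _ (hr0 j)
      rw [h3]
      congr 1
      ring
    -- the first chart
    have hF1 : ∀ c : ℚ_[p], LReg T0 0 (fun C s => Zc (H1 (Hn g a0 n0 a1 n1)) C s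
        - crr (Crit p T0 a0 n0) (Zc (H1 M0)) C s - crr (Crit p T0 a1 n1) (Zc (H1 M1)) C s
        - crr (Crit p T0 (a0 + a1 + m) (n0 + n1)) (Zc (H1 Φ)) C s) (0, c) := by
      intro c
      obtain ⟨ρE, κE, V, hVo, h0V, hVE⟩ : ∃ (ρE : ℕ) (κE : ℚ_[p]) (V : Set ℚ_[p]), IsOpen V ∧
          (0 : ℚ_[p]) ∈ V ∧ (Crit p T0 (a0 + a1 + m) (n0 + n1) →
            IsO (fun j => r0 (gc c j)) ρE ∧ (∀ j, (r0 (gc c j)).coeff ρE = lam j * κE) ∧
            ∀ v ∈ V, ∀ s : ℝ, N p s (P.eval (c + v)) = N p s κE * N p s v ^ ρE) := by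
        by_cases h : Crit p T0 (a0 + a1 + m) (n0 + n1)
        · have hP0 : P ≠ 0 := by
            obtain ⟨j, hj⟩ := hne
            intro hP
            apply hj
            rw [(hE' h).1, hP, mul_zero]
          obtain ⟨ρE, κE, V, hκ, hVo, h0V, h3, h4, h5⟩ := poly_near P hP0 c
          have hcomp : ∀ j, r0 (gc c j) = Polynomial.C (lam j) *
              P.comp (Polynomial.X + Polynomial.C c) := by
            intro j
            rw [ch_shift (hgc 0 j) (hgc c j), r0_shift, (hE' h).1, Polynomial.mul_comp,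
              Polynomial.C_comp]
          have hco : ∀ j, (r0 (gc c j)).coeff ρE = lam j * κE := by
            intro j
            rw [hcomp, Polynomial.coeff_C_mul, h4]
          refine ⟨ρE, κE, V, hVo, h0V, fun _ => ⟨⟨?_, ?_⟩, hco, h5⟩⟩
          · intro j i hi
            simp only
            rw [hcomp, Polynomial.coeff_C_mul, h3 i hi, mul_zero]
          · obtain ⟨j, hj⟩ := hlam h
            refine ⟨j, ?_⟩
            simp only
            rw [hco]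
            exact mul_ne_zero (left_ne_zero_of_mul hj) hκ
        · exact ⟨0, 0, Set.univ, isOpen_univ, trivial, fun h' => absurd h' h⟩
      by_cases hc0 : c = 0
      · subst hc0
        have hIH := ih0 _ _ _ _ c0 ρE ρ1' (fun h => (hVE h).1) (fun h => (hρ1' h).2)
        refine (hIH.sub (LReg.of_all _ hM0reg)).congr (hVo.preimage continuous_snd) h0V
          fun C hC hCV s hs => ?_
        have e3 : crr (Crit p T0 a1 n1) (Zc (H1 M1)) C s = crr (Crit p T0 a1 n1)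
            (Zc (Mn (fun j => (r1 (gc 0 j)).coeff ρ1') (a0 + a1 + m + ρ1') (n0 + n1) a1 n1)) C s := by
          by_cases h : Crit p T0 a1 n1
          · rw [crr_true h, crr_true h, eM1 h]
          · rw [crr_false h, crr_false h]
        have e4 : crr (Crit p T0 (a0 + a1 + m) (n0 + n1)) (Zc (H1 Φ)) C s =
            crr (Crit p T0 (a0 + a1 + m) (n0 + n1)) (Zc (Mn (fun j => (r0 (gc 0 j)).coeff ρE)
              (a0 + a1 + m) (n0 + n1) (a1 + ρE) n1)) C s := by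
          by_cases h : Crit p T0 (a0 + a1 + m) (n0 + n1)
          · rw [crr_true h, crr_true h]
            refine Zc_congr hC fun x hx => ?_
            have h6 := (hVE h).2.2 x.2 (hCV hx) s
            rw [zero_add] at h6
            rw [hΦ1 h, h6]
            unfold Mn
            simp only [(hVE h).2.1]
            rw [mx_smul', w_add s a1 ρE n1]
            ring
          · rw [crr_false h, crr_false h]
        rw [e1, e3, e4]
        ring
      · have hIH := ihc c hc0 _ _ _ _ (cc c hc0) ρE 0 (fun h => (hVE h).1)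
          (fun h => absurd h not_crit01)
        rw [crr_false not_crit01] at hIH
        obtain ⟨V', hV', h0V', hV2'⟩ := norm_add_near c hc0
        have h5 := lreg_chart hT0 (M := 0) c hc0 a1 n1 (H1 (Hn g a0 n0 a1 n1))
          (Hn (gc c) (a0 + a1 + m) (n0 + n1) 0 1) (H1 Φ)
          (Mn (fun j => (r0 (gc c j)).coeff ρE) (a0 + a1 + m) (n0 + n1) (0 + ρE) 1)
          okH.H1 okΦ.H1 (Crit p T0 (a0 + a1 + m) (n0 + n1))
          (hV'.inter (hVo.preimage continuous_snd)) ⟨h0V', h0V⟩ (by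
            intro x hx s _
            rw [e1]
            exact Hn_shift (gc 0) (gc c) c (fun j => ch_shift (hgc 0 j) (hgc c j)) _ _ _ _ s x
              (hV2' x hx.1)) (by
            intro h x hx s _
            have h6 := (hVE h).2.2 x.2 hx.2 s
            rw [hΦ1 h]
            simp only
            rw [h6, w_norm s a1 n1 (hV2' x hx.1)]
            unfold Mn
            simp only [(hVE h).2.1]
            rw [mx_smul', w_add s 0 ρE 1, w01]
            ring) (by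
            refine hIH.congr isOpen_univ trivial fun C _ _ s _ => ?_
            rw [sub_zero])
        have h6 : LReg T0 0 (fun C s => crr (Crit p T0 a1 n1) (Zc (H1 M1)) C s) (0, c) := by
          by_cases h : Crit p T0 a1 n1
          · rw [crr_true h, eM1 h]
            refine Mn_lreg hT0 _ (hρ1' h).2.2 (by omega) ?_ c hc0
            have h7 := hH1 _ _ _ _ _ _ _ hc h ρ1 (hρ1 h)
            have h8 : a0 + a1 + m + ρ1' = a1 + (a0 + ρ1) := by
              rw [(hρ1' h).1]; ring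
            rw [h8, add_comm n0 n1, crit_add a1 n1 _ _ h]
            exact h7
          · rw [crr_false h]
            exact LReg.zero
        refine ((h5.sub h6).sub (LReg.of_all _ hM0reg)).congr isOpen_univ trivial
          fun C _ _ s _ => ?_
        ring
    have hF2 : LReg T0 0 (fun C s => Zc (H2 (Hn g a0 n0 a1 n1)) C s
        - crr (Crit p T0 a0 n0) (Zc (H2 M0)) C s - crr (Crit p T0 a1 n1) (Zc (H2 M1)) C s
        - crr (Crit p T0 (a0 + a1 + m) (n0 + n1)) (Zc (H2 Φ)) C s) (0, 0) := by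
      set ρI := m - (μ0 + ∑ c ∈ T, μ c) with hρI
      have hcoI : Crit p T0 (a0 + a1 + m) (n0 + n1) → ∀ j, (r1 (gI j)).coeff ρI = lam j * γ := by
        intro h j
        have hdeg := (hE' h).2.hdeg
        obtain ⟨h7, h8⟩ := spec_deg (hE' h).2
        rw [r1_lead' (hgc 0 j) (hgI j) ρI (Nat.sub_le _ _), (hE' h).1, Polynomial.coeff_C_mul]
        have h9 : m - ρI = P.natDegree := by omega
        rw [h9]
        change lam j * P.leadingCoeff = _
        rw [h8]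
      have hIsI : Crit p T0 (a0 + a1 + m) (n0 + n1) → IsO (fun j => r1 (gI j)) ρI := by
        intro h
        obtain ⟨h7, h8⟩ := spec_deg (hE' h).2
        refine ⟨fun j i hi => ?_, ?_⟩
        · simp only
          rw [r1_lead' (hgc 0 j) (hgI j) i (by omega), (hE' h).1, Polynomial.coeff_C_mul,
            Polynomial.coeff_eq_zero_of_natDegree_lt (by omega), mul_zero]
        · obtain ⟨j, hj⟩ := hlam h
          exact ⟨j, by simp only; rw [hcoI h]; exact hj⟩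
      have hIH := ihI _ _ _ _ cI ρ0' ρI (fun h => (hρ0' h).2) hIsI
      obtain ⟨V, hVo, h0V, hV2⟩ := norm_const_near
        (fun x : ℚ_[p] × ℚ_[p] => ∏ c ∈ T, (1 - c * x.1) ^ μ c)
        (continuous_finsetProd _ fun c _ => by fun_prop) (0, 0) (by simp)
      refine (hIH.sub (LReg.of_all _ hM1reg)).congr hVo h0V fun C hC hCV s hs => ?_
      have e3 : crr (Crit p T0 a0 n0) (Zc (H2 M0)) C s = crr (Crit p T0 a0 n0)
          (Zc (Mn (fun j => (r0 (gI j)).coeff ρ0') a0 n0 (a0 + a1 + m + ρ0') (n0 + n1))) C s := by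
        by_cases h : Crit p T0 a0 n0
        · rw [crr_true h, crr_true h, eM0 h]
        · rw [crr_false h, crr_false h]
      have e4 : crr (Crit p T0 (a0 + a1 + m) (n0 + n1)) (Zc (H2 Φ)) C s =
          crr (Crit p T0 (a0 + a1 + m) (n0 + n1)) (Zc (Mn (fun j => (r1 (gI j)).coeff ρI)
            (a0 + ρI) n0 (a0 + a1 + m) (n0 + n1))) C s := by
        by_cases h : Crit p T0 (a0 + a1 + m) (n0 + n1)
        · rw [crr_true h, crr_true h]
          refine Zc_congr hC fun x hx => ?_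
          have h6 : ‖∏ c ∈ T, (1 - c * x.1) ^ μ c‖ = ‖(1 : ℚ_[p])‖ := by
            rw [hV2 x (hCV hx)]
            simp
          rw [hΦ, Ph_c2 _ _ _ _ _ hn0 hn1, hexp h, N_norm s h6, N_one]
          unfold Mn
          simp only [hcoI h]
          ring
        · rw [crr_false h, crr_false h]
      rw [e2, e3, e4]
      ring
    have hblow : ∀ (δ : Prop) (F : ℝ → ℚ_[p] × ℚ_[p] → ℝ≥0∞), Ok F → ∀ L C, CO C →
        ∀ s : ℝ, 0 ≤ s → crr δ (Zc F) C s = crr δ (Zc (H1 F)) (S1 L C) s +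
          crr δ (Zc (H2 F)) (S2 L C) s := by
      intro δ F hF L C hC s hs
      by_cases h : δ
      · rw [crr_true h, crr_true h, crr_true h, Zc_blow L hF hC hs]
      · rw [crr_false h, crr_false h, crr_false h, add_zero]
    have hF := LReg.blow (F := fun C s => Zc (Hn g a0 n0 a1 n1) C s
        - crr (Crit p T0 a0 n0) (Zc M0) C s - crr (Crit p T0 a1 n1) (Zc M1) C s
        - crr (Crit p T0 (a0 + a1 + m) (n0 + n1)) (Zc Φ) C s)
      ((((addF_Zc okH.H1).sub ((addF_Zc okM0.H1).crr _)).sub ((addF_Zc okM1.H1).crr _)).sub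
        ((addF_Zc okΦ.H1).crr _)) (by
        intro L C hC s hs
        beta_reduce
        rw [Zc_blow L okH hC hs, hblow _ M0 okM0 L C hC s hs, hblow _ M1 okM1 L C hC s hs,
          hblow _ Φ okΦ L C hC s hs]
        ring) hF1 hF2
    refine (hF.add (LReg.of_all (0, 0) hΦreg)).congr isOpen_univ trivial fun C _ _ s _ => ?_
    ring

end Pool.Agent.Y230.PT
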