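import Pool.Agent.Y230.PT.LReg
import Pool.Agent.Y230.RE.Tree

set_option autoImplicit false
set_option linter.unusedSectionVars false

/-! # The integrands at the nodes of the tree -/

namespace Pool.Agent.Y230.PT

open MeasureTheory Set Pool.Agent.W427.SMC
open scoped ENNReal
open Pool.Agent.Y230.RE

variable {p : ℕ} [Fact p.Prime]

attribute [local instance] msK bsK

/-- evaluation at a point -/
noncomputable def ev (x : ℚ_[p] × ℚ_[p]) : A ℚ_[p] →+* ℚ_[p] := MvPolynomial.eval ![x.1, x.2]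

theorem ev_X0 (x : ℚ_[p] × ℚ_[p]) : ev x (MvPolynomial.X 0) = x.1 := by simp [ev]
theorem ev_X1 (x : ℚ_[p] × ℚ_[p]) : ev x (MvPolynomial.X 1) = x.2 := by simp [ev]
theorem ev_C (x : ℚ_[p] × ℚ_[p]) (c : ℚ_[p]) : ev x (MvPolynomial.C c) = c := by simp [ev]

theorem ev_cont (g : A ℚ_[p]) : Continuous (fun x => ev x g) := by
  unfold ev
  refine (MvPolynomial.continuous_eval g).comp ?_
  refine continuous_pi fun i => ?_
  fin_cases i
  · exact continuous_fst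
  · exact continuous_snd

theorem hom_ext3 {f g : A ℚ_[p] →+* ℚ_[p]} (hC : ∀ c, f (MvPolynomial.C c) = g (MvPolynomial.C c))
    (h0 : f (MvPolynomial.X 0) = g (MvPolynomial.X 0))
    (h1 : f (MvPolynomial.X 1) = g (MvPolynomial.X 1)) : f = g := by
  refine MvPolynomial.ringHom_ext hC fun i => ?_
  fin_cases i
  · exact h0
  · exact h1

theorem ev_aeval (χ : Fin 2 → A ℚ_[p]) (x : ℚ_[p] × ℚ_[p]) (g : A ℚ_[p]) :
    ev x (MvPolynomial.aeval χ g) = ev (ev x (χ 0), ev x (χ 1)) g := by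
  have h : (ev x).comp (MvPolynomial.aeval χ : A ℚ_[p] →ₐ[ℚ_[p]] A ℚ_[p]).toRingHom =
      ev (ev x (χ 0), ev x (χ 1)) := by
    apply hom_ext3
    · intro c
      rw [RingHom.comp_apply]
      change ev x (MvPolynomial.aeval χ (MvPolynomial.C c)) = _
      rw [MvPolynomial.aeval_C, ev_C]
      exact ev_C x c
    · rw [RingHom.comp_apply]
      change ev x (MvPolynomial.aeval χ (MvPolynomial.X 0)) = _
      rw [MvPolynomial.aeval_X, ev_X0]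
    · rw [RingHom.comp_apply]
      change ev x (MvPolynomial.aeval χ (MvPolynomial.X 1)) = _
      rw [MvPolynomial.aeval_X, ev_X1]
  exact congrArg (fun φ : A ℚ_[p] →+* ℚ_[p] => φ g) h

theorem ev_c1 (x : ℚ_[p] × ℚ_[p]) (g g0 : A ℚ_[p]) (m : ℕ)
    (h : MvPolynomial.aeval (ch 0) g = MvPolynomial.X 0 ^ m * g0) :
    ev (c1 x) g = x.1 ^ m * ev x g0 := by
  have h1 := congrArg (ev x) h
  rw [ev_aeval, map_mul, map_pow, ev_X0, ch0, ch1, ev_X0, map_mul, map_add, ev_X0, ev_X1, ev_C,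
    add_zero] at h1
  exact h1

theorem ev_c2 (x : ℚ_[p] × ℚ_[p]) (g gI : A ℚ_[p]) (m : ℕ)
    (h : MvPolynomial.aeval chI g = MvPolynomial.X 1 ^ m * gI) :
    ev (c2 x) g = x.2 ^ m * ev x gI := by
  have h1 := congrArg (ev x) h
  rw [ev_aeval, map_mul, map_pow, ev_X1, chI0, chI1, ev_X1, map_mul, ev_X0, ev_X1] at h1
  exact h1

theorem ev_shift (x : ℚ_[p] × ℚ_[p]) (c : ℚ_[p]) (g : A ℚ_[p]) :
    ev x (MvPolynomial.aeval ![MvPolynomial.X 0, MvPolynomial.X 1 + MvPolynomial.C c] g) =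
      ev (x.1, c + x.2) g := by
  rw [ev_aeval]
  simp only [Matrix.cons_val_zero, Matrix.cons_val_one]
  rw [ev_X0, map_add, ev_X1, ev_C, add_comm]

theorem ev_r0 (v : ℚ_[p]) (g : A ℚ_[p]) : ev (0, v) g = (r0 g).eval v := by
  have h : ev ((0 : ℚ_[p]), v) = (Polynomial.evalRingHom v).comp (r0 (k := ℚ_[p])).toRingHom := by
    apply hom_ext3
    · intro c
      rw [ev_C, RingHom.comp_apply]
      change c = Polynomial.eval v (r0 (MvPolynomial.C c))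
      rw [r0, MvPolynomial.aeval_C]
      simp
    · rw [ev_X0, RingHom.comp_apply]
      change (0 : ℚ_[p]) = Polynomial.eval v (r0 (MvPolynomial.X 0))
      simp [r0]
    · rw [ev_X1, RingHom.comp_apply]
      change v = Polynomial.eval v (r0 (MvPolynomial.X 1))
      simp [r0]
  exact congrArg (fun φ : A ℚ_[p] →+* ℚ_[p] => φ g) h

theorem ev_r1 (u : ℚ_[p]) (g : A ℚ_[p]) : ev (u, 0) g = (r1 g).eval u := by
  have h : ev (u, (0 : ℚ_[p])) = (Polynomial.evalRingHom u).comp (r1 (k := ℚ_[p])).toRingHom := by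
    apply hom_ext3
    · intro c
      rw [ev_C, RingHom.comp_apply]
      change c = Polynomial.eval u (r1 (MvPolynomial.C c))
      rw [r1, MvPolynomial.aeval_C]
      simp
    · rw [ev_X0, RingHom.comp_apply]
      change u = Polynomial.eval u (r1 (MvPolynomial.X 0))
      simp [r1]
    · rw [ev_X1, RingHom.comp_apply]
      change (0 : ℚ_[p]) = Polynomial.eval u (r1 (MvPolynomial.X 1))
      simp [r1]
  exact congrArg (fun φ : A ℚ_[p] →+* ℚ_[p] => φ g) h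

theorem ev_zero (g : A ℚ_[p]) : ev (0, 0) g = MvPolynomial.constantCoeff g := by
  rw [ev_r0, ← Polynomial.coeff_zero_eq_eval_zero, r0_coeff, cc_eq]

variable {ι : Type} [Fintype ι]

/-- the supremum of the norms -/
noncomputable def mx (h : ι → ℚ_[p]) (s : ℝ) : ℝ≥0∞ := ⨆ j, N p s (h j)

theorem mx_smul (c : ℚ_[p]) (h : ι → ℚ_[p]) (s : ℝ) :
    mx (fun j => c * h j) s = N p s c * mx h s := by
  unfold mx
  simp only [N_mul]
  rw [ENNReal.mul_iSup]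

theorem mx_smul' (c : ℚ_[p]) (h : ι → ℚ_[p]) (s : ℝ) :
    mx (fun j => h j * c) s = mx h s * N p s c := by
  rw [mul_comm, ← mx_smul]
  simp only [mul_comm]

theorem exists_max (h : ι → ℚ_[p]) (hne : ∃ j, h j ≠ 0) :
    ∃ j0, h j0 ≠ 0 ∧ ∀ j, ‖h j‖ ≤ ‖h j0‖ := by
  classical
  obtain ⟨j1, hj1⟩ := hne
  obtain ⟨j0, _, hj0⟩ := Finset.exists_max_image Finset.univ (fun j => ‖h j‖)
    ⟨j1, Finset.mem_univ _⟩
  refine ⟨j0, ?_, fun j => hj0 j (Finset.mem_univ j)⟩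
  intro h0
  have := hj0 j1 (Finset.mem_univ j1)
  rw [h0, norm_zero] at this
  exact hj1 (norm_le_zero_iff.1 this)

theorem mx_eq_of_max (h : ι → ℚ_[p]) (j0 : ι) (hj : ∀ j, ‖h j‖ ≤ ‖h j0‖) {s : ℝ} (hs : 0 ≤ s) :
    mx h s = N p s (h j0) :=
  le_antisymm (iSup_le fun j => N_mono hs (hj j)) (le_iSup (fun j => N p s (h j)) j0)

theorem exists_mx (h : ι → ℚ_[p]) (hne : ∃ j, h j ≠ 0) :
    ∃ γ : ℚ_[p], γ ≠ 0 ∧ ∀ s : ℝ, 0 ≤ s → mx h s = N p s γ := by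
  obtain ⟨j0, h1, h2⟩ := exists_max h hne
  exact ⟨h j0, h1, fun s hs => mx_eq_of_max h j0 h2 hs⟩

theorem mx_ne_top (h : ι → ℚ_[p]) {s : ℝ} (hs : 0 ≤ s) : mx h s ≠ ⊤ := by
  by_cases hne : ∃ j, h j ≠ 0
  · obtain ⟨γ, _, h2⟩ := exists_mx h hne
    rw [h2 s hs]
    exact N_ne_top _ _
  · push Not at hne
    unfold mx
    simp only [hne]
    exact ((iSup_le fun _ => le_rfl : (⨆ _ : ι, N p s 0) ≤ N p s 0).trans_lt
      (lt_top_iff_ne_top.2 (N_ne_top _ _))).ne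

theorem norm_const_near {X : Type} [TopologicalSpace X] (f : X → ℚ_[p]) (hf : Continuous f)
    (x0 : X) (h : f x0 ≠ 0) : ∃ U, IsOpen U ∧ x0 ∈ U ∧ ∀ x ∈ U, ‖f x‖ = ‖f x0‖ := by
  refine ⟨f ⁻¹' Metric.ball (f x0) ‖f x0‖, Metric.isOpen_ball.preimage hf,
    Metric.mem_ball_self (norm_pos_iff.2 h), fun x hx => ?_⟩
  rw [Set.mem_preimage, Metric.mem_ball, dist_eq_norm] at hx
  have h3 : f x = (f x - f x0) + f x0 := by ring
  rw [h3, Padic.add_eq_max_of_ne hx.ne, max_eq_right hx.le]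

/-- the supremum is locally constant where it does not vanish -/
theorem mx_const_near {X : Type} [TopologicalSpace X] (f : ι → X → ℚ_[p])
    (hf : ∀ j, Continuous (f j)) (x0 : X) (h : ∃ j, f j x0 ≠ 0) :
    ∃ U, IsOpen U ∧ x0 ∈ U ∧ ∀ x ∈ U, ∀ s : ℝ, 0 ≤ s →
      mx (fun j => f j x) s = mx (fun j => f j x0) s := by
  obtain ⟨j0, h1, h2⟩ := exists_max (fun j => f j x0) h
  obtain ⟨U0, hU0, hx0, hU02⟩ := norm_const_near (f j0) (hf j0) x0 h1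
  have h3 : ∀ j, ∃ U, IsOpen U ∧ x0 ∈ U ∧ ∀ x ∈ U, ‖f j x‖ ≤ ‖f j0 x0‖ := by
    intro j
    by_cases hj : f j x0 = 0
    · refine ⟨f j ⁻¹' Metric.ball 0 ‖f j0 x0‖, Metric.isOpen_ball.preimage (hf j), ?_,
        fun x hx => ?_⟩
      · rw [Set.mem_preimage, hj]
        exact Metric.mem_ball_self (norm_pos_iff.2 h1)
      · rw [Set.mem_preimage, Metric.mem_ball, dist_zero_right] at hx
        exact hx.le
    · obtain ⟨U, hU, hxU, hU2⟩ := norm_const_near (f j) (hf j) x0 hj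
      exact ⟨U, hU, hxU, fun x hx => by rw [hU2 x hx]; exact h2 j⟩
  choose U hU hxU hU2 using h3
  refine ⟨U0 ∩ ⋂ j, U j, hU0.inter (isOpen_iInter_of_finite hU), ⟨hx0, Set.mem_iInter.2 hxU⟩,
    fun x hx s hs => ?_⟩
  rw [mx_eq_of_max (fun j => f j x0) j0 h2 hs,
    mx_eq_of_max (fun j => f j x) j0 (fun j => ?_) hs]
  · exact N_norm s (hU02 x hx.1)
  · rw [hU02 x hx.1]
    exact hU2 j x (Set.mem_iInter.1 hx.2 j)

/-- the integrand of a node -/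
noncomputable def Hn (g : ι → A ℚ_[p]) (a0 n0 a1 n1 : ℕ) (s : ℝ) (x : ℚ_[p] × ℚ_[p]) : ℝ≥0∞ :=
  mx (fun j => ev x (g j)) s * (w s a0 n0 x.1 * w s a1 n1 x.2)

/-- the monomial integrand -/
noncomputable def Mn (h : ι → ℚ_[p]) (a0 n0 a1 n1 : ℕ) (s : ℝ) (x : ℚ_[p] × ℚ_[p]) : ℝ≥0∞ :=
  mx h s * (w s a0 n0 x.1 * w s a1 n1 x.2)

theorem ok_Hn (g : ι → A ℚ_[p]) (a0 n0 a1 n1 : ℕ) : Ok (Hn g a0 n0 a1 n1) :=
  (Ok.sup fun j => ok_N _ (ev_cont (g j))).mul ((ok_w (fun x => x.1) continuous_fst a0 n0).mul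
    (ok_w (fun x => x.2) continuous_snd a1 n1))

theorem ok_Mn (h : ι → ℚ_[p]) (a0 n0 a1 n1 : ℕ) : Ok (Mn h a0 n0 a1 n1) :=
  (Ok.sup fun j => ok_N (fun _ => h j) continuous_const).mul
    ((ok_w (fun x => x.1) continuous_fst a0 n0).mul (ok_w (fun x => x.2) continuous_snd a1 n1))

theorem w01 (s : ℝ) (x : ℚ_[p]) : w s 0 1 x = 1 := by
  simp [w]

theorem w_add (s : ℝ) (a b n : ℕ) (x : ℚ_[p]) : w s (a + b) n x = N p s x ^ b * w s a n x := by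
  unfold w
  rw [pow_add]
  ring

theorem w_add' (s : ℝ) (a b n k : ℕ) (hn : 1 ≤ n) (hk : 1 ≤ k) (x : ℚ_[p]) :
    w s (a + b) (n + k) x = N p 1 x * (w s a n x * w s b k x) := by
  unfold w
  have h : n + k - 1 = (n - 1) + (k - 1) + 1 := by omega
  rw [h, pow_succ, pow_add, pow_add]
  ring

theorem Hn_c1 (g g0 : ι → A ℚ_[p]) (m : ℕ)
    (hg : ∀ j, MvPolynomial.aeval (ch 0) (g j) = MvPolynomial.X 0 ^ m * g0 j)
    (a0 n0 a1 n1 : ℕ) (hn0 : 1 ≤ n0) (hn1 : 1 ≤ n1) (s : ℝ) (x : ℚ_[p] × ℚ_[p]) :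
    H1 (Hn g a0 n0 a1 n1) s x = Hn g0 (a0 + a1 + m) (n0 + n1) a1 n1 s x := by
  unfold H1 Hn
  have h1 : (fun j => ev (c1 x) (g j)) = fun j => x.1 ^ m * ev x (g0 j) := by
    funext j
    exact ev_c1 x (g j) (g0 j) m (hg j)
  rw [h1, mx_smul, w_add, w_add' s a0 a1 n0 n1 hn0 hn1, N_pow]
  change N p 1 x.1 * (_ * (w s a0 n0 x.1 * w s a1 n1 (x.1 * x.2))) = _
  rw [w_mul]
  ring

theorem Hn_c2 (g gI : ι → A ℚ_[p]) (m : ℕ)
    (hg : ∀ j, MvPolynomial.aeval chI (g j) = MvPolynomial.X 1 ^ m * gI j)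
    (a0 n0 a1 n1 : ℕ) (hn0 : 1 ≤ n0) (hn1 : 1 ≤ n1) (s : ℝ) (x : ℚ_[p] × ℚ_[p]) :
    H2 (Hn g a0 n0 a1 n1) s x = Hn gI a0 n0 (a0 + a1 + m) (n0 + n1) s x := by
  unfold H2 Hn
  have h1 : (fun j => ev (c2 x) (g j)) = fun j => x.2 ^ m * ev x (gI j) := by
    funext j
    exact ev_c2 x (g j) (gI j) m (hg j)
  rw [h1, mx_smul, w_add, w_add' s a0 a1 n0 n1 hn0 hn1, N_pow]
  change N p 1 x.2 * (_ * (w s a0 n0 (x.1 * x.2) * w s a1 n1 x.2)) = _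
  rw [w_mul]
  ring

theorem Mn_c1 (h : ι → ℚ_[p]) (a0 n0 a1 n1 : ℕ) (hn0 : 1 ≤ n0) (hn1 : 1 ≤ n1) (s : ℝ)
    (x : ℚ_[p] × ℚ_[p]) :
    H1 (Mn h a0 n0 a1 n1) s x = Mn h (a0 + a1) (n0 + n1) a1 n1 s x := by
  unfold H1 Mn
  rw [w_add' s a0 a1 n0 n1 hn0 hn1]
  change N p 1 x.1 * (_ * (w s a0 n0 x.1 * w s a1 n1 (x.1 * x.2))) = _
  rw [w_mul]
  ring

theorem Mn_c2 (h : ι → ℚ_[p]) (a0 n0 a1 n1 : ℕ) (hn0 : 1 ≤ n0) (hn1 : 1 ≤ n1) (s : ℝ)
    (x : ℚ_[p] × ℚ_[p]) :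
    H2 (Mn h a0 n0 a1 n1) s x = Mn h a0 n0 (a0 + a1) (n0 + n1) s x := by
  unfold H2 Mn
  rw [w_add' s a0 a1 n0 n1 hn0 hn1]
  change N p 1 x.2 * (_ * (w s a0 n0 (x.1 * x.2) * w s a1 n1 x.2)) = _
  rw [w_mul]
  ring

/-- translation to a point of the exceptional curve -/
theorem Hn_shift (g0 gc : ι → A ℚ_[p]) (c : ℚ_[p])
    (hg : ∀ j, gc j = MvPolynomial.aeval ![MvPolynomial.X 0, MvPolynomial.X 1 +
      MvPolynomial.C c] (g0 j)) (a n a1 n1 : ℕ) (s : ℝ) (x : ℚ_[p] × ℚ_[p])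
    (hx : ‖c + x.2‖ = ‖c‖) :
    Hn g0 a n a1 n1 s (x.1, c + x.2) = w s a1 n1 c * Hn gc a n 0 1 s x := by
  unfold Hn
  have h1 : (fun j => ev (x.1, c + x.2) (g0 j)) = fun j => ev x (gc j) := by
    funext j
    rw [hg, ev_shift]
  rw [h1, w01]
  simp only
  rw [w_norm s a1 n1 hx]
  ring

end Pool.Agent.Y230.PT
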