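import Pool.Agent.Y230.PT.Leaf2

set_option autoImplicit false
set_option linter.unusedSectionVars false

/-! # The induction over the tree -/

namespace Pool.Agent.Y230.PT

open MeasureTheory Set Pool.Agent.W427.SMC
open scoped ENNReal
open Pool.Agent.Y230.RE

variable {p : ℕ} [Fact p.Prime]

attribute [local instance] msK bsK

section Swap

/-- the swap of the variables -/
noncomputable def sw : A ℚ_[p] →ₐ[ℚ_[p]] A ℚ_[p] := MvPolynomial.aeval ![MvPolynomial.X 1,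
  MvPolynomial.X 0]

theorem ev_sw (x : ℚ_[p] × ℚ_[p]) (g : A ℚ_[p]) : ev x (sw g) = ev x.swap g := by
  rw [sw, ev_aeval]
  simp only [Matrix.cons_val_zero, Matrix.cons_val_one]
  rw [ev_X0, ev_X1]
  rfl

theorem r0_sw (g : A ℚ_[p]) : r0 (sw g) = r1 g := by
  have h : (r0 (k := ℚ_[p])).comp sw = r1 := by
    apply hom_ext2
    · rw [AlgHom.comp_apply, sw, MvPolynomial.aeval_X, r0, r1]; simp
    · rw [AlgHom.comp_apply, sw, MvPolynomial.aeval_X, r0, r1]; simp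
  exact congrArg (fun φ : A ℚ_[p] →ₐ[ℚ_[p]] Polynomial ℚ_[p] => φ g) h

theorem r1_sw (g : A ℚ_[p]) : r1 (sw g) = r0 g := by
  have h : (r1 (k := ℚ_[p])).comp sw = r0 := by
    apply hom_ext2
    · rw [AlgHom.comp_apply, sw, MvPolynomial.aeval_X, r0, r1]; simp
    · rw [AlgHom.comp_apply, sw, MvPolynomial.aeval_X, r0, r1]; simp
  exact congrArg (fun φ : A ℚ_[p] →ₐ[ℚ_[p]] Polynomial ℚ_[p] => φ g) h

theorem sw_sw (g : A ℚ_[p]) : sw (sw g) = g := by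
  have h : (sw (p := p)).comp sw = AlgHom.id _ _ := by
    apply hom_ext2
    · simp [sw]
    · simp [sw]
  exact congrArg (fun φ : A ℚ_[p] →ₐ[ℚ_[p]] A ℚ_[p] => φ g) h

theorem cc_sw (g : A ℚ_[p]) : MvPolynomial.constantCoeff (sw g) =
    MvPolynomial.constantCoeff g := by
  rw [← ev_zero, ev_sw, ← ev_zero]
  rfl

theorem pderiv_sw (g : A ℚ_[p]) : MvPolynomial.pderiv 1 (sw g) =
    sw (MvPolynomial.pderiv 0 g) := by
  induction g using MvPolynomial.induction_on with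
  | C c => simp [sw]
  | add f g hf hg => rw [map_add, map_add, map_add, map_add, hf, hg]
  | mul_X f i hf =>
    have hi : i = 0 ∨ i = 1 := by fin_cases i <;> simp
    rcases hi with rfl | rfl
    · rw [map_mul, MvPolynomial.pderiv_mul, hf, MvPolynomial.pderiv_mul]
      have h1 : sw (MvPolynomial.X 0 : A ℚ_[p]) = MvPolynomial.X 1 := by simp [sw]
      rw [h1, MvPolynomial.pderiv_X_self, MvPolynomial.pderiv_X_self, mul_one, mul_one, map_add,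
        map_mul, h1]
    · rw [map_mul, MvPolynomial.pderiv_mul, hf, MvPolynomial.pderiv_mul]
      have h1 : sw (MvPolynomial.X 1 : A ℚ_[p]) = MvPolynomial.X 0 := by simp [sw]
      rw [h1, MvPolynomial.pderiv_X_of_ne (by decide), MvPolynomial.pderiv_X_of_ne (by decide),
        mul_zero, mul_zero, add_zero, add_zero, map_mul, h1]

end Swap

variable {ι : Type} [Fintype ι]

theorem Hn_sw (g : ι → A ℚ_[p]) (a0 n0 a1 n1 : ℕ) (s : ℝ) (x : ℚ_[p] × ℚ_[p]) :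
    Hn (fun j => sw (g j)) a1 n1 a0 n0 s x = Hn g a0 n0 a1 n1 s x.swap := by
  unfold Hn
  simp only [ev_sw]
  rw [mul_comm (w s a1 n1 x.1)]
  rfl

theorem Mn_sw (h : ι → ℚ_[p]) (a0 n0 a1 n1 : ℕ) (s : ℝ) (x : ℚ_[p] × ℚ_[p]) :
    Mn h a1 n1 a0 n0 s x = Mn h a0 n0 a1 n1 s x.swap := by
  unfold Mn
  rw [mul_comm (w s a1 n1 x.1)]
  rfl

theorem Zc_Hn_sw (g : ι → A ℚ_[p]) (a0 n0 a1 n1 : ℕ) (C : Set (ℚ_[p] × ℚ_[p])) (s : ℝ) :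
    Zc (Hn g a0 n0 a1 n1) C s = Zc (Hn (fun j => sw (g j)) a1 n1 a0 n0) (Prod.swap ⁻¹' C) s := by
  rw [Zc_swap]
  unfold Zc
  simp only [Hn_sw]

theorem Zc_Mn_sw (h : ι → ℚ_[p]) (a0 n0 a1 n1 : ℕ) (C : Set (ℚ_[p] × ℚ_[p])) (s : ℝ) :
    Zc (Mn h a0 n0 a1 n1) C s = Zc (Mn h a1 n1 a0 n0) (Prod.swap ⁻¹' C) s := by
  rw [Zc_swap]
  unfold Zc
  have : ∀ x, Mn h a1 n1 a0 n0 s x = Mn h a0 n0 a1 n1 s x.swap := Mn_sw h a0 n0 a1 n1 s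
  simp only [this]

/-- regularity with the corrections -/
def CC (T0 : ℂ) (g : ι → A ℚ_[p]) (a0 n0 a1 n1 : ℕ) : Prop :=
  ∀ ρ0 ρ1 : ℕ, (Crit p T0 a0 n0 → IsO (fun j => r0 (g j)) ρ0) →
    (Crit p T0 a1 n1 → IsO (fun j => r1 (g j)) ρ1) →
    LReg T0 0 (fun C s => Zc (Hn g a0 n0 a1 n1) C s
      - crr (Crit p T0 a0 n0) (Zc (Mn (fun j => (r0 (g j)).coeff ρ0) a0 n0 (a1 + ρ0) n1)) C s
      - crr (Crit p T0 a1 n1) (Zc (Mn (fun j => (r1 (g j)).coeff ρ1) (a0 + ρ1) n0 a1 n1)) C s)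
      (0, 0)

theorem CC.swap {T0 : ℂ} {g : ι → A ℚ_[p]} {a0 n0 a1 n1 : ℕ}
    (h : CC T0 (fun j => sw (g j)) a1 n1 a0 n0) : CC T0 g a0 n0 a1 n1 := by
  intro ρ0 ρ1 h0 h1
  have h2 := h ρ1 ρ0 (by simpa only [r0_sw] using h1) (by simpa only [r1_sw] using h0)
  refine lreg_swap (x := (0, 0)) ?_ h2
  intro C hC s hs
  simp only [r0_sw, r1_sw]
  rw [Zc_Hn_sw]
  have e0 : crr (Crit p T0 a0 n0) (Zc (Mn (fun j => (r0 (g j)).coeff ρ0) a0 n0 (a1 + ρ0) n1)) C s =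
      crr (Crit p T0 a0 n0) (Zc (Mn (fun j => (r0 (g j)).coeff ρ0) (a1 + ρ0) n1 a0 n0))
        (Prod.swap ⁻¹' C) s := by
    by_cases hc : Crit p T0 a0 n0
    · rw [crr_true hc, crr_true hc, Zc_Mn_sw]
    · rw [crr_false hc, crr_false hc]
  have e1 : crr (Crit p T0 a1 n1) (Zc (Mn (fun j => (r1 (g j)).coeff ρ1) (a0 + ρ1) n0 a1 n1)) C s =
      crr (Crit p T0 a1 n1) (Zc (Mn (fun j => (r1 (g j)).coeff ρ1) a1 n1 (a0 + ρ1) n0))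
        (Prod.swap ⁻¹' C) s := by
    by_cases hc : Crit p T0 a1 n1
    · rw [crr_true hc, crr_true hc, Zc_Mn_sw]
    · rw [crr_false hc, crr_false hc]
  rw [e0, e1]
  ring

theorem CC_unit {T0 : ℂ} (hT0 : T0 ≠ 0) (g : ι → A ℚ_[p]) (j : ι)
    (hj : MvPolynomial.constantCoeff (g j) ≠ 0) {a0 n0 a1 n1 : ℕ} (hn0 : 1 ≤ n0) (hn1 : 1 ≤ n1)
    (hcr : ¬ (Crit p T0 a0 n0 ∧ Crit p T0 a1 n1)) : CC T0 g a0 n0 a1 n1 := by
  intro ρ0 ρ1 h0 h1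
  obtain ⟨U, hU, h0U, hU2⟩ := Hn_unit g j hj a0 n0 a1 n1
  have hr0 : IsO (fun j => r0 (g j)) 0 := ⟨fun i k hk => absurd hk (Nat.not_lt_zero k), j, by
    simp only; rw [r0_coeff, ← cc_eq]; exact hj⟩
  have hr1 : IsO (fun j => r1 (g j)) 0 := ⟨fun i k hk => absurd hk (Nat.not_lt_zero k), j, by
    simp only; rw [r1_coeff, ← cc_eq]; exact hj⟩
  by_cases hc0 : Crit p T0 a0 n0
  · have hc1 : ¬ Crit p T0 a1 n1 := fun h => hcr ⟨hc0, h⟩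
    have hρ : ρ0 = 0 := (h0 hc0).unique hr0
    subst hρ
    refine LReg.zero.congr hU h0U fun C hC hCU s hs => ?_
    rw [crr_true hc0, crr_false hc1, hU2 C hC hCU s hs, add_zero, sub_zero]
    simp only [r0_coeff, ← cc_eq, sub_self]
  · by_cases hc1 : Crit p T0 a1 n1
    · have hρ : ρ1 = 0 := (h1 hc1).unique hr1
      subst hρ
      refine LReg.zero.congr hU h0U fun C hC hCU s hs => ?_
      rw [crr_true hc1, crr_false hc0, hU2 C hC hCU s hs, add_zero, sub_zero]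
      simp only [r1_coeff, ← cc_eq, sub_self]
    · refine (LReg.of_all (0, 0) (fun C hC => Mn_reg hT0
        (fun j => MvPolynomial.constantCoeff (g j)) ⟨j, hj⟩ hn0 hn1 hc0 hc1 hC)).congr hU h0U
        fun C hC hCU s hs => ?_
      rw [crr_false hc0, crr_false hc1, hU2 C hC hCU s hs, sub_zero, sub_zero]

theorem CC_curveV {T0 : ℂ} (hT0 : T0 ≠ 0) (g : ι → A ℚ_[p]) (m : ℕ) (h : A ℚ_[p])
    (k : ι → A ℚ_[p]) (hg : ∀ j, g j = h ^ m * k j) (h0 : MvPolynomial.constantCoeff h = 0)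
    (h1 : MvPolynomial.constantCoeff (MvPolynomial.pderiv 1 h) ≠ 0) (j : ι)
    (hj : MvPolynomial.constantCoeff (k j) ≠ 0) {a0 n0 : ℕ} (hn0 : 1 ≤ n0)
    (hcr : ¬ Crit p T0 m 1) : CC T0 g a0 n0 0 1 := by
  intro ρ0 ρ1 hρ0 hρ1
  obtain ⟨κ, U, B, hU, h0U, hO, hbox⟩ := Hn_curve g m h k hg h0 h1 j hj a0 n0
  obtain ⟨γ, hγ, hγ2⟩ := exists_mx (fun j => (r0 (g j)).coeff m) hO.2
  have hreg : Reg p T0 0 (fun s => ((mx (fun j => (r0 (g j)).coeff m) s).toReal : ℂ)) :=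
    (reg_N hT0 γ hγ).congr fun s hs => by rw [hγ2 s hs]
  refine LReg.of_boxes ?_ κ hU h0U fun y l hy => ?_
  · exact ((addF_Zc (ok_Hn _ _ _ _ _)).sub ((addF_Zc (ok_Mn _ _ _ _ _)).crr _)).sub
      ((addF_Zc (ok_Mn _ _ _ _ _)).crr _)
  rw [crr_false not_crit01]
  by_cases hc0 : Crit p T0 a0 n0
  · have hρ : ρ0 = m := (hρ0 hc0).unique hO
    subst hρ
    rw [crr_true hc0]
    have hM : ∀ s : ℝ, 0 ≤ s → Zc (Mn (fun j => (r0 (g j)).coeff ρ0) a0 n0 (0 + ρ0) 1) (bx κ y l) s =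
        ((mx (fun j => (r0 (g j)).coeff ρ0) s).toReal : ℂ) *
          (((I1 s a0 n0 y.1 (l + κ)).toReal : ℂ) * ((I1 s ρ0 1 y.2 l).toReal : ℂ)) := by
      intro s hs
      have h3 := mon_box γ a0 n0 ρ0 1 κ y l s
      rw [hγ2 s hs, ← h3, zero_add]
      unfold Zc Mn mon
      rw [hγ2 s hs]
    by_cases hy1 : ‖y.1‖ ≤ qr p ^ (l + κ)
    · refine Reg.zero.congr fun s hs => ?_
      rw [(hbox y l hy).1 s hs, hM s hs, (hbox y l hy).2 hy1 s, sub_self, sub_zero]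
    · have hfar := reg_far (T0 := T0) hT0 a0 n0 y.1 (l + κ) (not_le.1 hy1)
      refine ((hreg.mul0 (hfar.mul0 (reg_I1 hT0 ρ0 1 le_rfl hcr (B y) l))).sub
        (hreg.mul0 (hfar.mul0 (reg_I1 hT0 ρ0 1 le_rfl hcr y.2 l)))).congr fun s hs => ?_
      rw [(hbox y l hy).1 s hs, hM s hs, sub_zero]
  · rw [crr_false hc0]
    refine (hreg.mul0 ((reg_I1 hT0 a0 n0 hn0 hc0 y.1 (l + κ)).mul0
      (reg_I1 hT0 m 1 le_rfl hcr (B y) l))).congr fun s hs => ?_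
    rw [(hbox y l hy).1 s hs, sub_zero, sub_zero]

theorem CC_curveU {T0 : ℂ} (hT0 : T0 ≠ 0) (g : ι → A ℚ_[p]) (m : ℕ) (h : A ℚ_[p])
    (k : ι → A ℚ_[p]) (hg : ∀ j, g j = h ^ m * k j) (h0 : MvPolynomial.constantCoeff h = 0)
    (h1 : MvPolynomial.constantCoeff (MvPolynomial.pderiv 0 h) ≠ 0) (j : ι)
    (hj : MvPolynomial.constantCoeff (k j) ≠ 0) {a1 n1 : ℕ} (hn1 : 1 ≤ n1)
    (hcr : ¬ Crit p T0 m 1) : CC T0 g 0 1 a1 n1 := by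
  refine CC.swap (CC_curveV hT0 (fun j => sw (g j)) m (sw h) (fun j => sw (k j)) ?_ ?_ ?_ j ?_ hn1
    hcr)
  · intro i
    simp only [hg, map_mul, map_pow]
  · rw [cc_sw, h0]
  · rw [pderiv_sw, cc_sw]; exact h1
  · rw [cc_sw]; exact hj

/-- the order of the pole of a pair -/
def Rk (p : ℕ) [Fact p.Prime] (T0 : ℂ) (M a0 n0 a1 n1 : ℕ) : Prop :=
  M = 2 ∨ (M = 1 ∧ (¬ Crit p T0 a0 n0 ∨ ¬ Crit p T0 a1 n1)) ∨
    (M = 0 ∧ ¬ Crit p T0 a0 n0 ∧ ¬ Crit p T0 a1 n1)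

theorem Rk.swap {T0 : ℂ} {M a0 n0 a1 n1 : ℕ} (h : Rk p T0 M a0 n0 a1 n1) :
    Rk p T0 M a1 n1 a0 n0 := by
  rcases h with h | ⟨h, h2⟩ | ⟨h, h2, h3⟩
  · exact Or.inl h
  · exact Or.inr (Or.inl ⟨h, h2.symm⟩)
  · exact Or.inr (Or.inr ⟨h, h3, h2⟩)

theorem Rk.reg {T0 : ℂ} (hT0 : T0 ≠ 0) {M a0 n0 a1 n1 : ℕ} (h : Rk p T0 M a0 n0 a1 n1)
    (hn0 : 1 ≤ n0) (hn1 : 1 ≤ n1) (b0 b1 : ℚ_[p]) (k0 k1 : ℕ) :
    Reg p T0 M (fun s => ((I1 s a0 n0 b0 k0).toReal : ℂ) * ((I1 s a1 n1 b1 k1).toReal : ℂ)) := by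
  rcases h with rfl | ⟨rfl, h2 | h2⟩ | ⟨rfl, h2, h3⟩
  · have e0 := reg_I1' (T0 := T0) hT0 a0 n0 hn0 b0 k0
    have e1 := reg_I1' (T0 := T0) hT0 a1 n1 hn1 b1 k1
    have e := e0.mul e1
    exact e
  · have e0 := reg_I1 (T0 := T0) hT0 a0 n0 hn0 h2 b0 k0
    have e1 := reg_I1' (T0 := T0) hT0 a1 n1 hn1 b1 k1
    have e := e0.mul0 e1
    exact e
  · have e0 := reg_I1' (T0 := T0) hT0 a0 n0 hn0 b0 k0
    have e1 := reg_I1 (T0 := T0) hT0 a1 n1 hn1 h2 b1 k1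
    have e := e1.mul0 e0
    exact e.congr fun s _ => mul_comm _ _
  · have e0 := reg_I1 (T0 := T0) hT0 a0 n0 hn0 h2 b0 k0
    have e1 := reg_I1 (T0 := T0) hT0 a1 n1 hn1 h3 b1 k1
    have e := e0.mul0 e1
    exact e

theorem Rk.mn {T0 : ℂ} (hT0 : T0 ≠ 0) {M a0 n0 a1 n1 : ℕ} (h : Rk p T0 M a0 n0 a1 n1)
    (hn0 : 1 ≤ n0) (hn1 : 1 ≤ n1) (β : ι → ℚ_[p]) (hβ : ∃ j, β j ≠ 0)
    {C : Set (ℚ_[p] × ℚ_[p])} (hC : CO C) : Reg p T0 M (Zc (Mn β a0 n0 a1 n1) C) := by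
  rcases h with rfl | ⟨rfl, h2⟩ | ⟨rfl, h2, h3⟩
  · exact Mn_reg2 hT0 β hβ hn0 hn1 hC
  · exact Mn_reg1 hT0 β hβ hn0 hn1 h2 hC
  · exact Mn_reg hT0 β hβ hn0 hn1 h2 h3 hC

theorem LM_unit {T0 : ℂ} (hT0 : T0 ≠ 0) {M : ℕ} (g : ι → A ℚ_[p]) (j : ι)
    (hj : MvPolynomial.constantCoeff (g j) ≠ 0) {a0 n0 a1 n1 : ℕ} (hn0 : 1 ≤ n0) (hn1 : 1 ≤ n1)
    (hR : Rk p T0 M a0 n0 a1 n1) : LReg T0 M (Zc (Hn g a0 n0 a1 n1)) (0, 0) := by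
  obtain ⟨U, hU, h0U, hU2⟩ := Hn_unit g j hj a0 n0 a1 n1
  refine (LReg.of_all (0, 0) (fun C hC => hR.mn hT0 hn0 hn1
    (fun j => MvPolynomial.constantCoeff (g j)) ⟨j, hj⟩ hC)).congr hU h0U
    fun C hC hCU s hs => (hU2 C hC hCU s hs).symm

theorem LM_curveV {T0 : ℂ} (hT0 : T0 ≠ 0) {M : ℕ} (g : ι → A ℚ_[p]) (m : ℕ) (h : A ℚ_[p])
    (k : ι → A ℚ_[p]) (hg : ∀ j, g j = h ^ m * k j) (h0 : MvPolynomial.constantCoeff h = 0)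
    (h1 : MvPolynomial.constantCoeff (MvPolynomial.pderiv 1 h) ≠ 0) (j : ι)
    (hj : MvPolynomial.constantCoeff (k j) ≠ 0) {a0 n0 : ℕ} (hn0 : 1 ≤ n0)
    (hR : Rk p T0 M a0 n0 m 1) : LReg T0 M (Zc (Hn g a0 n0 0 1)) (0, 0) := by
  obtain ⟨κ, U, B, hU, h0U, hO, hbox⟩ := Hn_curve g m h k hg h0 h1 j hj a0 n0
  obtain ⟨γ, hγ, hγ2⟩ := exists_mx (fun j => (r0 (g j)).coeff m) hO.2
  have hreg : Reg p T0 0 (fun s => ((mx (fun j => (r0 (g j)).coeff m) s).toReal : ℂ)) :=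
    (reg_N hT0 γ hγ).congr fun s hs => by rw [hγ2 s hs]
  refine LReg.of_boxes (addF_Zc (ok_Hn _ _ _ _ _)) κ hU h0U fun y l hy => ?_
  refine (hreg.mul0 (hR.reg hT0 hn0 le_rfl y.1 (B y) (l + κ) l)).congr fun s hs => ?_
  rw [(hbox y l hy).1 s hs]

theorem LM_curveU {T0 : ℂ} (hT0 : T0 ≠ 0) {M : ℕ} (g : ι → A ℚ_[p]) (m : ℕ) (h : A ℚ_[p])
    (k : ι → A ℚ_[p]) (hg : ∀ j, g j = h ^ m * k j) (h0 : MvPolynomial.constantCoeff h = 0)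
    (h1 : MvPolynomial.constantCoeff (MvPolynomial.pderiv 0 h) ≠ 0) (j : ι)
    (hj : MvPolynomial.constantCoeff (k j) ≠ 0) {a1 n1 : ℕ} (hn1 : 1 ≤ n1)
    (hR : Rk p T0 M a1 n1 m 1) : LReg T0 M (Zc (Hn g 0 1 a1 n1)) (0, 0) := by
  have h2 := LM_curveV hT0 (M := M) (fun j => sw (g j)) m (sw h) (fun j => sw (k j))
    (fun i => by simp only [hg, map_mul, map_pow]) (by rw [cc_sw, h0])
    (by rw [pderiv_sw, cc_sw]; exact h1) j (by rw [cc_sw]; exact hj) hn1 hR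
  exact lreg_swap (x := (0, 0)) (fun C _ s _ => Zc_Hn_sw g 0 1 a1 n1 C s) h2

/-- passing to a point of the exceptional curve -/
theorem lreg_chart {T0 : ℂ} (hT0 : T0 ≠ 0) {M : ℕ} (c : ℚ_[p]) (hc : c ≠ 0) (a1 n1 : ℕ)
    (H H' G G' : ℝ → ℚ_[p] × ℚ_[p] → ℝ≥0∞) (hH : Ok H) (hG : Ok G) (δ : Prop)
    {V : Set (ℚ_[p] × ℚ_[p])} (hV : IsOpen V) (h0V : (0, 0) ∈ V)
    (h1 : ∀ x ∈ V, ∀ s : ℝ, 0 ≤ s → H s (x.1, c + x.2) = w s a1 n1 c * H' s x)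
    (h2 : δ → ∀ x ∈ V, ∀ s : ℝ, 0 ≤ s → G s (x.1, c + x.2) = w s a1 n1 c * G' s x)
    (h : LReg T0 M (fun C s => Zc H' C s - crr δ (Zc G') C s) (0, 0)) :
    LReg T0 M (fun C s => Zc H C s - crr δ (Zc G) C s) (0, c) := by
  have h3 : LReg T0 M (fun C s => Zc (fun s x => H s (x.1, c + x.2)) C s -
      crr δ (Zc (fun s x => G s (x.1, c + x.2))) C s) (0, 0) := by
    refine (h.mul (reg_w hT0 a1 n1 c hc)).congr hV h0V fun C hC hCV s hs => ?_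
    have hmul : ∀ (F F' : ℝ → ℚ_[p] × ℚ_[p] → ℝ≥0∞),
        (∀ x ∈ V, ∀ s : ℝ, 0 ≤ s → F s (x.1, c + x.2) = w s a1 n1 c * F' s x) →
        ((w s a1 n1 c).toReal : ℂ) * Zc F' C s = Zc (fun s x => F s (x.1, c + x.2)) C s := by
      intro F F' hF
      unfold Zc
      rw [← Complex.ofReal_mul, ← ENNReal.toReal_mul,
        ← lintegral_const_mul' _ _ (w_ne_top _ _ _ _)]
      congr 2
      exact setLIntegral_congr_fun hC.meas fun x hx => (hF x (hCV hx) s hs).symm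
    by_cases hδ : δ
    · rw [crr_true hδ, crr_true hδ, mul_sub, hmul H H' h1, hmul G G' (h2 hδ)]
    · rw [crr_false hδ, crr_false hδ, sub_zero, sub_zero, hmul H H' h1]
  have h4 := LReg.homeo (F := fun C s => Zc H C s - crr δ (Zc G) C s) (shV (fun _ => c)
    continuous_const) (fun C hC s hs => ?_) h3
  · have h5 : (shV (fun _ : ℚ_[p] => c) continuous_const) ((0, 0) : ℚ_[p] × ℚ_[p]) = (0, c) := by
      change ((0 : ℚ_[p]), c + 0) = (0, c)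
      rw [add_zero]
    rwa [h5] at h4
  · have e1 := Zc_shearV H hH (fun _ => c) continuous_const hC hs
    by_cases hδ : δ
    · have e2 := Zc_shearV G hG (fun _ => c) continuous_const hC hs
      rw [crr_true hδ, crr_true hδ, e1, e2]
      rfl
    · rw [crr_false hδ, crr_false hδ, e1]
      rfl

/-- near a point of the exceptional curve -/
theorem norm_add_near (c : ℚ_[p]) (hc : c ≠ 0) : ∃ V : Set (ℚ_[p] × ℚ_[p]), IsOpen V ∧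
    (0, 0) ∈ V ∧ ∀ x ∈ V, ‖c + x.2‖ = ‖c‖ := by
  obtain ⟨V, h1, h2, h3⟩ := norm_const_near (fun x : ℚ_[p] × ℚ_[p] => c + x.2) (by fun_prop) (0, 0)
    (by simpa using hc)
  refine ⟨V, h1, h2, fun x hx => ?_⟩
  have := h3 x hx
  simpa using this

/-- a class of nodes which is closed under the blow-ups -/
structure Closed (Cx : (ι → A ℚ_[p]) → Bool → Bool → ℕ → ℕ → ℕ → ℕ → Prop) : Prop where
  pos : ∀ (g : ι → A ℚ_[p]) (d0 d1 : Bool) (a0 n0 a1 n1 : ℕ), Cx g d0 d1 a0 n0 a1 n1 →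
    1 ≤ n0 ∧ 1 ≤ n1
  ty0 : ∀ (g : ι → A ℚ_[p]) (d1 : Bool) (a0 n0 a1 n1 : ℕ), Cx g false d1 a0 n0 a1 n1 →
    a0 = 0 ∧ n0 = 1
  ty1 : ∀ (g : ι → A ℚ_[p]) (d0 : Bool) (a0 n0 a1 n1 : ℕ), Cx g d0 false a0 n0 a1 n1 →
    a1 = 0 ∧ n1 = 1
  child : ∀ (g : ι → A ℚ_[p]) (d0 d1 : Bool) (a0 n0 a1 n1 m : ℕ) (gc : ℚ_[p] → ι → A ℚ_[p])
    (gI : ι → A ℚ_[p]), 1 ≤ m →
    (∀ c j, MvPolynomial.aeval (ch c) (g j) = MvPolynomial.X 0 ^ m * gc c j) →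
    (∀ j, MvPolynomial.aeval chI (g j) = MvPolynomial.X 1 ^ m * gI j) →
    (∃ j, r0 (gc 0 j) ≠ 0) → Cx g d0 d1 a0 n0 a1 n1 →
    Cx (gc 0) true d1 (a0 + a1 + m) (n0 + n1) a1 n1 ∧
    (∀ c, c ≠ 0 → Cx (gc c) true false (a0 + a1 + m) (n0 + n1) 0 1) ∧
    Cx gI d0 true a0 n0 (a0 + a1 + m) (n0 + n1)

/-- **Regularity from the orders at the leaves.** -/
theorem main_M {T0 : ℂ} (hT0 : T0 ≠ 0) (M : ℕ)
    (Cx : (ι → A ℚ_[p]) → Bool → Bool → ℕ → ℕ → ℕ → ℕ → Prop) (hCx : Closed Cx)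
    (hunit : ∀ (g : ι → A ℚ_[p]) (d0 d1 : Bool) (a0 n0 a1 n1 : ℕ), Cx g d0 d1 a0 n0 a1 n1 →
      ∀ j, MvPolynomial.constantCoeff (g j) ≠ 0 → Rk p T0 M a0 n0 a1 n1)
    (hV : ∀ (g : ι → A ℚ_[p]) (d0 : Bool) (a0 n0 m : ℕ), 1 ≤ m → Cx g d0 false a0 n0 0 1 →
      ∀ (h : A ℚ_[p]) (κ : ι → A ℚ_[p]), (∀ j, g j = h ^ m * κ j) →
      MvPolynomial.constantCoeff h = 0 → MvPolynomial.constantCoeff (MvPolynomial.pderiv 1 h) ≠ 0 →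
      ∀ j, MvPolynomial.constantCoeff (κ j) ≠ 0 → Rk p T0 M a0 n0 m 1)
    (hU : ∀ (g : ι → A ℚ_[p]) (d1 : Bool) (a1 n1 m : ℕ), 1 ≤ m → Cx g false d1 0 1 a1 n1 →
      ∀ (h : A ℚ_[p]) (κ : ι → A ℚ_[p]), (∀ j, g j = h ^ m * κ j) →
      MvPolynomial.constantCoeff h = 0 → MvPolynomial.constantCoeff (MvPolynomial.pderiv 0 h) ≠ 0 →
      ∀ j, MvPolynomial.constantCoeff (κ j) ≠ 0 → Rk p T0 M a1 n1 m 1)
    {g : ι → A ℚ_[p]} {d0 d1 : Bool} (hT : KT g d0 d1) : ∀ a0 n0 a1 n1 : ℕ,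
    Cx g d0 d1 a0 n0 a1 n1 → LReg T0 M (Zc (Hn g a0 n0 a1 n1)) (0, 0) := by
  induction hT with
  | unit g d0 d1 j hj =>
    intro a0 n0 a1 n1 hc
    obtain ⟨hn0, hn1⟩ := hCx.pos _ _ _ _ _ _ _ hc
    exact LM_unit hT0 g j hj hn0 hn1 (hunit _ _ _ _ _ _ _ hc j hj)
  | curveV g d0 m hm h κ hg h0 h1 j hj =>
    intro a0 n0 a1 n1 hc
    obtain ⟨hn0, hn1⟩ := hCx.pos _ _ _ _ _ _ _ hc
    obtain ⟨rfl, rfl⟩ := hCx.ty1 _ _ _ _ _ _ hc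
    exact LM_curveV hT0 g m h κ hg h0 h1 j hj hn0 (hV g d0 a0 n0 m hm hc h κ hg h0 h1 j hj)
  | curveU g d1 m hm h κ hg h0 h1 j hj =>
    intro a0 n0 a1 n1 hc
    obtain ⟨hn0, hn1⟩ := hCx.pos _ _ _ _ _ _ _ hc
    obtain ⟨rfl, rfl⟩ := hCx.ty0 _ _ _ _ _ _ hc
    exact LM_curveU hT0 g m h κ hg h0 h1 j hj hn1 (hU g d1 a1 n1 m hm hc h κ hg h0 h1 j hj)
  | blowup g d0 d1 m hm gc gI hgc hgI hne h0 hcc hI ih0 ihc ihI =>
    intro a0 n0 a1 n1 hc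
    obtain ⟨hn0, hn1⟩ := hCx.pos _ _ _ _ _ _ _ hc
    obtain ⟨c0, cc, cI⟩ := hCx.child g d0 d1 a0 n0 a1 n1 m gc gI hm hgc hgI hne hc
    have e1 : H1 (Hn g a0 n0 a1 n1) = Hn (gc 0) (a0 + a1 + m) (n0 + n1) a1 n1 := by
      funext s x
      exact Hn_c1 g (gc 0) m (hgc 0) a0 n0 a1 n1 hn0 hn1 s x
    have e2 : H2 (Hn g a0 n0 a1 n1) = Hn gI a0 n0 (a0 + a1 + m) (n0 + n1) := by
      funext s x
      exact Hn_c2 g gI m hgI a0 n0 a1 n1 hn0 hn1 s x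
    refine LReg.blow (F1 := Zc (H1 (Hn g a0 n0 a1 n1))) (F2 := Zc (H2 (Hn g a0 n0 a1 n1)))
      (addF_Zc (ok_Hn g a0 n0 a1 n1).H1) (fun L C hC s hs => Zc_blow L (ok_Hn g a0 n0 a1 n1) hC hs)
      ?_ ?_
    · intro c
      rw [e1]
      by_cases hc0 : c = 0
      · subst hc0
        exact ih0 _ _ _ _ c0
      · obtain ⟨V, hV, h0V, hV2⟩ := norm_add_near c hc0
        have h5 := lreg_chart hT0 (M := M) c hc0 a1 n1
          (Hn (gc 0) (a0 + a1 + m) (n0 + n1) a1 n1) (Hn (gc c) (a0 + a1 + m) (n0 + n1) 0 1)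
          (fun _ _ => 1) (fun _ _ => 1) (ok_Hn _ _ _ _ _) ok_one False hV h0V
          (fun x hx s _ => Hn_shift (gc 0) (gc c) c
            (fun j => ch_shift (hgc 0 j) (hgc c j)) _ _ _ _ s x (hV2 x hx))
          (fun h => h.elim) (by
            refine (ihc c hc0 _ _ _ _ (cc c hc0)).congr isOpen_univ trivial fun C _ _ s _ => ?_
            rw [crr_false not_false, sub_zero])
        refine h5.congr isOpen_univ trivial fun C _ _ s _ => ?_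
        rw [crr_false not_false, sub_zero]
    · rw [e2]
      exact ihI _ _ _ _ cI

end Pool.Agent.Y230.PT
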