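import Pool.Agent.Y230.PT.Haar
import Pool.Agent.W427.SMC.Fin1

set_option autoImplicit false
set_option linter.unusedSectionVars false

/-! # Integrals of powers of the norm over balls of `ℚ_p`, and the regular functions -/

namespace Pool.Agent.Y230.PT

open MeasureTheory Set Pool.Agent.W427.SMC
open scoped ENNReal

variable {p : ℕ} [Fact p.Prime]

attribute [local instance] msK bsK

section Reg

open Polynomial

/-- The function `F` of `s ≥ 0` is a rational function of `p ^ (-s)` with a pole of order at most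
`M` at `T0`. -/
def Reg (p : ℕ) [Fact p.Prime] (T0 : ℂ) (M : ℕ) (F : ℝ → ℂ) : Prop :=
  ∃ D P : ℂ[X], D.eval T0 ≠ 0 ∧ ∀ s : ℝ, 0 ≤ s →
    ((X - C T0) ^ M * D).eval ((tr' p s : ℝ) : ℂ) * F s = P.eval ((tr' p s : ℝ) : ℂ)

variable {T0 : ℂ} {M : ℕ}

theorem Reg.add {F G : ℝ → ℂ} (hF : Reg p T0 M F) (hG : Reg p T0 M G) :
    Reg p T0 M (fun s => F s + G s) := by
  obtain ⟨D1, P1, h1, h2⟩ := hF
  obtain ⟨D2, P2, h3, h4⟩ := hG
  refine ⟨D1 * D2, P1 * D2 + P2 * D1, by rw [eval_mul]; exact mul_ne_zero h1 h3, fun s hs => ?_⟩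
  have h5 := h2 s hs
  have h6 := h4 s hs
  simp only [eval_mul, eval_add] at h5 h6 ⊢
  rw [← h5, ← h6]
  ring

theorem Reg.neg {F : ℝ → ℂ} (hF : Reg p T0 M F) : Reg p T0 M (fun s => -F s) := by
  obtain ⟨D1, P1, h1, h2⟩ := hF
  refine ⟨D1, -P1, h1, fun s hs => ?_⟩
  rw [eval_neg, ← h2 s hs]
  ring

theorem Reg.sub {F G : ℝ → ℂ} (hF : Reg p T0 M F) (hG : Reg p T0 M G) :
    Reg p T0 M (fun s => F s - G s) := by
  have := hF.add hG.neg
  simpa [sub_eq_add_neg] using this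

theorem Reg.mul {N : ℕ} {F G : ℝ → ℂ} (hF : Reg p T0 M F) (hG : Reg p T0 N G) :
    Reg p T0 (M + N) (fun s => F s * G s) := by
  obtain ⟨D1, P1, h1, h2⟩ := hF
  obtain ⟨D2, P2, h3, h4⟩ := hG
  refine ⟨D1 * D2, P1 * P2, by rw [eval_mul]; exact mul_ne_zero h1 h3, fun s hs => ?_⟩
  have h5 := h2 s hs
  have h6 := h4 s hs
  simp only [eval_mul, eval_pow, pow_add] at h5 h6 ⊢
  rw [← h5, ← h6]
  ring

theorem Reg.congr {F G : ℝ → ℂ} (hF : Reg p T0 M F) (h : ∀ s, 0 ≤ s → F s = G s) :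
    Reg p T0 M G := by
  obtain ⟨D1, P1, h1, h2⟩ := hF
  exact ⟨D1, P1, h1, fun s hs => by rw [← h s hs]; exact h2 s hs⟩

theorem Reg.mono {N : ℕ} {F : ℝ → ℂ} (hF : Reg p T0 M F) (h : M ≤ N) : Reg p T0 N F := by
  obtain ⟨D1, P1, h1, h2⟩ := hF
  refine ⟨D1, (X - C T0) ^ (N - M) * P1, h1, fun s hs => ?_⟩
  have h3 : (X - C T0 : ℂ[X]) ^ N * D1 = (X - C T0) ^ (N - M) * ((X - C T0) ^ M * D1) := by
    rw [← mul_assoc, ← pow_add, Nat.sub_add_cancel h]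
  rw [h3, eval_mul, eval_mul (q := P1), ← h2 s hs, mul_assoc]

theorem Reg.const (c : ℂ) : Reg p T0 M (fun _ => c) := by
  refine ⟨1, (X - C T0) ^ M * C c, by simp, fun s _ => ?_⟩
  simp

theorem Reg.zero : Reg p T0 M (fun _ => 0) := Reg.const 0

theorem Reg.t : Reg p T0 M (fun s => ((tr' p s : ℝ) : ℂ)) := by
  refine ⟨1, (X - C T0) ^ M * X, by simp, fun s _ => ?_⟩
  simp

theorem Reg.mul0 {F G : ℝ → ℂ} (hF : Reg p T0 0 F) (hG : Reg p T0 M G) :
    Reg p T0 M (fun s => F s * G s) := by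
  have := hF.mul hG
  rwa [Nat.zero_add] at this

theorem Reg.pow {F : ℝ → ℂ} (hF : Reg p T0 0 F) (n : ℕ) : Reg p T0 0 (fun s => F s ^ n) := by
  induction n with
  | zero => simpa using Reg.const (p := p) (T0 := T0) (M := 0) 1
  | succ n ih =>
    refine (ih.mul0 hF).congr fun s _ => ?_
    rw [pow_succ]

theorem tr_ne (s : ℝ) : ((tr' p s : ℝ) : ℂ) ≠ 0 := by
  exact_mod_cast (tr'_pos p s).ne'

theorem Reg.tinv (hT0 : T0 ≠ 0) : Reg p T0 0 (fun s => ((tr' p s : ℝ) : ℂ)⁻¹) := by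
  refine ⟨X, 1, by simpa using hT0, fun s _ => ?_⟩
  rw [pow_zero, one_mul, eval_X, eval_one, mul_inv_cancel₀ (tr_ne s)]

theorem Reg.sum {K : Type} (S : Finset K) (F : K → ℝ → ℂ) (h : ∀ k ∈ S, Reg p T0 M (F k)) :
    Reg p T0 M (fun s => ∑ k ∈ S, F k s) := by
  classical
  induction S using Finset.induction_on with
  | empty => simpa using Reg.zero (p := p) (T0 := T0) (M := M)
  | insert k S hk ih =>
    refine ((h k (Finset.mem_insert_self _ _)).add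
      (ih fun j hj => h j (Finset.mem_insert_of_mem hj))).congr fun s _ => ?_
    rw [Finset.sum_insert hk]

end Reg

/-- the real number `p⁻¹` -/
noncomputable def qr (p : ℕ) : ℝ := (p : ℝ)⁻¹

theorem qr_pos : 0 < qr p := by
  have : (0 : ℝ) < p := by exact_mod_cast (Fact.out : p.Prime).pos
  unfold qr; positivity

theorem qr_lt_one : qr p < 1 := by
  unfold qr
  exact inv_lt_one_of_one_lt₀ (by exact_mod_cast (Fact.out : p.Prime).one_lt)

/-- the weight of a pair `(a, n)` -/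
noncomputable def w (s : ℝ) (a n : ℕ) (x : ℚ_[p]) : ℝ≥0∞ := N p s x ^ a * N p 1 x ^ (n - 1)

theorem w_zero_one (s : ℝ) (x : ℚ_[p]) : w s 0 1 x = 1 := by simp [w]

theorem w_mul (s : ℝ) (a n : ℕ) (x y : ℚ_[p]) : w s a n (x * y) = w s a n x * w s a n y := by
  unfold w
  rw [N_mul, N_mul, mul_pow, mul_pow]
  ring

theorem w_norm (s : ℝ) (a n : ℕ) {x y : ℚ_[p]} (h : ‖x‖ = ‖y‖) : w s a n x = w s a n y := by
  unfold w
  rw [N_norm s h, N_norm 1 h]

theorem w_ne_top (s : ℝ) (a n : ℕ) (x : ℚ_[p]) : w s a n x ≠ ⊤ :=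
  ENNReal.mul_ne_top (ENNReal.pow_ne_top (N_ne_top _ _)) (ENNReal.pow_ne_top (N_ne_top _ _))

theorem w_meas (s : ℝ) (a n : ℕ) : Measurable (w (p := p) s a n) :=
  ((N_meas s).pow_const a).mul ((N_meas 1).pow_const (n - 1))

theorem N_le_one {s : ℝ} (hs : 0 ≤ s) {x : ℚ_[p]} (hx : ‖x‖ ≤ 1) : N p s x ≤ 1 := by
  rw [← N_one (p := p) s]
  exact N_mono hs (by rw [norm_one]; exact hx)

theorem w_le_one {s : ℝ} (hs : 0 ≤ s) (a n : ℕ) {x : ℚ_[p]} (hx : ‖x‖ ≤ 1) : w s a n x ≤ 1 := by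
  unfold w
  exact mul_le_one' (pow_le_one' (N_le_one hs hx) a) (pow_le_one' (N_le_one zero_le_one hx) _)

theorem N_toReal (s : ℝ) (x : ℚ_[p]) : (N p s x).toReal = ‖x‖ ^ s :=
  ENNReal.toReal_ofReal (Real.rpow_nonneg (norm_nonneg _) _)

/-- the values of `‖x‖ ^ s` are regular -/
theorem reg_N {T0 : ℂ} (hT0 : T0 ≠ 0) (x : ℚ_[p]) (hx : x ≠ 0) :
    Reg p T0 0 (fun s => ((N p s x).toReal : ℂ)) := by
  have hp' : (0 : ℝ) < p := by exact_mod_cast (Fact.out : p.Prime).pos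
  obtain ⟨n, hna⟩ : ∃ n : ℤ, ‖x‖ = (p : ℝ) ^ (-n) :=
    ⟨x.valuation, Padic.norm_eq_zpow_neg_valuation hx⟩
  have key : ∀ s : ℝ, (N p s x).toReal = (tr' p s) ^ n := by
    intro s
    rw [N_toReal, hna, tr', ← Real.rpow_intCast, ← Real.rpow_mul hp'.le, ← Real.rpow_intCast,
      ← Real.rpow_mul hp'.le]
    congr 1
    push_cast
    ring
  rcases le_total 0 n with h | h
  · obtain ⟨k, rfl⟩ := Int.eq_ofNat_of_zero_le h
    refine (Reg.t (p := p) (T0 := T0) (M := 0)).pow k |>.congr fun s _ => ?_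
    rw [key]
    push_cast
    simp
  · obtain ⟨k, hk⟩ := Int.eq_ofNat_of_zero_le (neg_nonneg.2 h)
    have hnk : n = -(k : ℤ) := by omega
    refine (Reg.tinv (p := p) hT0).pow k |>.congr fun s _ => ?_
    rw [key, hnk]
    push_cast
    rw [zpow_neg, zpow_natCast, inv_pow]

theorem reg_w {T0 : ℂ} (hT0 : T0 ≠ 0) (a n : ℕ) (x : ℚ_[p]) (hx : x ≠ 0) :
    Reg p T0 0 (fun s => ((w s a n x).toReal : ℂ)) := by
  refine (((reg_N hT0 x hx).pow a).mul0 (Reg.const (((N p 1 x ^ (n - 1)).toReal : ℝ) : ℂ))).congr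
    fun s _ => ?_
  rw [w, ENNReal.toReal_mul, ENNReal.toReal_pow (N p s x)]
  push_cast
  rfl

/-- the ball with the center `b` and the radius `p ^ (-k)` -/
def bl (b : ℚ_[p]) (k : ℕ) : Set ℚ_[p] := Metric.closedBall b (qr p ^ k)

theorem mem_bl (b x : ℚ_[p]) (k : ℕ) : x ∈ bl b k ↔ ‖x - b‖ ≤ qr p ^ k := by
  rw [bl, Metric.mem_closedBall, dist_eq_norm]

theorem bl_meas (b : ℚ_[p]) (k : ℕ) : MeasurableSet (bl b k) :=
  Metric.isClosed_closedBall.measurableSet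

theorem nu_bl (b : ℚ_[p]) (k : ℕ) : nu p (bl b k) = ((p : ℝ≥0∞)⁻¹) ^ k := nu_ball p b k

theorem nu_bl_ne_top (b : ℚ_[p]) (k : ℕ) : nu p (bl b k) ≠ ⊤ := by
  rw [nu_bl]
  refine ENNReal.pow_ne_top ?_
  rw [Ne, ENNReal.inv_eq_top]
  exact_mod_cast (Fact.out : p.Prime).ne_zero

/-- the integral over a ball centered at the origin -/
noncomputable def J (s : ℝ) (a n k : ℕ) : ℝ≥0∞ := ∫⁻ x in bl (0 : ℚ_[p]) k, w s a n x ∂(nu p)

theorem J_le {s : ℝ} (hs : 0 ≤ s) (a n k : ℕ) : J (p := p) s a n k ≤ 1 := by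
  have h1 : J (p := p) s a n k ≤ ∫⁻ x in bl (0 : ℚ_[p]) k, 1 ∂(nu p) := by
    refine setLIntegral_mono measurable_const fun x hx => w_le_one hs a n ?_
    rw [mem_bl, sub_zero] at hx
    exact hx.trans (pow_le_one₀ qr_pos.le qr_lt_one.le)
  refine h1.trans ?_
  rw [setLIntegral_const, one_mul, nu_bl]
  refine pow_le_one' ?_ k
  rw [ENNReal.inv_le_one]
  exact_mod_cast (Fact.out : p.Prime).one_lt.le

theorem J_ne_top {s : ℝ} (hs : 0 ≤ s) (a n k : ℕ) : J (p := p) s a n k ≠ ⊤ :=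
  ((J_le hs a n k).trans_lt ENNReal.one_lt_top).ne

theorem J_succ (s : ℝ) (a n k : ℕ) (hn : 1 ≤ n) :
    J (p := p) s a n (k + 1) = ((p : ℝ≥0∞)⁻¹ ^ n * Tt p s ^ a) * J (p := p) s a n k := by
  have hp : (p : ℚ_[p]) ≠ 0 := by exact_mod_cast (Fact.out : p.Prime).ne_zero
  unfold J
  rw [← lintegral_indicator (bl_meas _ _), ← lintegral_scale p (p : ℚ_[p]) hp, N1_p]
  have h1 : ∀ x : ℚ_[p], (bl (0 : ℚ_[p]) (k + 1)).indicator (fun x => w s a n x) ((p : ℚ_[p]) * x) =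
      (Tt p s ^ a * (p : ℝ≥0∞)⁻¹ ^ (n - 1)) *
        (bl (0 : ℚ_[p]) k).indicator (fun x => w s a n x) x := by
    intro x
    have h2 : (p : ℚ_[p]) * x ∈ bl (0 : ℚ_[p]) (k + 1) ↔ x ∈ bl (0 : ℚ_[p]) k := by
      rw [mem_bl, mem_bl, sub_zero, sub_zero, norm_mul, Padic.norm_p, pow_succ, mul_comm]
      exact mul_le_mul_iff_left₀ (show 0 < (p : ℝ)⁻¹ from qr_pos)
    by_cases hx : x ∈ bl (0 : ℚ_[p]) k
    · rw [Set.indicator_of_mem hx, Set.indicator_of_mem (h2.2 hx), w_mul]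
      congr 1
      rw [w, N_p, N1_p]
    · rw [Set.indicator_of_notMem hx, Set.indicator_of_notMem (fun h => hx (h2.1 h)), mul_zero]
  simp only [h1]
  have hfin : Tt p s ^ a * (p : ℝ≥0∞)⁻¹ ^ (n - 1) ≠ ⊤ :=
    ENNReal.mul_ne_top (ENNReal.pow_ne_top ENNReal.ofReal_ne_top) (ENNReal.pow_ne_top (by
      rw [Ne, ENNReal.inv_eq_top]
      exact_mod_cast (Fact.out : p.Prime).ne_zero))
  rw [lintegral_const_mul' _ _ hfin, lintegral_indicator (bl_meas _ _), ← mul_assoc]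
  congr 1
  have h3 : n = (n - 1) + 1 := by omega
  conv_rhs => rw [h3, pow_succ]
  ring

theorem J_shell (s : ℝ) (a n k : ℕ) :
    J (p := p) s a n k = (Tt p s ^ a * (p : ℝ≥0∞)⁻¹ ^ (n - 1)) ^ k *
      (nu p (bl (0 : ℚ_[p]) k) - nu p (bl (0 : ℚ_[p]) (k + 1))) + J (p := p) s a n (k + 1) := by
  have hsub : bl (0 : ℚ_[p]) (k + 1) ⊆ bl (0 : ℚ_[p]) k :=
    Metric.closedBall_subset_closedBall
      (pow_le_pow_of_le_one qr_pos.le qr_lt_one.le (Nat.le_succ k))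
  have h1 : bl (0 : ℚ_[p]) k = (bl (0 : ℚ_[p]) k \ bl (0 : ℚ_[p]) (k + 1)) ∪
      bl (0 : ℚ_[p]) (k + 1) := (Set.sdiff_union_of_subset hsub).symm
  unfold J
  conv_lhs => rw [h1]
  rw [lintegral_union (bl_meas _ _) Set.disjoint_sdiff_left]
  congr 1
  have h2 : ∀ x ∈ bl (0 : ℚ_[p]) k \ bl (0 : ℚ_[p]) (k + 1), w s a n x =
      (Tt p s ^ a * (p : ℝ≥0∞)⁻¹ ^ (n - 1)) ^ k := by
    rintro x ⟨hx1, hx2⟩
    rw [mem_bl, sub_zero] at hx1 hx2
    have hx0 : x ≠ 0 := by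
      rintro rfl
      rw [norm_zero] at hx2
      exact hx2 (pow_nonneg qr_pos.le _)
    have hpr : (1 : ℝ) < p := by exact_mod_cast (Fact.out : p.Prime).one_lt
    have hnx : ‖x‖ = ‖(p : ℚ_[p]) ^ k‖ := by
      rw [norm_pow, Padic.norm_p]
      have h3 := Padic.norm_eq_zpow_neg_valuation hx0
      have e1 : qr p ^ k = (p : ℝ) ^ (-(k : ℤ)) := by
        rw [qr, zpow_neg, zpow_natCast, inv_pow]
      have e2 : qr p ^ (k + 1) = (p : ℝ) ^ (-((k + 1 : ℕ) : ℤ)) := by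
        rw [qr, zpow_neg, zpow_natCast, inv_pow]
      rw [h3, e1, zpow_le_zpow_iff_right₀ hpr] at hx1
      rw [h3, e2, zpow_le_zpow_iff_right₀ hpr] at hx2
      have h4 : x.valuation = k := by push_cast at hx2; omega
      rw [h3, h4]
      exact e1.symm
    rw [w_norm s a n hnx, w, N_pow, N_pow, N_p, N1_p, ← pow_mul, ← pow_mul, mul_pow, ← pow_mul,
      ← pow_mul, mul_comm k a, mul_comm k (n - 1)]
  rw [setLIntegral_congr_fun ((bl_meas _ _).diff (bl_meas _ _)) h2, setLIntegral_const,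
    measure_sdiff hsub (bl_meas _ _).nullMeasurableSet (nu_bl_ne_top _ _)]

theorem toReal_pinv : ((p : ℝ≥0∞)⁻¹).toReal = qr p := by
  rw [ENNReal.toReal_inv, ENNReal.toReal_natCast, qr]

/-- **The one-dimensional integral.** -/
theorem J_eq {s : ℝ} (hs : 0 ≤ s) (a n k : ℕ) (hn : 1 ≤ n) :
    (1 - qr p ^ n * tr' p s ^ a) * (J (p := p) s a n k).toReal =
      (1 - qr p) * (qr p ^ n * tr' p s ^ a) ^ k := by
  have h1 := J_shell (p := p) s a n k
  rw [J_succ s a n k hn, nu_bl, nu_bl] at h1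
  have hpt : (p : ℝ≥0∞)⁻¹ ≠ ⊤ := by
    rw [Ne, ENNReal.inv_eq_top]
    exact_mod_cast (Fact.out : p.Prime).ne_zero
  have hTt : Tt p s ≠ ⊤ := ENNReal.ofReal_ne_top
  have hle : ((p : ℝ≥0∞)⁻¹) ^ (k + 1) ≤ ((p : ℝ≥0∞)⁻¹) ^ k := by
    rw [pow_succ]
    refine mul_le_of_le_one_right' ?_
    rw [ENNReal.inv_le_one]
    exact_mod_cast (Fact.out : p.Prime).one_lt.le
  have h2 := congrArg ENNReal.toReal h1
  rw [ENNReal.toReal_add, ENNReal.toReal_mul, ENNReal.toReal_mul, ENNReal.toReal_sub_of_le hle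
    (ENNReal.pow_ne_top hpt)] at h2
  · simp only [ENNReal.toReal_mul, ENNReal.toReal_pow, toReal_pinv, Tt_toReal] at h2
    have h3 : (tr' p s ^ a * qr p ^ (n - 1)) ^ k * (qr p ^ k - qr p ^ (k + 1)) =
        (1 - qr p) * (qr p ^ n * tr' p s ^ a) ^ k := by
      have h4 : n = (n - 1) + 1 := by omega
      conv_rhs => rw [h4, pow_succ]
      rw [pow_succ, mul_pow, mul_pow, mul_pow]
      ring
    rw [h3] at h2
    linarith
  · refine ENNReal.mul_ne_top (ENNReal.pow_ne_top (ENNReal.mul_ne_top (ENNReal.pow_ne_top hTt)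
      (ENNReal.pow_ne_top hpt))) ?_
    exact (tsub_le_self.trans_lt (lt_top_iff_ne_top.2 (ENNReal.pow_ne_top hpt))).ne
  · exact ENNReal.mul_ne_top (ENNReal.mul_ne_top (ENNReal.pow_ne_top hpt)
      (ENNReal.pow_ne_top hTt)) (J_ne_top hs a n k)

/-- the pair `(a, n)` is critical at `T0` -/
def Crit (p : ℕ) (T0 : ℂ) (a n : ℕ) : Prop := T0 ^ a = (p : ℂ) ^ n

theorem reg_J {T0 : ℂ} (a n k : ℕ) (hn : 1 ≤ n) (h : ¬ Crit p T0 a n) :
    Reg p T0 0 (fun s => ((J (p := p) s a n k).toReal : ℂ)) := by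
  have hp' : (p : ℂ) ≠ 0 := by exact_mod_cast (Fact.out : p.Prime).ne_zero
  refine ⟨1 - Polynomial.C ((qr p : ℂ) ^ n) * Polynomial.X ^ a,
    Polynomial.C (1 - (qr p : ℂ)) * (Polynomial.C ((qr p : ℂ) ^ n) * Polynomial.X ^ a) ^ k, ?_, ?_⟩
  · simp only [Polynomial.eval_sub, Polynomial.eval_one, Polynomial.eval_mul, Polynomial.eval_C,
      Polynomial.eval_pow, Polynomial.eval_X]
    intro h1
    apply h
    have h2 : (qr p : ℂ) ^ n * T0 ^ a = 1 := (sub_eq_zero.1 h1).symm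
    have h3 : (qr p : ℂ) = (p : ℂ)⁻¹ := by rw [qr]; push_cast; rfl
    rw [h3, inv_pow, inv_mul_eq_iff_eq_mul₀ (pow_ne_zero _ hp'), mul_one] at h2
    exact h2
  · intro s hs
    have h1 := J_eq (p := p) hs a n k hn
    simp only [pow_zero, one_mul, Polynomial.eval_sub, Polynomial.eval_one, Polynomial.eval_mul,
      Polynomial.eval_C, Polynomial.eval_pow, Polynomial.eval_X]
    have h2 := congrArg (fun x : ℝ => (x : ℂ)) h1
    push_cast at h2
    exact h2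

theorem reg_J1 {T0 : ℂ} (hT0 : T0 ≠ 0) (a n k : ℕ) (hn : 1 ≤ n) :
    Reg p T0 1 (fun s => ((J (p := p) s a n k).toReal : ℂ)) := by
  by_cases h : Crit p T0 a n
  swap
  · exact (reg_J a n k hn h).mono (Nat.zero_le 1)
  have hp' : (p : ℂ) ≠ 0 := by exact_mod_cast (Fact.out : p.Prime).ne_zero
  have hq : (qr p : ℂ) = (p : ℂ)⁻¹ := by rw [qr]; push_cast; rfl
  have ha : a ≠ 0 := by
    rintro rfl
    rw [Crit, pow_zero] at h
    have h1 : (1 : ℕ) = p ^ n := by exact_mod_cast h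
    have h2 := Nat.one_lt_pow (by omega : n ≠ 0) (Fact.out : p.Prime).one_lt
    omega
  set D : Polynomial ℂ := 1 - Polynomial.C ((qr p : ℂ) ^ n) * Polynomial.X ^ a with hD
  have hroot : D.IsRoot T0 := by
    rw [Polynomial.IsRoot, hD]
    simp only [Polynomial.eval_sub, Polynomial.eval_one, Polynomial.eval_mul, Polynomial.eval_C,
      Polynomial.eval_pow, Polynomial.eval_X]
    rw [h, hq, inv_pow, inv_mul_cancel₀ (pow_ne_zero _ hp'), sub_self]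
  obtain ⟨D1, hD1⟩ := Polynomial.dvd_iff_isRoot.2 hroot
  refine ⟨D1, Polynomial.C (1 - (qr p : ℂ)) *
    (Polynomial.C ((qr p : ℂ) ^ n) * Polynomial.X ^ a) ^ k, ?_, ?_⟩
  · intro h1
    have h2 := congrArg (fun q => (Polynomial.derivative q).eval T0) hD1
    have h3 : (Polynomial.derivative D).eval T0 = -((qr p : ℂ) ^ n * (a * T0 ^ (a - 1))) := by
      rw [hD, Polynomial.derivative_sub, Polynomial.derivative_one, Polynomial.derivative_C_mul,
        Polynomial.derivative_X_pow]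
      simp
    beta_reduce at h2
    rw [h3, Polynomial.derivative_mul] at h2
    simp only [Polynomial.eval_add, Polynomial.eval_mul, h1, Polynomial.eval_sub,
      Polynomial.eval_X, Polynomial.eval_C, sub_self, mul_zero, zero_mul, add_zero] at h2
    have h4 : (qr p : ℂ) ^ n * (a * T0 ^ (a - 1)) = 0 := by
      rw [← neg_eq_zero]; exact h2
    have hq0 : (qr p : ℂ) ^ n ≠ 0 := by
      rw [hq]; exact pow_ne_zero _ (inv_ne_zero hp')
    exact (mul_ne_zero hq0 (mul_ne_zero (Nat.cast_ne_zero.2 ha) (pow_ne_zero _ hT0))) h4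
  · intro s hs
    have h1 := J_eq (p := p) hs a n k hn
    rw [pow_one, ← hD1, hD]
    simp only [Polynomial.eval_sub, Polynomial.eval_one, Polynomial.eval_mul,
      Polynomial.eval_C, Polynomial.eval_pow, Polynomial.eval_X]
    have h2 := congrArg (fun x : ℝ => (x : ℂ)) h1
    push_cast at h2
    exact h2

/-- integrals over arbitrary balls -/
noncomputable def I1 (s : ℝ) (a n : ℕ) (b : ℚ_[p]) (k : ℕ) : ℝ≥0∞ :=
  ∫⁻ x in bl b k, w s a n x ∂(nu p)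

theorem I1_far (s : ℝ) (a n : ℕ) (b : ℚ_[p]) (k : ℕ) (hb : qr p ^ k < ‖b‖) :
    I1 s a n b k = w s a n b * ((p : ℝ≥0∞)⁻¹) ^ k := by
  unfold I1
  have h1 : ∀ x ∈ bl b k, w s a n x = w s a n b := by
    intro x hx
    rw [mem_bl] at hx
    refine w_norm s a n ?_
    have h2 : ‖x - b‖ < ‖b‖ := hx.trans_lt hb
    have h3 : x = (x - b) + b := by ring
    rw [h3, Padic.add_eq_max_of_ne h2.ne, max_eq_right h2.le]
  rw [setLIntegral_congr_fun (bl_meas _ _) h1, setLIntegral_const, nu_bl]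

theorem I1_near (s : ℝ) (a n : ℕ) (b : ℚ_[p]) (k : ℕ) (hb : ‖b‖ ≤ qr p ^ k) :
    I1 s a n b k = J (p := p) s a n k := by
  unfold I1 J
  congr 2
  refine IsUltrametricDist.closedBall_eq_of_mem ?_
  rw [Metric.mem_closedBall, dist_eq_norm, zero_sub, norm_neg]
  exact hb

theorem I1_ne_top {s : ℝ} (hs : 0 ≤ s) (a n : ℕ) (b : ℚ_[p]) (k : ℕ) : I1 s a n b k ≠ ⊤ := by
  rcases lt_or_ge (qr p ^ k) ‖b‖ with h | h
  · rw [I1_far s a n b k h]
    refine ENNReal.mul_ne_top (w_ne_top _ _ _ _) (ENNReal.pow_ne_top ?_)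
    rw [Ne, ENNReal.inv_eq_top]
    exact_mod_cast (Fact.out : p.Prime).ne_zero
  · rw [I1_near s a n b k h]
    exact J_ne_top hs a n k

theorem reg_far {T0 : ℂ} (hT0 : T0 ≠ 0) (a n : ℕ) (b : ℚ_[p]) (k : ℕ) (hb : qr p ^ k < ‖b‖) :
    Reg p T0 0 (fun s => ((I1 s a n b k).toReal : ℂ)) := by
  have hb0 : b ≠ 0 := by
    rintro rfl
    rw [norm_zero] at hb
    exact absurd hb (not_lt.2 (pow_nonneg qr_pos.le _))
  refine ((reg_w hT0 a n b hb0).mul0 (Reg.const ((qr p : ℂ) ^ k))).congr fun s _ => ?_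
  rw [I1_far s a n b k hb, ENNReal.toReal_mul, ENNReal.toReal_pow, toReal_pinv]
  push_cast
  rfl

theorem reg_I1 {T0 : ℂ} (hT0 : T0 ≠ 0) (a n : ℕ) (hn : 1 ≤ n) (h : ¬ Crit p T0 a n)
    (b : ℚ_[p]) (k : ℕ) : Reg p T0 0 (fun s => ((I1 s a n b k).toReal : ℂ)) := by
  rcases lt_or_ge (qr p ^ k) ‖b‖ with hb | hb
  · exact reg_far hT0 a n b k hb
  · simp only [I1_near _ a n b k hb]
    exact reg_J a n k hn h

theorem reg_I1' {T0 : ℂ} (hT0 : T0 ≠ 0) (a n : ℕ) (hn : 1 ≤ n) (b : ℚ_[p]) (k : ℕ) :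
    Reg p T0 1 (fun s => ((I1 s a n b k).toReal : ℂ)) := by
  rcases lt_or_ge (qr p ^ k) ‖b‖ with hb | hb
  · exact (reg_far hT0 a n b k hb).mono (Nat.zero_le 1)
  · simp only [I1_near _ a n b k hb]
    exact reg_J1 hT0 a n k hn

end Pool.Agent.Y230.PT
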