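import Pool.Agent.Y230.PT.FieldC

set_option autoImplicit false
set_option linter.unusedSectionVars false
set_option linter.unusedVariables false

/-! # The lines at a critical exceptional curve are rational -/

namespace Pool.Agent.Y230.PT

open Pool.Agent.W574.SM Pool.Agent.Y230.RE Polynomial

variable {p : ℕ} [Fact p.Prime]

theorem spec_of (φ : ℚ_[p] →+* ℂ) (T0 : ℂ) (r : ℂ)
    (hcr : ∀ a n : ℕ, Crit p T0 a n → (n : ℂ) + r * (a : ℂ) = 0)
    (P : Polynomial ℚ_[p]) (hP : P ≠ 0) (m a0 n0 a1 n1 : ℕ)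
    (hdeg : (P.map φ).natDegree ≤ m)
    (hA0 : (n1 : ℂ) + r * ((a1 + (P.map φ).rootMultiplicity 0 : ℕ) : ℂ) ≠ 0)
    (hAI : (n0 : ℂ) + r * ((a0 + (m - (P.map φ).natDegree) : ℕ) : ℂ) ≠ 0)
    (hAc : ∀ c, c ≠ 0 → 1 + r * ((P.map φ).rootMultiplicity c : ℂ) ≠ 0)
    (T : Finset ℂ) (hT : ∀ c, c ∈ T ↔ c ≠ 0 ∧ (P.map φ).rootMultiplicity c ≠ 0)
    (hcard : T.card ≤ 2)
    (h1 : T.card = 1 → (a0 + (m - (P.map φ).natDegree) = 0 ∧ n0 = 1) ∨
          (a1 + (P.map φ).rootMultiplicity 0 = 0 ∧ n1 = 1))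
    (h2 : T.card = 2 → (a0 + (m - (P.map φ).natDegree) = 0 ∧ n0 = 1) ∧
          (a1 + (P.map φ).rootMultiplicity 0 = 0 ∧ n1 = 1))
    (hsum : (P.map φ).rootMultiplicity 0 + ∑ c ∈ T, (P.map φ).rootMultiplicity c =
          (P.map φ).natDegree)
    (hrel : ((n0 : ℂ) + r * ((a0 + (m - (P.map φ).natDegree) : ℕ) : ℂ)) +
          ((n1 : ℂ) + r * ((a1 + (P.map φ).rootMultiplicity 0 : ℕ) : ℂ)) +
          ∑ c ∈ T, r * ((P.map φ).rootMultiplicity c : ℂ) = 0) :
    ∃ (γ : ℚ_[p]) (μ0 : ℕ) (T' : Finset ℚ_[p]) (μ : ℚ_[p] → ℕ),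
      Spec T0 P m a0 n0 a1 n1 γ μ0 T' μ := by
  classical
  have hPm : P.map φ ≠ 0 := by rwa [Ne, Polynomial.map_eq_zero]
  -- rationality
  have hrat : ∀ c ∈ T, ∃ x : ℚ_[p], φ x = c := by
    intro c hc
    by_contra hno
    push Not at hno
    have hc2 := (hT c).1 hc
    have hroot : (P.map φ).IsRoot c := by
      by_contra h
      exact hc2.2 (rootMultiplicity_eq_zero h)
    obtain ⟨c', h3, h4, h5⟩ := exists_conj φ P hP c hroot hno
    have hc' : c' ∈ T := (hT c').2 ⟨h4, by rw [h5]; exact hc2.2⟩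
    have h6 : ({c, c'} : Finset ℂ) ⊆ T := by
      intro x hx
      rw [Finset.mem_insert, Finset.mem_singleton] at hx
      rcases hx with rfl | rfl
      · exact hc
      · exact hc'
    have h7 : ({c, c'} : Finset ℂ).card = 2 := Finset.card_pair h3.symm
    have h8 : ({c, c'} : Finset ℂ) = T := Finset.eq_of_subset_of_card_le h6 (by omega)
    have h9 : T.card = 2 := by rw [← h8, h7]
    obtain ⟨⟨e1, e2⟩, e3, e4⟩ := h2 h9
    rw [e1, e2, e3, e4, ← h8, Finset.sum_pair h3.symm, h5] at hrel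
    apply hAc c hc2.1
    push_cast at hrel
    linear_combination hrel / 2
  have hinj : Function.Injective φ := φ.injective
  set T' : Finset ℚ_[p] := T.preimage φ hinj.injOn with hT'
  have himg : T'.image φ = T := by
    ext c
    rw [Finset.mem_image]
    constructor
    · rintro ⟨x, hx, rfl⟩
      rwa [hT', Finset.mem_preimage] at hx
    · intro hc
      obtain ⟨x, rfl⟩ := hrat c hc
      exact ⟨x, by rw [hT', Finset.mem_preimage]; exact hc, rfl⟩
  have hcardT : T'.card = T.card := by rw [← himg, Finset.card_image_of_injective _ hinj]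
  set μ : ℚ_[p] → ℕ := fun x => (P.map φ).rootMultiplicity (φ x) with hμ
  have hsumT : ∑ c ∈ T', μ c = ∑ c ∈ T, (P.map φ).rootMultiplicity c := by
    rw [← himg, Finset.sum_image (fun x _ y _ h => hinj h)]
  have h0T : (0 : ℂ) ∉ T := fun h => ((hT 0).1 h).1 rfl
  have hprod : P.map φ = C (φ P.leadingCoeff) * (X ^ (P.map φ).rootMultiplicity 0 *
      ∏ c ∈ T', (X - C (φ c)) ^ μ c) := by
    have h3 := (IsAlgClosed.splits (P.map φ)).eq_prod_roots
    rw [prod_multiset_root_eq_finset_root, leadingCoeff_map] at h3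
    conv_lhs => rw [h3]
    congr 1
    have h4 : ∏ a ∈ (P.map φ).roots.toFinset, (X - C a) ^ (P.map φ).rootMultiplicity a =
        ∏ a ∈ insert 0 T, (X - C a) ^ (P.map φ).rootMultiplicity a := by
      refine Finset.prod_subset_one_on_sdiff ?_ ?_ (fun _ _ => rfl)
      · intro x hx
        rw [Multiset.mem_toFinset, mem_roots hPm] at hx
        rw [Finset.mem_insert]
        by_cases h0 : x = 0
        · exact Or.inl h0
        · exact Or.inr ((hT x).2 ⟨h0, ((rootMultiplicity_pos hPm).2 hx).ne'⟩)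
      · intro x hx
        rw [Finset.mem_sdiff, Multiset.mem_toFinset, mem_roots hPm] at hx
        rw [rootMultiplicity_eq_zero hx.2, pow_zero]
    rw [h4, Finset.prod_insert h0T, map_zero, sub_zero, ← himg,
      Finset.prod_image (fun x _ y _ h => hinj h)]
  have hPeq : P = C P.leadingCoeff * (X ^ (P.map φ).rootMultiplicity 0 *
      ∏ c ∈ T', (X - C c) ^ μ c) := by
    apply Polynomial.map_injective φ hinj
    conv_lhs => rw [hprod]
    simp only [Polynomial.map_mul, Polynomial.map_C, Polynomial.map_pow, Polynomial.map_X,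
      Polynomial.map_prod, Polynomial.map_sub]
  have hdd : (P.map φ).rootMultiplicity 0 + ∑ c ∈ T', μ c = (P.map φ).natDegree := by
    rw [hsumT, hsum]
  refine ⟨P.leadingCoeff, (P.map φ).rootMultiplicity 0, T', μ,
    { hγ := leadingCoeff_ne_zero.2 hP
      hP := hPeq
      h0T := by
        rw [hT', Finset.mem_preimage, map_zero]
        exact h0T
      hdeg := by rw [hdd]; exact hdeg
      hI := by
        rw [hdd]
        exact fun h => hAI (hcr _ _ h)
      h0 := fun h => hA0 (hcr _ _ h)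
      hc := by
        intro c hc h
        rw [hT', Finset.mem_preimage] at hc
        have h3 := hcr _ _ h
        rw [Nat.cast_one] at h3
        exact hAc _ ((hT _).1 hc).1 h3
      hcard := by rw [hcardT]; exact hcard
      h1 := by rw [hcardT, hdd]; exact h1
      h2 := by rw [hcardT, hdd]; exact h2 }⟩

end Pool.Agent.Y230.PT
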