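import Pool.Agent.Y230.PT.OneDim

set_option autoImplicit false
set_option linter.unusedSectionVars false

/-! # Integrals over compact open subsets of `ℚ_p ^ 2` -/

namespace Pool.Agent.Y230.PT

open MeasureTheory Set Pool.Agent.W427.SMC
open scoped ENNReal

variable {p : ℕ} [Fact p.Prime]

attribute [local instance] msK bsK

/-- the measure of the plane -/
noncomputable def nu2 (p : ℕ) [Fact p.Prime] : Measure (ℚ_[p] × ℚ_[p]) := (nu p).prod (nu p)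

/-- compact open sets -/
structure CO (C : Set (ℚ_[p] × ℚ_[p])) : Prop where
  cpt : IsCompact C
  opn : IsOpen C

theorem CO.meas {C : Set (ℚ_[p] × ℚ_[p])} (hC : CO C) : MeasurableSet C :=
  hC.opn.measurableSet

theorem CO.union {A B : Set (ℚ_[p] × ℚ_[p])} (hA : CO A) (hB : CO B) : CO (A ∪ B) :=
  ⟨hA.cpt.union hB.cpt, hA.opn.union hB.opn⟩

theorem CO.empty : CO (∅ : Set (ℚ_[p] × ℚ_[p])) := ⟨isCompact_empty, isOpen_empty⟩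

theorem CO.inter {A B : Set (ℚ_[p] × ℚ_[p])} (hA : CO A) (hB : IsClopen B) : CO (A ∩ B) :=
  ⟨hA.cpt.inter_right hB.1, hA.opn.inter hB.2⟩

/-- boxes -/
def bx (κ : ℕ) (y : ℚ_[p] × ℚ_[p]) (k : ℕ) : Set (ℚ_[p] × ℚ_[p]) := bl y.1 (k + κ) ×ˢ bl y.2 k

theorem mem_bx (κ : ℕ) (y x : ℚ_[p] × ℚ_[p]) (k : ℕ) :
    x ∈ bx κ y k ↔ ‖x.1 - y.1‖ ≤ qr p ^ (k + κ) ∧ ‖x.2 - y.2‖ ≤ qr p ^ k := by
  rw [bx, Set.mem_prod, mem_bl, mem_bl]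

theorem self_mem_bx (κ : ℕ) (y : ℚ_[p] × ℚ_[p]) (k : ℕ) : y ∈ bx κ y k := by
  rw [mem_bx, sub_self, sub_self, norm_zero]
  exact ⟨pow_nonneg qr_pos.le _, pow_nonneg qr_pos.le _⟩

theorem bl_open (b : ℚ_[p]) (k : ℕ) : IsOpen (bl b k) :=
  IsUltrametricDist.isOpen_closedBall b (pow_pos qr_pos k).ne'

theorem bl_cpt (b : ℚ_[p]) (k : ℕ) : IsCompact (bl b k) := isCompact_closedBall _ _

theorem CO_bx (κ : ℕ) (y : ℚ_[p] × ℚ_[p]) (k : ℕ) : CO (bx κ y k) :=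
  ⟨(bl_cpt _ _).prod (bl_cpt _ _), (bl_open _ _).prod (bl_open _ _)⟩

theorem bl_eq {b c x : ℚ_[p]} {k : ℕ} (h1 : x ∈ bl b k) (h2 : x ∈ bl c k) : bl b k = bl c k := by
  rw [bl, bl, IsUltrametricDist.closedBall_eq_of_mem h1, IsUltrametricDist.closedBall_eq_of_mem h2]

theorem bx_eq {κ : ℕ} {y z x : ℚ_[p] × ℚ_[p]} {k : ℕ} (h1 : x ∈ bx κ y k) (h2 : x ∈ bx κ z k) :
    bx κ y k = bx κ z k := by
  rw [bx, bx, bl_eq h1.1 h2.1, bl_eq h1.2 h2.2]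

theorem bx_sub_ball (κ : ℕ) (y : ℚ_[p] × ℚ_[p]) (k : ℕ) :
    bx κ y k ⊆ Metric.closedBall y (qr p ^ k) := by
  intro x hx
  rw [mem_bx] at hx
  rw [Metric.mem_closedBall, dist_eq_norm, Prod.norm_def]
  refine max_le (hx.1.trans ?_) hx.2
  exact pow_le_pow_of_le_one qr_pos.le qr_lt_one.le (Nat.le_add_right k κ)

/-- induction over the compact open sets -/
theorem ball_ind (κ : ℕ) (P : Set (ℚ_[p] × ℚ_[p]) → Prop) (he : P ∅)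
    (hu : ∀ A B, CO A → CO B → Disjoint A B → P A → P B → P (A ∪ B))
    (C : Set (ℚ_[p] × ℚ_[p])) (hC : CO C)
    (hloc : ∀ x ∈ C, ∃ U, IsOpen U ∧ x ∈ U ∧ ∀ y k, bx κ y k ⊆ U → P (bx κ y k)) : P C := by
  classical
  choose! U hUo hxU hUP using hloc
  obtain ⟨δ, hδ, hδ2⟩ := lebesgue_number_lemma_of_metric (ι := C) (c := fun x => U x.1 ∩ C) hC.cpt
    (fun x => (hUo x.1 x.2).inter hC.opn) (fun x hx => Set.mem_iUnion.2 ⟨⟨x, hx⟩, hxU x hx, hx⟩)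
  obtain ⟨k, hk⟩ := exists_pow_lt_of_lt_one hδ (qr_lt_one (p := p))
  have hsub : ∀ y ∈ C, ∃ x ∈ C, bx κ y k ⊆ U x ∩ C := by
    intro y hy
    obtain ⟨x, hx⟩ := hδ2 y hy
    refine ⟨x.1, x.2, (bx_sub_ball κ y k).trans ((Metric.closedBall_subset_ball hk).trans hx)⟩
  obtain ⟨t, ht⟩ := hC.cpt.elim_finite_subcover (fun y : C => bx κ y.1 k)
    (fun y => (CO_bx κ y.1 k).opn) (fun y hy => Set.mem_iUnion.2 ⟨⟨y, hy⟩, self_mem_bx κ y k⟩)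
  have hCt : C = ⋃ y ∈ t, bx κ (y : ℚ_[p] × ℚ_[p]) k := by
    refine Set.Subset.antisymm ht (Set.iUnion₂_subset fun y _ => ?_)
    obtain ⟨x, _, hx⟩ := hsub y.1 y.2
    exact hx.trans Set.inter_subset_right
  have key : ∀ t : Finset C, P (⋃ y ∈ t, bx κ (y : ℚ_[p] × ℚ_[p]) k) ∧
      CO (⋃ y ∈ t, bx κ (y : ℚ_[p] × ℚ_[p]) k) := by
    intro t
    induction t using Finset.induction_on with
    | empty => simpa using ⟨he, CO.empty⟩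
    | insert y t hy ih =>
      rw [Finset.set_biUnion_insert]
      by_cases hd : Disjoint (bx κ (y : ℚ_[p] × ℚ_[p]) k) (⋃ y ∈ t, bx κ (y : ℚ_[p] × ℚ_[p]) k)
      · refine ⟨hu _ _ (CO_bx κ _ k) ih.2 hd ?_ ih.1, (CO_bx κ _ k).union ih.2⟩
        obtain ⟨x, hx1, hx2⟩ := hsub y.1 y.2
        exact hUP x hx1 y.1 k (hx2.trans Set.inter_subset_left)
      · rw [Set.not_disjoint_iff] at hd
        obtain ⟨x, hx1, hx2⟩ := hd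
        rw [Set.mem_iUnion₂] at hx2
        obtain ⟨z, hz, hxz⟩ := hx2
        have h1 : bx κ (y : ℚ_[p] × ℚ_[p]) k ⊆ ⋃ y ∈ t, bx κ (y : ℚ_[p] × ℚ_[p]) k := by
          rw [bx_eq hx1 hxz]
          exact Set.subset_iUnion₂ (s := fun (y : C) (_ : y ∈ t) => bx κ (y : ℚ_[p] × ℚ_[p]) k) z hz
        rw [Set.union_eq_self_of_subset_left h1]
        exact ih
  rw [hCt]
  exact (key t).1

/-- the good integrands -/
def Ok (H : ℝ → ℚ_[p] × ℚ_[p] → ℝ≥0∞) : Prop :=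
  ∀ s : ℝ, 0 ≤ s → Measurable (H s) ∧ ∀ C : Set (ℚ_[p] × ℚ_[p]), IsCompact C →
    ∃ B : ℝ≥0∞, B ≠ ⊤ ∧ ∀ x ∈ C, H s x ≤ B

/-- the integral over a set -/
noncomputable def Zc (H : ℝ → ℚ_[p] × ℚ_[p] → ℝ≥0∞) (C : Set (ℚ_[p] × ℚ_[p])) (s : ℝ) : ℂ :=
  ((∫⁻ x in C, H s x ∂(nu2 p)).toReal : ℂ)

instance : IsFiniteMeasureOnCompacts (nu2 p) := by unfold nu2; infer_instance

theorem Ok.fin {H : ℝ → ℚ_[p] × ℚ_[p] → ℝ≥0∞} (hH : Ok H) {C : Set (ℚ_[p] × ℚ_[p])} (hC : CO C)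
    {s : ℝ} (hs : 0 ≤ s) : ∫⁻ x in C, H s x ∂(nu2 p) ≠ ⊤ := by
  obtain ⟨B, hB, hle⟩ := (hH s hs).2 C hC.cpt
  refine ((setLIntegral_mono measurable_const hle).trans_lt ?_).ne
  rw [setLIntegral_const]
  exact ENNReal.mul_lt_top (lt_top_iff_ne_top.2 hB) hC.cpt.measure_lt_top

theorem Zc_union {H : ℝ → ℚ_[p] × ℚ_[p] → ℝ≥0∞} (hH : Ok H) {A B : Set (ℚ_[p] × ℚ_[p])}
    (hA : CO A) (hB : CO B) (hd : Disjoint A B) {s : ℝ} (hs : 0 ≤ s) :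
    Zc H (A ∪ B) s = Zc H A s + Zc H B s := by
  unfold Zc
  rw [lintegral_union hB.meas hd, ENNReal.toReal_add (hH.fin hA hs) (hH.fin hB hs)]
  push_cast
  rfl

theorem Zc_empty (H : ℝ → ℚ_[p] × ℚ_[p] → ℝ≥0∞) (s : ℝ) : Zc H ∅ s = 0 := by
  simp [Zc]

theorem Zc_congr {H G : ℝ → ℚ_[p] × ℚ_[p] → ℝ≥0∞} {C : Set (ℚ_[p] × ℚ_[p])} (hC : CO C) {s : ℝ}
    (h : ∀ x ∈ C, H s x = G s x) : Zc H C s = Zc G C s := by
  unfold Zc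
  rw [setLIntegral_congr_fun hC.meas h]

/-- the product formula -/
theorem box_prod (f g : ℚ_[p] → ℝ≥0∞) (hf : Measurable f) (hg : Measurable g) (κ : ℕ)
    (y : ℚ_[p] × ℚ_[p]) (k : ℕ) : ∫⁻ x in bx κ y k, f x.1 * g x.2 ∂(nu2 p) =
      (∫⁻ u in bl y.1 (k + κ), f u ∂(nu p)) * ∫⁻ v in bl y.2 k, g v ∂(nu p) := by
  rw [bx, nu2, ← Measure.prod_restrict]
  exact lintegral_prod_mul hf.aemeasurable hg.aemeasurable

/-- the monomial integrands -/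
noncomputable def mon (γ : ℚ_[p]) (a0 n0 a1 n1 : ℕ) (s : ℝ) (x : ℚ_[p] × ℚ_[p]) : ℝ≥0∞ :=
  N p s γ * (w s a0 n0 x.1 * w s a1 n1 x.2)

theorem bound_norm (f : ℚ_[p] × ℚ_[p] → ℚ_[p]) (hf : Continuous f) (C : Set (ℚ_[p] × ℚ_[p]))
    (hC : IsCompact C) : ∃ R : ℚ_[p], ∀ x ∈ C, ‖f x‖ ≤ ‖R‖ := by
  obtain ⟨R, hR⟩ := hC.exists_bound_of_continuousOn hf.continuousOn
  obtain ⟨y, hy⟩ := NormedField.exists_lt_norm ℚ_[p] R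
  exact ⟨y, fun x hx => (hR x hx).trans hy.le⟩

theorem ok_N (f : ℚ_[p] × ℚ_[p] → ℚ_[p]) (hf : Continuous f) : Ok (fun s x => N p s (f x)) := by
  intro s hs
  refine ⟨(N_meas s).comp hf.measurable, fun C hC => ?_⟩
  obtain ⟨R, hR⟩ := bound_norm f hf C hC
  exact ⟨N p s R, N_ne_top _ _, fun x hx => N_mono hs (hR x hx)⟩

theorem ok_N1 (f : ℚ_[p] × ℚ_[p] → ℚ_[p]) (hf : Continuous f) : Ok (fun _ x => N p 1 (f x)) := by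
  intro s hs
  refine ⟨(N_meas 1).comp hf.measurable, fun C hC => ?_⟩
  obtain ⟨R, hR⟩ := bound_norm f hf C hC
  exact ⟨N p 1 R, N_ne_top _ _, fun x hx => N_mono zero_le_one (hR x hx)⟩

theorem Ok.mul {H G : ℝ → ℚ_[p] × ℚ_[p] → ℝ≥0∞} (hH : Ok H) (hG : Ok G) :
    Ok (fun s x => H s x * G s x) := by
  intro s hs
  refine ⟨(hH s hs).1.mul (hG s hs).1, fun C hC => ?_⟩
  obtain ⟨B, hB, h1⟩ := (hH s hs).2 C hC
  obtain ⟨B', hB', h2⟩ := (hG s hs).2 C hC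
  exact ⟨B * B', ENNReal.mul_ne_top hB hB', fun x hx => mul_le_mul' (h1 x hx) (h2 x hx)⟩

theorem ok_one : Ok (fun (_ : ℝ) (_ : ℚ_[p] × ℚ_[p]) => (1 : ℝ≥0∞)) := by
  intro s _
  exact ⟨measurable_const, fun C _ => ⟨1, ENNReal.one_ne_top, fun _ _ => le_rfl⟩⟩

theorem Ok.pow {H : ℝ → ℚ_[p] × ℚ_[p] → ℝ≥0∞} (hH : Ok H) (n : ℕ) :
    Ok (fun s x => H s x ^ n) := by
  induction n with
  | zero => simpa using ok_one
  | succ n ih =>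
    have := ih.mul hH
    simpa [pow_succ] using this

theorem Ok.sup {ι : Type} [Fintype ι] {H : ι → ℝ → ℚ_[p] × ℚ_[p] → ℝ≥0∞} (hH : ∀ j, Ok (H j)) :
    Ok (fun s x => ⨆ j, H j s x) := by
  intro s hs
  refine ⟨Measurable.iSup fun j => (hH j s hs).1, fun C hC => ?_⟩
  choose B hB hle using fun j => (hH j s hs).2 C hC
  refine ⟨∑ j, B j, ?_, fun x hx => iSup_le fun j => (hle j x hx).trans ?_⟩
  · rw [Ne, ENNReal.sum_eq_top]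
    push Not
    exact fun j _ => hB j
  · exact Finset.single_le_sum (f := B) (fun _ _ => zero_le) (Finset.mem_univ j)

theorem ok_w (f : ℚ_[p] × ℚ_[p] → ℚ_[p]) (hf : Continuous f) (a n : ℕ) :
    Ok (fun s x => w s a n (f x)) :=
  ((ok_N f hf).pow a).mul ((ok_N1 f hf).pow (n - 1))

theorem ok_mon (γ : ℚ_[p]) (a0 n0 a1 n1 : ℕ) : Ok (mon γ a0 n0 a1 n1) :=
  (ok_N (fun _ => γ) continuous_const).mul ((ok_w (fun x => x.1) continuous_fst a0 n0).mul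
    (ok_w (fun x => x.2) continuous_snd a1 n1))

theorem mon_box (γ : ℚ_[p]) (a0 n0 a1 n1 : ℕ) (κ : ℕ) (y : ℚ_[p] × ℚ_[p]) (k : ℕ) (s : ℝ) :
    Zc (mon γ a0 n0 a1 n1) (bx κ y k) s = ((N p s γ).toReal : ℂ) *
      (((I1 s a0 n0 y.1 (k + κ)).toReal : ℂ) * ((I1 s a1 n1 y.2 k).toReal : ℂ)) := by
  unfold Zc mon
  rw [lintegral_const_mul' _ _ (N_ne_top _ _), box_prod _ _ (w_meas s a0 n0) (w_meas s a1 n1),
    ENNReal.toReal_mul, ENNReal.toReal_mul]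
  push_cast
  rfl

/-- regularity on all the compact open sets -/
theorem reg_of_boxes {T0 : ℂ} {M : ℕ} {H : ℝ → ℚ_[p] × ℚ_[p] → ℝ≥0∞} (hH : Ok H) (κ : ℕ)
    (C : Set (ℚ_[p] × ℚ_[p])) (hC : CO C)
    (hloc : ∀ x ∈ C, ∃ U, IsOpen U ∧ x ∈ U ∧ ∀ y k, bx κ y k ⊆ U → Reg p T0 M (Zc H (bx κ y k))) :
    Reg p T0 M (Zc H C) := by
  refine ball_ind κ (fun C => Reg p T0 M (Zc H C)) ?_ ?_ C hC hloc
  · exact Reg.zero.congr fun s _ => (Zc_empty H s).symm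
  · intro A B hA hB hd h1 h2
    exact (h1.add h2).congr fun s hs => (Zc_union hH hA hB hd hs).symm

theorem reg_mon {T0 : ℂ} (hT0 : T0 ≠ 0) (γ : ℚ_[p]) (hγ : γ ≠ 0) (a0 n0 a1 n1 : ℕ) (hn0 : 1 ≤ n0)
    (hn1 : 1 ≤ n1) (h0 : ¬ Crit p T0 a0 n0) (h1 : ¬ Crit p T0 a1 n1)
    (C : Set (ℚ_[p] × ℚ_[p])) (hC : CO C) : Reg p T0 0 (Zc (mon γ a0 n0 a1 n1) C) := by
  refine reg_of_boxes (ok_mon _ _ _ _ _) 0 C hC fun x _ => ⟨Set.univ, isOpen_univ, trivial,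
    fun y k _ => ?_⟩
  refine ((reg_N hT0 γ hγ).mul0 ((reg_I1 hT0 a0 n0 hn0 h0 y.1 (k + 0)).mul0
    (reg_I1 hT0 a1 n1 hn1 h1 y.2 k))).congr fun s _ => (mon_box _ _ _ _ _ _ _ _ _).symm

theorem reg_mon1 {T0 : ℂ} (hT0 : T0 ≠ 0) (γ : ℚ_[p]) (hγ : γ ≠ 0) (a0 n0 a1 n1 : ℕ) (hn0 : 1 ≤ n0)
    (hn1 : 1 ≤ n1) (h : ¬ Crit p T0 a0 n0 ∨ ¬ Crit p T0 a1 n1)
    (C : Set (ℚ_[p] × ℚ_[p])) (hC : CO C) : Reg p T0 1 (Zc (mon γ a0 n0 a1 n1) C) := by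
  refine reg_of_boxes (ok_mon _ _ _ _ _) 0 C hC fun x _ => ⟨Set.univ, isOpen_univ, trivial,
    fun y k _ => ?_⟩
  rcases h with h | h
  · refine ((reg_N hT0 γ hγ).mul0 ((reg_I1 hT0 a0 n0 hn0 h y.1 (k + 0)).mul0
      (reg_I1' hT0 a1 n1 hn1 y.2 k))).congr fun s _ => (mon_box _ _ _ _ _ _ _ _ _).symm
  · refine ((reg_N hT0 γ hγ).mul0 ((reg_I1 hT0 a1 n1 hn1 h y.2 k).mul0
      (reg_I1' hT0 a0 n0 hn0 y.1 (k + 0)))).congr fun s _ => ?_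
    rw [mon_box]
    ring

theorem reg_mon2 {T0 : ℂ} (hT0 : T0 ≠ 0) (γ : ℚ_[p]) (hγ : γ ≠ 0) (a0 n0 a1 n1 : ℕ) (hn0 : 1 ≤ n0)
    (hn1 : 1 ≤ n1) (C : Set (ℚ_[p] × ℚ_[p])) (hC : CO C) :
    Reg p T0 2 (Zc (mon γ a0 n0 a1 n1) C) := by
  refine reg_of_boxes (ok_mon _ _ _ _ _) 0 C hC fun x _ => ⟨Set.univ, isOpen_univ, trivial,
    fun y k _ => ?_⟩
  refine ((reg_N hT0 γ hγ).mul0 ((reg_I1' hT0 a0 n0 hn0 y.1 (k + 0)).mul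
    (reg_I1' hT0 a1 n1 hn1 y.2 k))).congr fun s _ => (mon_box _ _ _ _ _ _ _ _ _).symm

end Pool.Agent.Y230.PT
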